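import Pool.Agent.Lib.MP_f31b39_co.Crit2

/-!
# Tight `t`-independent sets: a checker for trees of lattice points
-/

namespace TightIndep

/-- the norm of a list -/
def ln : List ℤ → ℕ
  | [] => 0
  | x :: l => x.natAbs + ln l

/-- the vector of a list -/
def toV (m : ℕ) (l : List ℤ) : Fin m → ℤ := fun i => l.getD i.val 0

/-- linear combinations -/
def comb (m : ℕ) : List ℤ → List (List ℤ) → List ℤ
  | c :: cs, g :: gs => List.zipWith (fun a b => c * a + b) g (comb m cs gs)
  | _, _ => List.replicate m 0

/-- difference -/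
def lsub (x y : List ℤ) : List ℤ := List.zipWith (fun a b => a - b) x y

/-- overlap of two integers -/
def ovz (v y : ℤ) : ℕ := min v.toNat y.toNat + min (-v).toNat (-y).toNat

/-- a faster version of the overlap -/
def ovf : ℤ → ℤ → ℕ
  | Int.ofNat a, Int.ofNat b => a - (a - b)
  | Int.negSucc a, Int.negSucc b => (a + 1) - (a - b)
  | Int.ofNat _, Int.negSucc _ => 0
  | Int.negSucc _, Int.ofNat _ => 0

theorem ovf_eq (v y : ℤ) : ovf v y = ovz v y := by
  cases v <;> cases y <;>
    simp only [ovf, ovz, Int.ofNat_eq_natCast, Int.negSucc_eq] <;> omega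

/-- overlap of lists -/
def lov : List ℤ → List ℤ → ℕ
  | x :: xs, y :: ys => ovz x y + lov xs ys
  | _, _ => 0

/-- one step of the enumeration -/
def stepH (v : ℤ) : List (ℕ × List ℤ) → Option (List (ℕ × List ℤ))
  | [] => some []
  | (sl, []) :: H =>
    match stepH v H with
    | none => none
    | some H' => some ((sl, []) :: H')
  | (sl, y :: ys) :: H =>
    if ovf v y ≤ sl then
      match stepH v H with
      | none => none
      | some H' => some ((sl - ovf v y, ys) :: H')
    else none

/-- the possible values of a coordinate, with the remaining norm -/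
def opts (q : ℤ) (r : ℕ) : List (ℤ × ℕ) :=
  if 0 < q then (List.range (r + 1)).map fun (a : ℕ) => (q + (a : ℤ), r - a)
  else if q < 0 then (List.range (r + 1)).map fun (a : ℕ) => (q - (a : ℤ), r - a)
  else ((List.range (r + 1)).map fun (a : ℕ) => ((a : ℤ), r - a)) ++
    ((List.range r).map fun (a : ℕ) => (-((a : ℤ) + 1), r - (a + 1)))

/-- the possible values of the last coordinate -/
def optsL (q : ℤ) (r : ℕ) : List ℤ :=
  if 0 < q then [q + (r : ℤ)]
  else if q < 0 then [q - (r : ℤ)]
  else if r = 0 then [0] else [(r : ℤ), -(r : ℤ)]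

/-- the points `x` with `x` beyond `Q`, at distance `r` from `Q`, and with bounded overlaps -/
def enum : List ℤ → ℕ → List (ℕ × List ℤ) → List (List ℤ)
  | [], r, _ => if r = 0 then [[]] else []
  | [q], r, H => (optsL q r).filterMap fun v =>
    match stepH v H with
    | none => none
    | some _ => some [v]
  | q :: q' :: qs, r, H => (opts q r).flatMap fun p =>
    match stepH p.1 H with
    | none => []
    | some H' => (enum (q' :: qs) p.2 H').map fun l => p.1 :: l

/-- `x` is beyond `Q`, at distance `r` from `Q` -/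
def Cand : List ℤ → List ℤ → ℕ → Prop
  | [], [], r => r = 0
  | q :: qs, v :: xs, r => ∃ a : ℕ, a ≤ r ∧ ((0 ≤ q ∧ v = q + a) ∨ (q ≤ 0 ∧ v = q - a)) ∧
    Cand qs xs (r - a)
  | _, _, _ => False

theorem stepH_sound (v : ℤ) (xs : List ℤ) : ∀ H : List (ℕ × List ℤ),
    (∀ h ∈ H, lov (v :: xs) h.2 ≤ h.1) →
    ∃ H', stepH v H = some H' ∧ ∀ h ∈ H', lov xs h.2 ≤ h.1
  | [], _ => ⟨[], rfl, fun h hh => absurd hh (List.not_mem_nil)⟩
  | (sl, []) :: H, hH => by
    obtain ⟨H', h1, h2⟩ := stepH_sound v xs H (fun h hh => hH h (List.mem_cons_of_mem _ hh))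
    refine ⟨(sl, []) :: H', ?_, ?_⟩
    · simp only [stepH, h1]
    · intro h hh
      rcases List.mem_cons.1 hh with rfl | hh
      · cases xs <;> simp [lov]
      · exact h2 h hh
  | (sl, y :: ys) :: H, hH => by
    obtain ⟨H', h1, h2⟩ := stepH_sound v xs H (fun h hh => hH h (List.mem_cons_of_mem _ hh))
    have h3 := hH (sl, y :: ys) List.mem_cons_self
    simp only [lov] at h3
    rw [← ovf_eq] at h3
    refine ⟨(sl - ovf v y, ys) :: H', ?_, ?_⟩
    · simp only [stepH, h1]
      rw [if_pos (by omega)]
    · intro h hh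
      rcases List.mem_cons.1 hh with rfl | hh
      · simp only
        omega
      · exact h2 h hh

theorem mem_enum : ∀ (Q : List ℤ) (x : List ℤ) (r : ℕ) (H : List (ℕ × List ℤ)),
    Cand Q x r → (∀ h ∈ H, lov x h.2 ≤ h.1) → x ∈ enum Q r H
  | [], [], r, H, hc, _ => by
    simp only [Cand] at hc
    simp [enum, hc]
  | [], v :: xs, r, H, hc, _ => by
    simp only [Cand] at hc
  | q :: qs, [], r, H, hc, _ => by
    simp only [Cand] at hc
  | [q], v :: xs, r, H, hc, hH => by
    simp only [Cand] at hc
    obtain ⟨a, ha, hv, hc⟩ := hc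
    cases xs with
    | cons x xs => simp only [Cand] at hc
    | nil =>
      simp only [Cand] at hc
      obtain ⟨H', h1, -⟩ := stepH_sound v [] H hH
      have har : a = r := by omega
      subst har
      simp only [enum]
      rw [List.mem_filterMap]
      refine ⟨v, ?_, by rw [h1]⟩
      unfold optsL
      split_ifs with h2 h3 h4
      · rw [List.mem_singleton]
        omega
      · rw [List.mem_singleton]
        omega
      · rw [List.mem_singleton]
        omega
      · simp only [List.mem_cons, List.not_mem_nil, or_false]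
        omega
  | q :: q' :: qs, v :: xs, r, H, hc, hH => by
    rw [Cand] at hc
    obtain ⟨a, ha, hv, hc⟩ := hc
    obtain ⟨H', h1, h2⟩ := stepH_sound v xs H hH
    have h3 := mem_enum (q' :: qs) xs (r - a) H' hc h2
    simp only [enum]
    rw [List.mem_flatMap]
    refine ⟨(v, r - a), ?_, ?_⟩
    · unfold opts
      split_ifs with h4 h5
      · rw [List.mem_map]
        refine ⟨a, List.mem_range.2 (by omega), ?_⟩
        rw [Prod.mk.injEq]
        exact ⟨by omega, rfl⟩
      · rw [List.mem_map]
        refine ⟨a, List.mem_range.2 (by omega), ?_⟩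
        rw [Prod.mk.injEq]
        exact ⟨by omega, rfl⟩
      · rw [List.mem_append, List.mem_map, List.mem_map]
        rcases hv with hv | hv
        · left
          refine ⟨a, List.mem_range.2 (by omega), ?_⟩
          rw [Prod.mk.injEq]
          exact ⟨by omega, rfl⟩
        · rcases Nat.eq_zero_or_pos a with h0 | h0
          · left
            refine ⟨a, List.mem_range.2 (by omega), ?_⟩
            rw [Prod.mk.injEq]
            exact ⟨by omega, rfl⟩
          · right
            refine ⟨a - 1, List.mem_range.2 (by omega), ?_⟩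
            rw [Prod.mk.injEq]
            exact ⟨by omega, by omega⟩
    · simp only [h1]
      rw [List.mem_map]
      exact ⟨xs, h3, rfl⟩

theorem enum_length : ∀ (Q : List ℤ) (r : ℕ) (H : List (ℕ × List ℤ)) (x : List ℤ),
    x ∈ enum Q r H → x.length = Q.length
  | [], r, H, x, hx => by
    simp only [enum] at hx
    split_ifs at hx
    · rw [List.mem_singleton.1 hx]
    · exact absurd hx List.not_mem_nil
  | [q], r, H, x, hx => by
    simp only [enum] at hx
    rw [List.mem_filterMap] at hx
    obtain ⟨v, -, hv⟩ := hx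
    split at hv
    · simp at hv
    · simp only [Option.some.injEq] at hv
      rw [← hv]
      rfl
  | q :: q' :: qs, r, H, x, hx => by
    simp only [enum] at hx
    rw [List.mem_flatMap] at hx
    obtain ⟨p, -, hp⟩ := hx
    split at hp
    · exact absurd hp List.not_mem_nil
    · rw [List.mem_map] at hp
      obtain ⟨l, hl, rfl⟩ := hp
      have := enum_length (q' :: qs) p.2 _ l hl
      simp only [List.length_cons] at this ⊢
      omega

/-! ### lists and vectors -/

theorem toV_zero_cons (m : ℕ) (x : ℤ) (l : List ℤ) : toV (m + 1) (x :: l) 0 = x := rfl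

theorem toV_succ (m : ℕ) (x : ℤ) (l : List ℤ) (i : Fin m) :
    toV (m + 1) (x :: l) i.succ = toV m l i := rfl

theorem nrm_toV : ∀ (m : ℕ) (l : List ℤ), l.length = m → nrm (toV m l) = ln l
  | 0, [], _ => rfl
  | m + 1, x :: l, h => by
    have h1 := nrm_toV m l (by simpa using h)
    unfold nrm at h1 ⊢
    rw [Fin.sum_univ_succ, ln, ← h1]
    rfl

theorem toV_zipWith (f : ℤ → ℤ → ℤ) : ∀ (m : ℕ) (x y : List ℤ), x.length = m → y.length = m →
    ∀ i, toV m (List.zipWith f x y) i = f (toV m x i) (toV m y i)
  | 0, _, _, _, _, i => i.elim0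
  | m + 1, x :: xs, y :: ys, hx, hy, i => by
    refine Fin.cases ?_ (fun i => ?_) i
    · rfl
    · exact toV_zipWith f m xs ys (by simpa using hx) (by simpa using hy) i

theorem toV_lsub (m : ℕ) (x y : List ℤ) (hx : x.length = m) (hy : y.length = m) :
    toV m (lsub x y) = toV m x - toV m y := by
  funext i
  exact toV_zipWith _ m x y hx hy i

theorem ov_toV : ∀ (m : ℕ) (x y : List ℤ), x.length = m → y.length = m →
    ov (toV m x) (toV m y) = lov x y
  | 0, [], [], _, _ => rfl
  | m + 1, x :: xs, y :: ys, hx, hy => by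
    have h1 := ov_toV m xs ys (by simpa using hx) (by simpa using hy)
    unfold ov at h1 ⊢
    rw [Fintype.sum_prod_type] at h1 ⊢
    rw [Fin.sum_univ_succ, lov, ← h1]
    congr 1

theorem toV_ofFn (m : ℕ) (x : Fin m → ℤ) : toV m (List.ofFn x) = x := by
  funext i
  unfold toV
  rw [List.getD_eq_getElem _ _ (by simp), List.getElem_ofFn]

theorem comb_length (m : ℕ) : ∀ (cs : List ℤ) (gs : List (List ℤ)), (∀ g ∈ gs, g.length = m) →
    (comb m cs gs).length = m
  | [], gs, _ => by simp [comb]
  | c :: cs, [], _ => by simp [comb]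
  | c :: cs, g :: gs, h => by
    have h1 := comb_length m cs gs (fun g hg => h g (List.mem_cons_of_mem _ hg))
    have h2 := h g List.mem_cons_self
    simp [comb, h1, h2]

variable {m s μ : ℕ} {L : Set (Fin m → ℤ)}

theorem Lat.neg_mem (hL : Lat m s μ L) {x : Fin m → ℤ} (hx : x ∈ L) : -x ∈ L := by
  have := hL.sub 0 hL.zero x hx
  rwa [zero_sub] at this

theorem Lat.add_mem (hL : Lat m s μ L) {x y : Fin m → ℤ} (hx : x ∈ L) (hy : y ∈ L) :
    x + y ∈ L := by
  have := hL.sub x hx (-y) (hL.neg_mem hy)
  rwa [sub_neg_eq_add] at this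

theorem Lat.nsmul_mem (hL : Lat m s μ L) {x : Fin m → ℤ} (hx : x ∈ L) (n : ℕ) : n • x ∈ L := by
  induction n with
  | zero =>
    rw [zero_smul]
    exact hL.zero
  | succ n ih =>
    rw [succ_nsmul]
    exact hL.add_mem ih hx

theorem Lat.zsmul_mem (hL : Lat m s μ L) {x : Fin m → ℤ} (hx : x ∈ L) (n : ℤ) : n • x ∈ L := by
  obtain ⟨k, rfl | rfl⟩ := n.eq_nat_or_neg
  · rw [natCast_zsmul]
    exact hL.nsmul_mem hx k
  · rw [neg_smul, natCast_zsmul]
    exact hL.neg_mem (hL.nsmul_mem hx k)

theorem comb_mem (hL : Lat m s μ L) : ∀ (cs : List ℤ) (gs : List (List ℤ)),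
    (∀ g ∈ gs, g.length = m) → (∀ g ∈ gs, toV m g ∈ L) → toV m (comb m cs gs) ∈ L
  | [], gs, _, _ => by
    have : toV m (comb m [] gs) = 0 := by
      funext i
      simp [comb, toV, List.getD_eq_getElem?_getD]
    rw [this]
    exact hL.zero
  | c :: cs, [], _, _ => by
    have : toV m (comb m (c :: cs) []) = 0 := by
      funext i
      simp [comb, toV, List.getD_eq_getElem?_getD]
    rw [this]
    exact hL.zero
  | c :: cs, g :: gs, h, h' => by
    have h1 := comb_mem hL cs gs (fun g hg => h g (List.mem_cons_of_mem _ hg))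
      (fun g hg => h' g (List.mem_cons_of_mem _ hg))
    have h2 := comb_length m cs gs (fun g hg => h g (List.mem_cons_of_mem _ hg))
    have h3 : toV m (comb m (c :: cs) (g :: gs)) = c • toV m g + toV m (comb m cs gs) := by
      funext i
      rw [comb, toV_zipWith _ m _ _ (h g List.mem_cons_self) h2]
      simp
    rw [h3]
    exact hL.add_mem (hL.zsmul_mem (h' g List.mem_cons_self) c) h1

end TightIndep
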