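import Pool.Agent.Lib.MP_f31b39_co.Chk

/-!
# Tight `t`-independent sets: soundness of the checker
-/

namespace TightIndep

variable {m s μ : ℕ} {L : Set (Fin m → ℤ)}

/-! ### signed permutations -/

/-- the action of a signed permutation -/
def act (π : Fin m → Fin m) (ε : Fin m → ℤ) (v : Fin m → ℤ) : Fin m → ℤ := fun i => ε i * v (π i)

theorem nrm_act (π : Fin m → Fin m) (hπ : Function.Bijective π) (ε : Fin m → ℤ)
    (hε : ∀ i, ε i = 1 ∨ ε i = -1) (v : Fin m → ℤ) : nrm (act π ε v) = nrm v := by
  unfold nrm act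
  rw [← Function.Bijective.sum_comp hπ (fun i => (v i).natAbs)]
  refine Finset.sum_congr rfl fun i _ => ?_
  rcases hε i with h | h <;> rw [h] <;> simp

theorem act_sub (π : Fin m → Fin m) (ε : Fin m → ℤ) (v w : Fin m → ℤ) :
    act π ε (v - w) = act π ε v - act π ε w := by
  funext i
  simp only [act, Pi.sub_apply]
  ring

theorem act_add (π : Fin m → Fin m) (ε : Fin m → ℤ) (v w : Fin m → ℤ) :
    act π ε (v + w) = act π ε v + act π ε w := by
  funext i
  simp only [act, Pi.add_apply]
  ring

theorem act_surj (π : Fin m → Fin m) (hπ : Function.Bijective π) (ε : Fin m → ℤ)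
    (hε : ∀ i, ε i = 1 ∨ ε i = -1) (w : Fin m → ℤ) : ∃ v, act π ε v = w := by
  obtain ⟨f, hf1, hf2⟩ := Function.bijective_iff_has_inverse.1 hπ
  refine ⟨fun j => ε (f j) * w (f j), ?_⟩
  funext i
  simp only [act]
  rw [hf1 i, ← mul_assoc]
  rcases hε i with h | h <;> rw [h] <;> simp

theorem lat_act (hL : Lat m s μ L) (π : Fin m → Fin m) (hπ : Function.Bijective π)
    (ε : Fin m → ℤ) (hε : ∀ i, ε i = 1 ∨ ε i = -1) :
    Lat m s μ {v | ∃ u ∈ L, v = act π ε u} := by
  refine ⟨hL.hs, hL.h1, hL.h2, ⟨0, hL.zero, ?_⟩, ?_, ?_, ?_⟩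
  · funext i
    simp [act]
  · rintro x ⟨u, hu, rfl⟩ y ⟨w, hw, rfl⟩
    exact ⟨u - w, hL.sub u hu w hw, (act_sub π ε u w).symm⟩
  · rintro x ⟨u, hu, rfl⟩ hx
    rw [nrm_act π hπ ε hε]
    apply hL.min u hu
    rintro rfl
    apply hx
    funext i
    simp [act]
  · intro Q d hQ
    obtain ⟨Q', rfl⟩ := act_surj π hπ ε hε Q
    -- the direction
    obtain ⟨d', hd'⟩ : ∃ d', act π ε (ud d') = ud d := by
      obtain ⟨i, b⟩ := d
      refine ⟨(π i, if ε i = 1 then b else !b), ?_⟩
      funext j
      simp only [act]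
      by_cases hj : j = i
      · subst hj
        have h1 := ud_self ((π j, if ε j = 1 then b else !b) : Fin m × Bool)
        have h2 := ud_self ((j, b) : Fin m × Bool)
        simp only at h1 h2
        rw [h1, h2]
        rcases hε j with h | h <;> rw [h] <;> cases b <;> simp
      · rw [ud_ne _ _ (fun h => hj (hπ.injective h)), ud_ne _ _ hj, mul_zero]
    obtain ⟨x, hx, hx2⟩ := hL.cov Q' d' (by
      rcases hQ with h | h
      · exact Or.inl h
      · right
        intro x hx
        have := h (act π ε x) ⟨x, hx, rfl⟩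
        rwa [← act_sub, nrm_act π hπ ε hε] at this)
    refine ⟨act π ε x, ⟨x, hx, rfl⟩, ?_⟩
    rwa [← hd', ← act_add, ← act_sub, nrm_act π hπ ε hε]

/-! ### the candidates -/

theorem exists_cand (hL : Lat m s μ L) (Q : Fin m → ℤ) (hQ : nrm Q + s = μ + 1) :
    ∃ x ∈ L, nrm x = μ ∧ nrm (x - Q) + 1 = s := by
  have hs := hL.hs
  have h1 := hL.h1
  have h2 := hL.h2
  by_cases hμ : μ = 2 * s
  · obtain ⟨d, hd⟩ : ∃ d, 1 ≤ comp Q d := by
      by_contra hcon
      push Not at hcon
      have : nrm Q = 0 := by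
        rw [nrm_eq]
        exact Finset.sum_eq_zero fun d _ => by have := hcon d; omega
      omega
    have h3 := nrm_sub_ud Q d
    obtain ⟨x, hx, hx2⟩ := hL.cov (Q - ud d) d (by
      right
      intro x hx
      by_cases h0 : x = 0
      · rw [h0, sub_zero]
        omega
      · have h4 := hL.min x hx h0
        have h5 : nrm (Q - ud d - (Q - ud d - x)) ≤ nrm (Q - ud d) + nrm (Q - ud d - x) :=
          nrm_sub_le _ _
        rw [sub_sub_cancel] at h5
        omega)
    rw [sub_add_cancel] at hx2
    have h0 : x ≠ 0 := by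
      rintro rfl
      rw [sub_zero] at hx2
      omega
    have h5 := hL.min x hx h0
    have h6 : nrm (Q - (Q - x)) ≤ nrm Q + nrm (Q - x) := nrm_sub_le _ _
    rw [sub_sub_cancel] at h6
    refine ⟨x, hx, by omega, ?_⟩
    rw [nrm_sub_comm]
    omega
  · obtain ⟨x, hx, hx1, hx2⟩ := getc hL Q (by omega)
    exact ⟨x, hx, hx1, by omega⟩

theorem cand_of : ∀ (m : ℕ) (Q x : List ℤ), Q.length = m → x.length = m →
    (∀ i, (toV m x i).natAbs = (toV m Q i).natAbs + (toV m x i - toV m Q i).natAbs) →
    Cand Q x (nrm (toV m x - toV m Q))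
  | 0, [], [], _, _, _ => rfl
  | m + 1, q :: qs, v :: xs, hQ, hx, h => by
    have h1 := cand_of m qs xs (by simpa using hQ) (by simpa using hx) (fun i => h i.succ)
    have h2 : nrm (toV (m + 1) (v :: xs) - toV (m + 1) (q :: qs)) =
        (v - q).natAbs + nrm (toV m xs - toV m qs) := by
      unfold nrm
      rw [Fin.sum_univ_succ]
      rfl
    have h3 : v.natAbs = q.natAbs + (v - q).natAbs := h 0
    rw [h2, Cand]
    refine ⟨(v - q).natAbs, Nat.le_add_right _ _, ?_, ?_⟩
    · omega
    · rw [Nat.add_sub_cancel_left]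
      exact h1

/-! ### the checker -/

/-- trees of lattice points -/
inductive Tr where
  | nil : Tr
  | leaf : List ℤ → Tr → Tr
  | node : List ℤ → List (List ℤ) → Tr → Tr → Tr
  | ref : ℕ → List ℕ → List ℤ → Tr → Tr
  | auto : ℕ → Tr → Tr

/-- the action of a signed permutation on lists -/
def lact (π : List ℕ) (ε : List ℤ) (v : List ℤ) : List ℤ :=
  List.zipWith (fun k e => e * v.getD k 0) π ε

/-- valid signed permutations -/
def lvalid (m : ℕ) (π : List ℕ) (ε : List ℤ) : Bool :=
  π.length == m && ε.length == m && π.all (fun k => decide (k < m)) && decide π.Nodup &&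
    ε.all (fun e => e == 1 || e == -1)

/-- the check of a reference to an earlier sibling -/
def refchk (m : ℕ) (gs : List (List ℤ)) (x : List ℤ) (π : List ℕ) (ε : List ℤ) (y : List ℤ) :
    Bool :=
  lvalid m π ε &&
    let im := (gs ++ [x]).map (lact π ε)
    (gs ++ [y]).all fun g => im.any fun w => w == g || w.map (fun a => -a) == g

/-- find a coordinate of a given absolute value -/
def pick (n : ℕ) (used : List ℕ) : List ℤ → ℕ → ℕ
  | [], k => k
  | a :: l, k => if a.natAbs == n && !(used.contains k) then k else pick n used l (k + 1)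

/-- the positions of the entries of `y` in `x` -/
def autoP (x : List ℤ) : List ℤ → List ℕ → List ℕ
  | [], _ => []
  | b :: y, used =>
    let k := pick b.natAbs used x 0
    k :: autoP x y (k :: used)

/-- the signs -/
def autoE (x : List ℤ) (π : List ℕ) (y : List ℤ) : List ℤ :=
  List.zipWith (fun k b => if x.getD k 0 == b then 1 else -1) π y

/-- the check of the hints -/
def hintchk (m s : ℕ) (gs : List (List ℤ)) (Q : List ℤ) (hs : List (List ℤ)) : Bool :=
  hs.all fun co => !(ln (lsub (comb m co gs) Q) + 1 == s)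

/-- the hints -/
def hints (m : ℕ) (gs : List (List ℤ)) (hs : List (List ℤ)) : List (ℕ × List ℤ) :=
  hs.map fun co => (ln (comb m co gs) / 2, comb m co gs)

/-- the checker -/
def chkT (m s μ : ℕ) : Tr → List (List ℤ) → List (List ℤ) → List (List ℤ) → Bool
  | .nil, _, sv, _ => sv.isEmpty
  | .leaf co nx, gs, sv, dn =>
    match sv with
    | [] => false
    | x :: sv => (decide (0 < ln (comb m co (gs ++ [x]))) &&
        decide (ln (comb m co (gs ++ [x])) < μ)) && chkT m s μ nx gs sv (dn ++ [x])
  | .node Q hs sub nx, gs, sv, dn =>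
    match sv with
    | [] => false
    | x :: sv => (Q.length == m && ln Q + s == μ + 1 && hintchk m s (gs ++ [x]) Q hs &&
        chkT m s μ sub (gs ++ [x]) (enum Q (s - 1) (hints m (gs ++ [x]) hs)) []) &&
        chkT m s μ nx gs sv (dn ++ [x])
  | .ref j π ε nx, gs, sv, dn =>
    match sv with
    | [] => false
    | x :: sv => (decide (j < dn.length) && refchk m gs x π ε (dn.getD j [])) &&
        chkT m s μ nx gs sv dn
  | .auto j nx, gs, sv, dn =>
    match sv with
    | [] => false
    | x :: sv => (decide (j < dn.length) && refchk m gs x (autoP x (dn.getD j []) [])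
        (autoE x (autoP x (dn.getD j []) []) (dn.getD j [])) (dn.getD j [])) &&
        chkT m s μ nx gs sv dn

/-- the check of a whole tree -/
def chkR (m s μ : ℕ) (Q : List ℤ) (T : Tr) : Bool :=
  Q.length == m && ln Q + s == μ + 1 && chkT m s μ T [] (enum Q (s - 1) []) []

/-- no lattice contains all these vectors -/
def NN (m s μ : ℕ) (gs : List (List ℤ)) : Prop :=
  ∀ L : Set (Fin m → ℤ), Lat m s μ L → (∀ g ∈ gs, toV m g ∈ L) → False

theorem node_sound (hL : Lat m s μ L) (gs : List (List ℤ)) (Q : List ℤ) (hs : List (List ℤ))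
    (hg1 : ∀ g ∈ gs, g.length = m) (hg2 : ∀ g ∈ gs, toV m g ∈ L) (hQ : Q.length = m)
    (hQ2 : ln Q + s = μ + 1) (hh : hintchk m s gs Q hs = true) :
    ∃ x ∈ enum Q (s - 1) (hints m gs hs), toV m x ∈ L := by
  obtain ⟨x, hx, hx1, hx2⟩ := exists_cand hL (toV m Q) (by rw [nrm_toV m Q hQ]; exact hQ2)
  obtain ⟨X, hX⟩ : ∃ X, X = List.ofFn x := ⟨_, rfl⟩
  have hXl : X.length = m := by rw [hX, List.length_ofFn]
  have hXx : toV m X = x := by rw [hX, toV_ofFn]
  refine ⟨X, ?_, by rw [hXx]; exact hx⟩
  have hcand : Cand Q X (s - 1) := by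
    have h1 := cand_of m Q X hQ hXl (by
      rw [hXx]
      have h3 : ∀ i ∈ Finset.univ, (x i).natAbs ≤ (toV m Q i).natAbs +
          (x i - toV m Q i).natAbs := by
        intro i _
        omega
      have h4 : ∑ i, (x i).natAbs = ∑ i, ((toV m Q i).natAbs + (x i - toV m Q i).natAbs) := by
        have h5 : nrm (toV m Q) = ln Q := nrm_toV m Q hQ
        rw [Finset.sum_add_distrib]
        unfold nrm at hx1 hx2 h5
        simp only [Pi.sub_apply] at hx2
        omega
      have h5 := (Finset.sum_eq_sum_iff_of_le h3).1 h4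
      intro i
      exact h5 i (Finset.mem_univ i))
    rw [hXx] at h1
    rwa [show nrm (x - toV m Q) = s - 1 by omega] at h1
  apply mem_enum Q X (s - 1) _ hcand
  intro h hh'
  unfold hints at hh'
  obtain ⟨co, hco, rfl⟩ := List.mem_map.1 hh'
  unfold hintchk at hh
  have h1 := List.all_eq_true.1 hh co hco
  simp only [Bool.not_eq_true', beq_eq_false_iff_ne, ne_eq] at h1
  have hyl := comb_length m co gs hg1
  have hyL := comb_mem hL co gs hg1 hg2
  obtain ⟨y, hy⟩ : ∃ y, y = comb m co gs := ⟨_, rfl⟩
  rw [← hy] at h1 hyl hyL ⊢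
  have hne : x ≠ toV m y := by
    intro h
    apply h1
    rw [← nrm_toV m (lsub y Q) (by unfold lsub; rw [List.length_zipWith]; omega),
      toV_lsub m y Q hyl hQ, ← h]
    exact hx2
  have h2 := hL.min _ (hL.sub x hx _ hyL) (sub_ne_zero.2 hne)
  have h3 := nrm_sub_ov x (toV m y)
  rw [← ov_toV m X y hXl hyl, hXx]
  rw [nrm_toV m y hyl] at h3
  simp only
  omega

theorem lact_toV (π : List ℕ) (ε : List ℤ) (hv : lvalid m π ε = true) :
    ∃ (π' : Fin m → Fin m) (ε' : Fin m → ℤ), Function.Bijective π' ∧
      (∀ i, ε' i = 1 ∨ ε' i = -1) ∧ ∀ v : List ℤ, v.length = m →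
        toV m (lact π ε v) = act π' ε' (toV m v) := by
  unfold lvalid at hv
  simp only [Bool.and_eq_true, beq_iff_eq, List.all_eq_true, decide_eq_true_eq,
    Bool.or_eq_true] at hv
  obtain ⟨⟨⟨⟨h1, h2⟩, h3⟩, h4⟩, h5⟩ := hv
  refine ⟨fun i => ⟨π.getD i.val 0, ?_⟩, fun i => ε.getD i.val 0, ?_, ?_, ?_⟩
  · rw [List.getD_eq_getElem _ _ (by omega)]
    exact h3 _ (List.getElem_mem _)
  · apply Finite.injective_iff_bijective.1
    intro i j hij
    simp only [Fin.mk.injEq] at hij
    rw [List.getD_eq_getElem _ _ (by omega), List.getD_eq_getElem _ _ (by omega)] at hij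
    exact Fin.ext ((List.Nodup.getElem_inj_iff h4).1 hij)
  · intro i
    show ε.getD i.val 0 = 1 ∨ ε.getD i.val 0 = -1
    rw [List.getD_eq_getElem _ _ (by omega)]
    exact h5 _ (List.getElem_mem _)
  · intro v hvl
    funext i
    have hi : i.val < (lact π ε v).length := by
      unfold lact
      rw [List.length_zipWith]
      omega
    unfold toV act
    rw [List.getD_eq_getElem _ _ hi]
    unfold lact
    rw [List.getElem_zipWith]
    simp only
    rw [List.getD_eq_getElem ε _ (by omega), List.getD_eq_getElem π _ (by omega)]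

theorem refchk_sound (gs : List (List ℤ)) (x y : List ℤ) (π : List ℕ) (ε : List ℤ)
    (hg : ∀ g ∈ gs, g.length = m) (hx : x.length = m)
    (hr : refchk m gs x π ε y = true) (hN : NN m s μ (gs ++ [y])) : NN m s μ (gs ++ [x]) := by
  unfold refchk at hr
  simp only [Bool.and_eq_true] at hr
  obtain ⟨hv, hr⟩ := hr
  obtain ⟨π', ε', hπ, hε, hact⟩ := lact_toV π ε hv
  intro L hL hgL
  have hL' := lat_act hL π' hπ ε' hε
  apply hN _ hL'
  intro g hgg
  have h1 := List.all_eq_true.1 hr g hgg
  rw [List.any_eq_true] at h1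
  obtain ⟨w, hw, hw2⟩ := h1
  obtain ⟨h, hh, rfl⟩ := List.mem_map.1 hw
  have hhl : h.length = m := by
    rcases List.mem_append.1 hh with h2 | h2
    · exact hg h h2
    · rw [List.mem_singleton.1 h2]
      exact hx
  simp only [Bool.or_eq_true, beq_iff_eq] at hw2
  have h3 : toV m (lact π ε h) ∈ {v | ∃ u ∈ L, v = act π' ε' u} := ⟨toV m h, hgL h hh, hact h hhl⟩
  rcases hw2 with h4 | h4
  · rw [← h4]
    exact h3
  · have h5 : toV m g = -toV m (lact π ε h) := by
      rw [← h4]
      funext i
      simp only [toV, Pi.neg_apply]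
      by_cases hi : i.val < (lact π ε h).length
      · rw [List.getD_eq_getElem _ _ (by rw [List.length_map]; exact hi),
          List.getD_eq_getElem _ _ hi, List.getElem_map]
      · rw [List.getD_eq_default _ _ (by rw [List.length_map]; omega),
          List.getD_eq_default _ _ (by omega), neg_zero]
    rw [h5]
    exact hL'.neg_mem h3

theorem chkT_sound : ∀ (T : Tr) (gs sv dn : List (List ℤ)), (∀ g ∈ gs, g.length = m) →
    (∀ x ∈ sv, x.length = m) → (∀ x ∈ dn, NN m s μ (gs ++ [x])) →
    chkT m s μ T gs sv dn = true → ∀ x ∈ sv, NN m s μ (gs ++ [x])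
  | .nil, gs, sv, dn, _, _, _, h => by
    intro x hx
    simp only [chkT, List.isEmpty_iff] at h
    rw [h] at hx
    exact absurd hx List.not_mem_nil
  | .leaf co nx, gs, [], dn, _, _, _, h => by
    simp only [chkT] at h
    exact absurd h Bool.false_ne_true
  | .leaf co nx, gs, x :: sv, dn, hg, hs, hd, h => by
    simp only [chkT, Bool.and_eq_true, decide_eq_true_eq] at h
    obtain ⟨⟨h1, h2⟩, h3⟩ := h
    have hgx : ∀ g ∈ gs ++ [x], g.length = m := by
      intro g hgg
      rcases List.mem_append.1 hgg with h4 | h4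
      · exact hg g h4
      · rw [List.mem_singleton.1 h4]
        exact hs x List.mem_cons_self
    have hN : NN m s μ (gs ++ [x]) := by
      intro L hL hgL
      have h4 := comb_mem hL co (gs ++ [x]) hgx hgL
      have h5 := nrm_toV m _ (comb_length m co (gs ++ [x]) hgx)
      have h6 := hL.min _ h4 (by
        intro h0
        rw [h0, nrm_zero] at h5
        omega)
      omega
    have hrec := chkT_sound nx gs sv (dn ++ [x]) hg
      (fun y hy => hs y (List.mem_cons_of_mem _ hy))
      (by
        intro y hy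
        rcases List.mem_append.1 hy with h4 | h4
        · exact hd y h4
        · rw [List.mem_singleton.1 h4]
          exact hN) h3
    intro y hy
    rcases List.mem_cons.1 hy with rfl | hy
    · exact hN
    · exact hrec y hy
  | .node Q hs' sub nx, gs, [], dn, _, _, _, h => by
    simp only [chkT] at h
    exact absurd h Bool.false_ne_true
  | .node Q hs' sub nx, gs, x :: sv, dn, hg, hs, hd, h => by
    simp only [chkT, Bool.and_eq_true, beq_iff_eq] at h
    obtain ⟨⟨⟨⟨hQ, hQ2⟩, hh⟩, hsub⟩, h3⟩ := h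
    have hgx : ∀ g ∈ gs ++ [x], g.length = m := by
      intro g hgg
      rcases List.mem_append.1 hgg with h4 | h4
      · exact hg g h4
      · rw [List.mem_singleton.1 h4]
        exact hs x List.mem_cons_self
    have hN : NN m s μ (gs ++ [x]) := by
      intro L hL hgL
      obtain ⟨z, hz, hzL⟩ := node_sound hL (gs ++ [x]) Q hs' hgx hgL hQ hQ2 hh
      have h4 := chkT_sound sub (gs ++ [x]) _ [] hgx
        (fun y hy => (enum_length Q _ _ y hy).trans hQ)
        (fun y hy => absurd hy List.not_mem_nil) hsub z hz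
      apply h4 L hL
      intro g hgg
      rcases List.mem_append.1 hgg with h5 | h5
      · exact hgL g h5
      · rw [List.mem_singleton.1 h5]
        exact hzL
    have hrec := chkT_sound nx gs sv (dn ++ [x]) hg
      (fun y hy => hs y (List.mem_cons_of_mem _ hy))
      (by
        intro y hy
        rcases List.mem_append.1 hy with h4 | h4
        · exact hd y h4
        · rw [List.mem_singleton.1 h4]
          exact hN) h3
    intro y hy
    rcases List.mem_cons.1 hy with rfl | hy
    · exact hN
    · exact hrec y hy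
  | .ref j π ε nx, gs, [], dn, _, _, _, h => by
    simp only [chkT] at h
    exact absurd h Bool.false_ne_true
  | .ref j π ε nx, gs, x :: sv, dn, hg, hs, hd, h => by
    simp only [chkT, Bool.and_eq_true, decide_eq_true_eq] at h
    obtain ⟨⟨h1, h2⟩, h3⟩ := h
    have hN : NN m s μ (gs ++ [x]) := by
      apply refchk_sound gs x (dn.getD j []) π ε hg (hs x List.mem_cons_self) h2
      apply hd
      rw [List.getD_eq_getElem _ _ h1]
      exact List.getElem_mem _
    have hrec := chkT_sound nx gs sv dn hg (fun y hy => hs y (List.mem_cons_of_mem _ hy)) hd h3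
    intro y hy
    rcases List.mem_cons.1 hy with rfl | hy
    · exact hN
    · exact hrec y hy
  | .auto j nx, gs, [], dn, _, _, _, h => by
    simp only [chkT] at h
    exact absurd h Bool.false_ne_true
  | .auto j nx, gs, x :: sv, dn, hg, hs, hd, h => by
    simp only [chkT, Bool.and_eq_true, decide_eq_true_eq] at h
    obtain ⟨⟨h1, h2⟩, h3⟩ := h
    have hN : NN m s μ (gs ++ [x]) := by
      apply refchk_sound gs x (dn.getD j []) _ _ hg (hs x List.mem_cons_self) h2
      apply hd
      rw [List.getD_eq_getElem _ _ h1]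
      exact List.getElem_mem _
    have hrec := chkT_sound nx gs sv dn hg (fun y hy => hs y (List.mem_cons_of_mem _ hy)) hd h3
    intro y hy
    rcases List.mem_cons.1 hy with rfl | hy
    · exact hN
    · exact hrec y hy

/-- the soundness of the checker -/
theorem chkR_sound (Q : List ℤ) (T : Tr) (h : chkR m s μ Q T = true) (hL : Lat m s μ L) :
    False := by
  unfold chkR at h
  simp only [Bool.and_eq_true, beq_iff_eq] at h
  obtain ⟨⟨hQ, hQ2⟩, hT⟩ := h
  obtain ⟨z, hz, hzL⟩ := node_sound hL [] Q [] (fun g hg => absurd hg List.not_mem_nil)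
    (fun g hg => absurd hg List.not_mem_nil) hQ hQ2 rfl
  have h4 := chkT_sound T [] _ [] (fun g hg => absurd hg List.not_mem_nil)
    (fun y hy => (enum_length Q _ _ y hy).trans hQ)
    (fun y hy => absurd hy List.not_mem_nil) hT z hz
  apply h4 L hL
  intro g hg
  rw [List.nil_append, List.mem_singleton] at hg
  rw [hg]
  exact hzL

end TightIndep
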