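import Pool.Agent.Lib.MP_f31b39_co.Lat

/-!
# Tight `t`-independent sets: the clique inequality
-/

namespace TightIndep

/-- the counting lemma -/
theorem counting {ι δ : Type} [DecidableEq ι] [DecidableEq δ] (K : Finset ι) (R : Finset δ)
    (s : ℕ) (W : ι → δ → δ → ℕ)
    (h1 : ∀ a ∈ K, ∀ d ∈ R, ∑ e ∈ R, W a d e = s)
    (h2 : ∀ a ∈ K, ∀ d ∈ R, 1 ≤ W a d d)
    (h3 : ∀ a ∈ K, ∀ d ∈ R, ∀ d' ∈ R, W a d ≠ W a d' → ∀ e, W a d e = 0 ∨ W a d' e = 0)
    (h4 : ∀ a ∈ K, ∀ b ∈ K, a ≠ b → ∀ d ∈ R, ∀ d' ∈ R,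
      ∑ e ∈ R, min (W a d e) (W b d' e) ≤ 1)
    (hR : R.Nonempty) (hk : 2 ≤ K.card) :
    s ^ 2 * K.card ^ 2 ≤ R.card * (s + K.card - 1) ^ 2 := by
  classical
  obtain ⟨r, hr⟩ : ∃ r : ι → ℕ, r = fun a => (R.image (W a)).card := ⟨_, rfl⟩
  have hf : ∀ a ∈ K, ∑ e ∈ R, W a e e = s * r a := by
    intro a ha
    have e1 : ∑ v ∈ R.image (W a), ∑ e ∈ R, v e = r a * s := by
      rw [Finset.sum_congr rfl (g := fun _ => s)]
      · rw [Finset.sum_const, smul_eq_mul, hr]
      · intro v hv
        obtain ⟨d, hd, rfl⟩ := Finset.mem_image.1 hv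
        exact h1 a ha d hd
    rw [Finset.sum_comm] at e1
    rw [mul_comm, ← e1]
    refine Finset.sum_congr rfl fun e he => ?_
    rw [Finset.sum_eq_single (W a e)]
    · intro v hv hne
      obtain ⟨d, hd, rfl⟩ := Finset.mem_image.1 hv
      rcases h3 a ha d hd e he hne e with h | h
      · exact h
      · have := h2 a ha e he
        omega
    · intro h
      exact absurd (Finset.mem_image_of_mem _ he) h
  have hrr : ∀ a ∈ K, ∀ b ∈ K, a ≠ b → R.card ≤ r a * r b := by
    intro a ha b hb hab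
    rw [hr]
    dsimp only
    rw [← Finset.card_product]
    apply Finset.card_le_card_of_injOn (fun d => (W a d, W b d))
    · intro d hd
      exact Finset.mem_coe.2 (Finset.mem_product.2
        ⟨Finset.mem_image_of_mem _ hd, Finset.mem_image_of_mem _ hd⟩)
    · intro d hd d' hd' heq
      by_contra hne
      simp only [Prod.mk.injEq] at heq
      have h5 := h4 a ha b hb hab d hd d hd
      have h6 : ∑ e ∈ ({d, d'} : Finset δ), min (W a d e) (W b d e) ≤
          ∑ e ∈ R, min (W a d e) (W b d e) :=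
        Finset.sum_le_sum_of_subset (by
          intro x hx
          simp only [Finset.mem_insert, Finset.mem_singleton] at hx
          rcases hx with rfl | rfl
          · exact hd
          · exact hd')
      rw [Finset.sum_pair hne] at h6
      have h7 := h2 a ha d hd
      have h8 := h2 b hb d hd
      have h9 := h2 a ha d' hd'
      have h10 := h2 b hb d' hd'
      rw [← heq.1] at h9
      rw [← heq.2] at h10
      omega
  have hcol : ∀ e ∈ R, ∑ a ∈ K, W a e e ≤ s + K.card - 1 := by
    intro e he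
    rcases K.eq_empty_or_nonempty with h0 | h0
    · rw [h0, Finset.sum_empty]
      exact Nat.zero_le _
    · obtain ⟨a, ha, hmax⟩ := Finset.exists_max_image K (fun a => W a e e) h0
      rw [← Finset.add_sum_erase _ _ ha]
      have h5 : W a e e ≤ s := by
        rw [← h1 a ha e he]
        exact Finset.single_le_sum (f := fun x => W a e x) (fun _ _ => Nat.zero_le _) he
      have h6 : ∑ x ∈ K.erase a, W x e e ≤ (K.erase a).card * 1 := by
        apply Finset.sum_le_card_nsmul
        intro b hb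
        obtain ⟨hba, hb⟩ := Finset.mem_erase.1 hb
        have h7 := h4 a ha b hb (Ne.symm hba) e he e he
        have h8 : min (W a e e) (W b e e) ≤ ∑ x ∈ R, min (W a e x) (W b e x) :=
          Finset.single_le_sum (f := fun x => min (W a e x) (W b e x))
            (fun _ _ => Nat.zero_le _) he
        have h9 := hmax b hb
        omega
      rw [Finset.card_erase_of_mem ha] at h6
      have h10 := Finset.card_pos.2 h0
      omega
  have hS : s * ∑ a ∈ K, r a ≤ R.card * (s + K.card - 1) := by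
    rw [Finset.mul_sum, ← Finset.sum_congr rfl hf, Finset.sum_comm]
    exact Finset.sum_le_card_nsmul _ _ _ hcol
  have hS2 : ∑ a ∈ K, r a ^ 2 + K.card * ((K.card - 1) * R.card) ≤ (∑ a ∈ K, r a) ^ 2 := by
    rw [sq (∑ a ∈ K, r a), Finset.sum_mul_sum]
    have h5 : ∑ a ∈ K, (r a ^ 2 + (K.card - 1) * R.card) ≤ ∑ a ∈ K, ∑ b ∈ K, r a * r b := by
      refine Finset.sum_le_sum fun a ha => ?_
      rw [← Finset.add_sum_erase _ _ ha, sq]
      refine Nat.add_le_add_left ?_ _
      rw [← Finset.card_erase_of_mem ha]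
      apply Finset.card_nsmul_le_sum
      intro b hb
      obtain ⟨hba, hb⟩ := Finset.mem_erase.1 hb
      exact hrr a ha b hb (Ne.symm hba)
    rwa [Finset.sum_add_distrib, Finset.sum_const, smul_eq_mul] at h5
  have hS3 : (∑ a ∈ K, r a) ^ 2 ≤ K.card * ∑ a ∈ K, r a ^ 2 := sq_sum_le_card_mul_sum_sq
  obtain ⟨n, hn⟩ : ∃ n, K.card = n + 2 := ⟨K.card - 2, by omega⟩
  have hpos := Finset.card_pos.2 hR
  rw [hn] at hS hS2 hS3 ⊢
  have hS4 : (n + 2) ^ 2 * R.card ≤ (∑ a ∈ K, r a) ^ 2 := by
    have h5 : (n + 1) * ((n + 2) ^ 2 * R.card) ≤ (n + 1) * (∑ a ∈ K, r a) ^ 2 := by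
      have h6 := Nat.mul_le_mul_left (n + 2) hS2
      rw [show n + 2 - 1 = n + 1 by omega] at h6
      nlinarith
    exact Nat.le_of_mul_le_mul_left h5 (by omega)
  have h5 := Nat.mul_le_mul hS hS
  have h6 := Nat.mul_le_mul_left (s ^ 2) hS4
  have h7 : R.card * (s ^ 2 * (n + 2) ^ 2) ≤
      R.card * (R.card * (s + (n + 2) - 1) ^ 2) := by
    calc R.card * (s ^ 2 * (n + 2) ^ 2)
        = s ^ 2 * ((n + 2) ^ 2 * R.card) := by ring
      _ ≤ s ^ 2 * (∑ a ∈ K, r a) ^ 2 := h6
      _ = (s * ∑ a ∈ K, r a) * (s * ∑ a ∈ K, r a) := by ring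
      _ ≤ (R.card * (s + (n + 2) - 1)) * (R.card * (s + (n + 2) - 1)) := h5
      _ = R.card * (R.card * (s + (n + 2) - 1) ^ 2) := by ring
  exact Nat.le_of_mul_le_mul_left h7 hpos

variable {m s μ : ℕ} {L : Set (Fin m → ℤ)}

theorem comp_congr {v v' : Fin m → ℤ} {d : Fin m × Bool} (h : v d.1 = v' d.1) :
    comp v d = comp v' d := by
  unfold comp
  rw [h]

theorem nrm_sub_ud (v : Fin m → ℤ) (d : Fin m × Bool) :
    nrm (v - ud d) + 2 * min (comp v d) 1 = nrm v + 1 := by
  have := nrm_sub_ov v (ud d)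
  rw [ov_ud, nrm_ud] at this
  exact this

/-- every vector of norm `s` lies on a geodesic from `0` to a vector of `L` of norm `μ` -/
theorem getc (hL : Lat m s μ L) (Q : Fin m → ℤ) (hQ : nrm Q = s) :
    ∃ c ∈ L, nrm c = μ ∧ nrm (c - Q) + s = μ := by
  have hs := hL.hs
  have h1 := hL.h1
  have h2 := hL.h2
  -- a direction
  obtain ⟨d, hd⟩ : ∃ d, 1 ≤ comp Q d := by
    by_contra hcon
    push Not at hcon
    have : nrm Q = 0 := by
      rw [nrm_eq]
      exact Finset.sum_eq_zero fun d _ => by have := hcon d; omega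
    omega
  by_cases hμ : μ = 2 * s
  · have hall : ∀ x ∈ L, s ≤ nrm (Q - x) := by
      intro x hx
      by_cases h0 : x = 0
      · rw [h0, sub_zero, hQ]
      · have h3 := hL.min x hx h0
        have h4 : nrm (Q - (Q - x)) ≤ nrm Q + nrm (Q - x) := nrm_sub_le _ _
        rw [sub_sub_cancel] at h4
        omega
    obtain ⟨x, hx, hx2⟩ := hL.cov Q d (Or.inr hall)
    have h3 := hall x hx
    have h4 : nrm (Q + ud d - x - ud d) ≤ nrm (Q + ud d - x) + nrm (ud d) := nrm_sub_le _ _
    rw [show Q + ud d - x - ud d = Q - x by abel, nrm_ud] at h4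
    have h0 : x ≠ 0 := by
      rintro rfl
      have h5 := nrm_sub_ud (Q + ud d) d
      rw [add_sub_cancel_right] at h5
      rw [sub_zero] at hx2
      have h6 : 1 ≤ comp (Q + ud d) d := by
        unfold comp at hd ⊢
        rw [Pi.add_apply]
        rcases d with ⟨i, b⟩
        cases b
        · simp only [Bool.false_eq_true, if_false] at hd ⊢
          have : ud ((i, false) : Fin m × Bool) i = -1 := by simp [ud]
          rw [this]
          omega
        · simp only [if_true] at hd ⊢
          have : ud ((i, true) : Fin m × Bool) i = 1 := by simp [ud]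
          rw [this]
          omega
      omega
    have h5 := hL.min x hx h0
    have h6 : nrm (Q - (Q - x)) ≤ nrm Q + nrm (Q - x) := nrm_sub_le _ _
    rw [sub_sub_cancel] at h6
    refine ⟨x, hx, by omega, ?_⟩
    rw [nrm_sub_comm]
    omega
  · obtain ⟨x, hx, hx2⟩ := hL.cov (Q - ud d) d (Or.inl (by omega))
    rw [sub_add_cancel] at hx2
    have h0 : x ≠ 0 := by
      rintro rfl
      rw [sub_zero] at hx2
      omega
    have h5 := hL.min x hx h0
    have h6 : nrm (Q - (Q - x)) ≤ nrm Q + nrm (Q - x) := nrm_sub_le _ _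
    rw [sub_sub_cancel] at h6
    refine ⟨x, hx, by omega, ?_⟩
    rw [nrm_sub_comm]
    omega

/-- the neighbours of a point `Q` at distance `s` from `0` -/
theorem lemA (hL : Lat m s μ L) (c Q : Fin m → ℤ) (hc : c ∈ L) (hQ : nrm Q = s)
    (hcQ : nrm (c - Q) + s = μ) (d : Fin m × Bool) (h1 : comp (-Q) d = 0)
    (h2 : comp (c - Q) d = 0) :
    ∃ w, nrm w = s ∧ Q + w ∈ L ∧ 1 ≤ comp w d ∧ ov w (-Q) = 0 ∧ ov w (c - Q) = 0 := by
  have hs := hL.hs
  have hm1 := hL.h1
  have hm2 := hL.h2
  obtain ⟨x, hx, hx2⟩ : ∃ x ∈ L, nrm (Q + ud d - x) + 1 ≤ s := by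
    apply hL.cov Q d
    by_cases hμ : μ = 2 * s
    · right
      intro x hx
      by_cases h0 : x = 0
      · rw [h0, sub_zero, hQ]
      · have h3 := hL.min x hx h0
        have h4 : nrm (Q - (Q - x)) ≤ nrm Q + nrm (Q - x) := nrm_sub_le _ _
        rw [sub_sub_cancel] at h4
        omega
    · left
      omega
  obtain ⟨w, hw⟩ : ∃ w, w = x - Q := ⟨_, rfl⟩
  have hxw : x = Q + w := by rw [hw]; abel
  have h3 : nrm (w - ud d) + 1 ≤ s := by
    rw [nrm_sub_comm, hw, show ud d - (x - Q) = Q + ud d - x by abel]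
    exact hx2
  have h4 := nrm_sub_ud w d
  have hx0 : x ≠ 0 := by
    rintro rfl
    rw [zero_sub] at hw
    rw [hw, h1, nrm_neg, hQ] at h4
    rw [hw] at h3
    omega
  have hxc : x ≠ c := by
    rintro rfl
    rw [← hw] at h2 hcQ
    rw [h2] at h4
    omega
  have h5 := hL.min x hx hx0
  have h6 := hL.min (x - c) (hL.sub _ hx _ hc) (sub_ne_zero.2 hxc)
  have h7 := nrm_sub_ov w (-Q)
  rw [show w - -Q = x by rw [hxw]; abel, nrm_neg] at h7
  have h8 := nrm_sub_ov w (c - Q)
  rw [show w - (c - Q) = x - c by rw [hxw]; abel] at h8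
  have h9 : min (comp w d) 1 ≤ 1 := min_le_right _ _
  have h10 : min (comp w d) 1 ≤ comp w d := min_le_left _ _
  refine ⟨w, by omega, hxw ▸ hx, by omega, by omega, by omega⟩

/-- the clique inequality -/
theorem clique (hL : Lat m s μ L) (c P : Fin m → ℤ) (hc : c ∈ L) (hP : nrm P + 1 = s)
    (hcP : nrm (c - P) + s = μ + 1) (K : Finset (Fin m))
    (hK : ∀ b ∈ K, 1 ≤ P b ∧ P b + 2 ≤ c b) (R : Finset (Fin m × Bool))
    (hR : ∀ d, d ∈ R ↔ d.1 ∉ K ∧ comp (-P) d = 0 ∧ comp (c - P) d = 0) (hR0 : R.Nonempty)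
    (hk : 2 ≤ K.card) :
    s ^ 2 * K.card ^ 2 ≤ R.card * (s + K.card - 1) ^ 2 := by
  classical
  have hs := hL.hs
  have hm1 := hL.h1
  have hm2 := hL.h2
  have hud1 : ∀ a : Fin m, ud ((a, true) : Fin m × Bool) a = 1 := fun a => by simp [ud]
  have hud0 : ∀ a b : Fin m, b ≠ a → ud ((a, true) : Fin m × Bool) b = 0 := fun a b h => by
    simp [ud, h]
  -- norms
  have hQ : ∀ a ∈ K, nrm (P + ud (a, true)) = s := by
    intro a ha
    have h1 := nrm_sub_ud (P + ud (a, true)) (a, true)
    rw [add_sub_cancel_right] at h1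
    have h2 : 1 ≤ comp (P + ud (a, true)) (a, true) := by
      unfold comp
      have := (hK a ha).1
      simp only [if_true, Pi.add_apply, hud1]
      omega
    omega
  have hcQ : ∀ a ∈ K, nrm (c - (P + ud (a, true))) + s = μ := by
    intro a ha
    have h1 := nrm_sub_ud (c - P) (a, true)
    rw [sub_sub] at h1
    have h2 : 1 ≤ comp (c - P) (a, true) := by
      unfold comp
      have := (hK a ha).2
      simp only [if_true, Pi.sub_apply]
      omega
    omega
  have hex : ∀ a ∈ K, ∀ d ∈ R, ∃ w, nrm w = s ∧ P + ud (a, true) + w ∈ L ∧ 1 ≤ comp w d ∧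
      ov w (-(P + ud (a, true))) = 0 ∧ ov w (c - (P + ud (a, true))) = 0 := by
    intro a ha d hd
    obtain ⟨h1, h2, h3⟩ := (hR d).1 hd
    have hne : d.1 ≠ a := fun h => h1 (h ▸ ha)
    apply lemA hL c _ hc (hQ a ha) (hcQ a ha) d
    · rw [← h2]
      apply comp_congr
      rw [Pi.neg_apply, Pi.neg_apply, Pi.add_apply, hud0 a d.1 hne, add_zero]
    · rw [← h3]
      apply comp_congr
      rw [Pi.sub_apply, Pi.sub_apply, Pi.add_apply, hud0 a d.1 hne, add_zero]
  choose! w hw1 hw2 hw3 hw4 hw5 using hex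
  -- the support
  have hsup : ∀ a ∈ K, ∀ d ∈ R, ∀ e, e ∉ R → comp (w a d) e = 0 := by
    intro a ha d hd e he
    have h4 := min_le_ov (w a d) (-(P + ud (a, true))) e
    have h5 := min_le_ov (w a d) (c - (P + ud (a, true))) e
    rw [hw4 a ha d hd] at h4
    rw [hw5 a ha d hd] at h5
    have hor : 1 ≤ comp (-(P + ud (a, true))) e ∨ 1 ≤ comp (c - (P + ud (a, true))) e := by
      by_cases h1 : e.1 ∈ K
      · obtain ⟨i, b⟩ := e
        have h2 := hK i h1
        have h3 : ud ((a, true) : Fin m × Bool) i = 0 ∨ ud ((a, true) : Fin m × Bool) i = 1 := by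
          by_cases hi : i = a
          · right
            rw [hi, hud1]
          · left
            exact hud0 a i hi
        cases b
        · left
          simp only [comp, Bool.false_eq_true, if_false, Pi.neg_apply, Pi.add_apply]
          omega
        · right
          simp only [comp, if_true, Pi.sub_apply, Pi.add_apply]
          omega
      · have hne : e.1 ≠ a := fun h => h1 (h ▸ ha)
        have h2 : comp (-(P + ud (a, true))) e = comp (-P) e := by
          apply comp_congr
          rw [Pi.neg_apply, Pi.neg_apply, Pi.add_apply, hud0 a e.1 hne, add_zero]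
        have h3 : comp (c - (P + ud (a, true))) e = comp (c - P) e := by
          apply comp_congr
          rw [Pi.sub_apply, Pi.sub_apply, Pi.add_apply, hud0 a e.1 hne, add_zero]
        rw [h2, h3]
        by_contra hcon
        apply he
        rw [hR]
        exact ⟨h1, by omega, by omega⟩
    omega
  have hzero : ∀ a ∈ K, ∀ d ∈ R, ∀ b ∈ K, w a d b = 0 := by
    intro a ha d hd b hb
    have h1 := hsup a ha d hd (b, true) (fun h => ((hR _).1 h).1 hb)
    have h2 := hsup a ha d hd (b, false) (fun h => ((hR _).1 h).1 hb)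
    simp only [comp, Bool.false_eq_true, if_false, if_true] at h1 h2
    omega
  apply counting K R s (fun a d e => comp (w a d) e)
  · intro a ha d hd
    rw [← hw1 a ha d hd, nrm_eq]
    exact Finset.sum_subset (Finset.subset_univ R) fun e _ he => hsup a ha d hd e he
  · exact fun a ha d hd => hw3 a ha d hd
  · intro a ha d hd d' hd' hne e
    have hne' : w a d ≠ w a d' := fun h => hne (by rw [h])
    have h1 : w a d - w a d' ∈ L := by
      have := hL.sub _ (hw2 a ha d hd) _ (hw2 a ha d' hd')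
      rwa [add_sub_add_left_eq_sub] at this
    have h2 := hL.min _ h1 (sub_ne_zero.2 hne')
    have h3 := nrm_sub_ov (w a d) (w a d')
    rw [hw1 a ha d hd, hw1 a ha d' hd'] at h3
    have h4 := min_le_ov (w a d) (w a d') e
    omega
  · intro a ha b hb hab d hd d' hd'
    have h1 : (P + ud (a, true) + w a d) - (P + ud (b, true) + w b d') ∈ L :=
      hL.sub _ (hw2 a ha d hd) _ (hw2 b hb d' hd')
    have h2 : (P + ud (a, true) + w a d) - (P + ud (b, true) + w b d') ≠ 0 := by
      intro h
      have h3 := congrFun h a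
      simp only [Pi.sub_apply, Pi.add_apply, Pi.zero_apply, hud1, hud0 b a hab,
        hzero a ha d hd a ha, hzero b hb d' hd' a ha] at h3
      omega
    have h3 := hL.min _ h1 h2
    have h4 : nrm ((P + ud (a, true) + w a d) - (P + ud (b, true) + w b d')) ≤
        nrm (w a d - w b d') + nrm (ud (a, true) - ud (b, true)) := by
      rw [show (P + ud (a, true) + w a d) - (P + ud (b, true) + w b d') =
        (w a d - w b d') + (ud (a, true) - ud (b, true)) by abel]
      exact nrm_add_le _ _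
    have h5 : nrm (ud (a, true) - ud (b, true)) ≤ nrm (ud (a, true)) + nrm (ud (b, true)) :=
      nrm_sub_le _ _
    rw [nrm_ud, nrm_ud] at h5
    have h6 := nrm_sub_ov (w a d) (w b d')
    rw [hw1 a ha d hd, hw1 b hb d' hd'] at h6
    have h7 : ∑ e ∈ R, min (comp (w a d) e) (comp (w b d') e) ≤ ov (w a d) (w b d') :=
      Finset.sum_le_sum_of_subset (Finset.subset_univ R)
    omega
  · exact hR0
  · exact hk

end TightIndep
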