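import Pool.Agent.Lib.MP_f31b39_co.Defs

/-!
# Tight `t`-independent sets: the numbers of points of balls and double balls
-/

namespace TightIndep

/-- the norm `∑ |v_i|` -/
def nrm {m : ℕ} (v : Fin m → ℤ) : ℕ := ∑ i, (v i).natAbs

/-- the unit vector in the direction `d` -/
def ud {m : ℕ} (d : Fin m × Bool) : Fin m → ℤ := Pi.single d.1 (if d.2 then 1 else -1)

/-- the ball of radius `e` -/
noncomputable def ball (m e : ℕ) : Finset (Fin m → ℤ) :=
  (Fintype.piFinset fun _ => Finset.Icc (-(e : ℤ)) e).filter fun v => nrm v ≤ e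

theorem natAbs_le_nrm {m : ℕ} (v : Fin m → ℤ) (i : Fin m) : (v i).natAbs ≤ nrm v :=
  Finset.single_le_sum (f := fun i => (v i).natAbs) (fun _ _ => Nat.zero_le _) (Finset.mem_univ i)

theorem mem_ball {m e : ℕ} {v : Fin m → ℤ} : v ∈ ball m e ↔ nrm v ≤ e := by
  unfold ball
  rw [Finset.mem_filter, Fintype.mem_piFinset]
  refine ⟨fun h => h.2, fun h => ⟨fun i => ?_, h⟩⟩
  have := natAbs_le_nrm v i
  rw [Finset.mem_Icc]
  omega

/-- the number of points of a ball -/
def nb (m e : ℕ) : ℕ := ∑ i ∈ Finset.range (m + 1), m.choose i * e.choose i * 2 ^ i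

/-- the sum of the numbers of points of the balls of radius less than `e` -/
def sb (m e : ℕ) : ℕ := ∑ i ∈ Finset.range (m + 1), m.choose i * e.choose (i + 1) * 2 ^ i

theorem sum_nb (m e : ℕ) : ∑ j ∈ Finset.range e, nb m j = sb m e := by
  induction e with
  | zero => simp [sb]
  | succ e ih =>
    rw [Finset.sum_range_succ, ih]
    unfold sb nb
    rw [← Finset.sum_add_distrib]
    refine Finset.sum_congr rfl fun i _ => ?_
    rw [Nat.choose_succ_succ e i]
    ring

theorem nb_succ (m e : ℕ) : nb (m + 1) e = nb m e + 2 * sb m e := by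
  have h1 : nb (m + 1) e = 1 + ∑ j ∈ Finset.range (m + 1),
      (m + 1).choose (j + 1) * e.choose (j + 1) * 2 ^ (j + 1) := by
    unfold nb
    rw [Finset.sum_range_succ']
    simp [add_comm]
  have h2 : nb m e = 1 + ∑ j ∈ Finset.range (m + 1),
      m.choose (j + 1) * e.choose (j + 1) * 2 ^ (j + 1) := by
    rw [Finset.sum_range_succ, Nat.choose_succ_self]
    unfold nb
    rw [Finset.sum_range_succ']
    simp [add_comm]
  rw [h1, h2]
  unfold sb
  rw [Finset.mul_sum, add_assoc, ← Finset.sum_add_distrib]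
  congr 1
  refine Finset.sum_congr rfl fun i _ => ?_
  rw [Nat.choose_succ_succ m i]
  ring

theorem sum_Icc_natAbs (f : ℕ → ℕ) (e : ℕ) :
    ∑ x ∈ Finset.Icc (-(e : ℤ)) e, f x.natAbs = f 0 + 2 * ∑ j ∈ Finset.range e, f (j + 1) := by
  induction e with
  | zero => simp
  | succ e ih =>
    have h1 : Finset.Icc (-((e + 1 : ℕ) : ℤ)) ((e + 1 : ℕ) : ℤ) =
        insert (-((e + 1 : ℕ) : ℤ)) (insert ((e + 1 : ℕ) : ℤ) (Finset.Icc (-(e : ℤ)) e)) := by
      ext x
      simp only [Finset.mem_Icc, Finset.mem_insert]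
      omega
    rw [h1, Finset.sum_insert, Finset.sum_insert, ih, Finset.sum_range_succ]
    · have h2 : (-((e + 1 : ℕ) : ℤ)).natAbs = e + 1 := by omega
      have h3 : (((e + 1 : ℕ) : ℤ)).natAbs = e + 1 := by omega
      rw [h2, h3]
      ring
    · simp only [Finset.mem_Icc]
      omega
    · simp only [Finset.mem_Icc, Finset.mem_insert]
      omega

theorem nrm_insertNth {m : ℕ} (i : Fin (m + 1)) (x : ℤ) (w : Fin m → ℤ) :
    nrm (i.insertNth x w : Fin (m + 1) → ℤ) = x.natAbs + nrm w := by
  unfold nrm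
  rw [Fin.sum_univ_succAbove _ i]
  simp

theorem card_ball (m e : ℕ) : (ball m e).card = nb m e := by
  induction m generalizing e with
  | zero =>
    have h1 : ball 0 e = {0} := by
      ext v
      rw [mem_ball]
      simp [nrm, Subsingleton.elim v 0]
    rw [h1]
    simp [nb]
  | succ m ih =>
    have h1 : (ball (m + 1) e).card =
        ((Finset.Icc (-(e : ℤ)) e).sigma fun x => ball m (e - x.natAbs)).card := by
      refine (Finset.card_bij (fun p _ => ((0 : Fin (m + 1)).insertNth p.1 p.2 :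
        Fin (m + 1) → ℤ)) ?_ ?_ ?_).symm
      · rintro ⟨x, w⟩ h
        rw [Finset.mem_sigma, Finset.mem_Icc, mem_ball] at h
        rw [mem_ball, nrm_insertNth]
        simp only at h ⊢
        omega
      · rintro ⟨x, w⟩ _ ⟨x', w'⟩ _ h
        have h2 := congrArg (fun v : Fin (m + 1) → ℤ => v 0) h
        have h3 := congrArg (fun v : Fin (m + 1) → ℤ => (0 : Fin (m + 1)).removeNth v) h
        simp at h2 h3
        subst h2
        subst h3
        rfl
      · intro v hv
        rw [mem_ball] at hv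
        refine ⟨⟨v 0, (0 : Fin (m + 1)).removeNth v⟩, ?_, ?_⟩
        · have h3 := nrm_insertNth (0 : Fin (m + 1)) (v 0) ((0 : Fin (m + 1)).removeNth v)
          rw [Fin.insertNth_self_removeNth] at h3
          rw [Finset.mem_sigma, Finset.mem_Icc, mem_ball]
          simp only
          omega
        · exact Fin.insertNth_self_removeNth _ _
    rw [h1, Finset.card_sigma]
    have h2 : ∑ x ∈ Finset.Icc (-(e : ℤ)) e, (ball m (e - x.natAbs)).card =
        ∑ x ∈ Finset.Icc (-(e : ℤ)) e, nb m (e - x.natAbs) :=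
      Finset.sum_congr rfl fun x _ => ih _
    have h3 : ∑ j ∈ Finset.range e, nb m (e - (j + 1)) = ∑ j ∈ Finset.range e, nb m j := by
      rw [← Finset.sum_range_reflect (fun j => nb m j)]
      refine Finset.sum_congr rfl fun j _ => ?_
      congr 1
      omega
    rw [h2, sum_Icc_natAbs (fun j => nb m (e - j)) e, h3, nb_succ, ← sum_nb, Nat.sub_zero]

/-- the double ball -/
noncomputable def dball {m : ℕ} (s : ℕ) (d : Fin m × Bool) : Finset (Fin m → ℤ) :=
  (ball m s).filter fun v => nrm v + 1 ≤ s ∨ nrm (v + ud d) + 1 ≤ s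

theorem nrm_add_ud_insertNth {m : ℕ} (d : Fin (m + 1) × Bool) (x : ℤ) (w : Fin m → ℤ) :
    nrm ((d.1.insertNth x w : Fin (m + 1) → ℤ) + ud d) =
      (x + if d.2 then 1 else -1).natAbs + nrm w := by
  have h : (d.1.insertNth x w : Fin (m + 1) → ℤ) + ud d =
      (d.1.insertNth (x + if d.2 then 1 else -1) w : Fin (m + 1) → ℤ) := by
    funext i
    rcases Fin.eq_self_or_eq_succAbove d.1 i with h | ⟨j, h⟩
    · subst h
      simp [ud]
    · subst h
      simp [ud]
  rw [h, nrm_insertNth]

theorem mem_dball {m s : ℕ} {d : Fin m × Bool} {v : Fin m → ℤ} :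
    v ∈ dball s d ↔ nrm v + 1 ≤ s ∨ nrm (v + ud d) + 1 ≤ s := by
  unfold dball
  rw [Finset.mem_filter, mem_ball]
  refine ⟨fun h => h.2, fun h => ⟨?_, h⟩⟩
  rcases h with h | h
  · omega
  · rcases m with _ | m
    · exact d.1.elim0
    · have h1 := nrm_add_ud_insertNth d (v d.1) (d.1.removeNth v)
      have h2 := nrm_insertNth d.1 (v d.1) (d.1.removeNth v)
      rw [Fin.insertNth_self_removeNth] at h1 h2
      split_ifs at h1 <;> omega

theorem card_dball {m : ℕ} (s : ℕ) (d : Fin (m + 1) × Bool) :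
    (dball s d).card = 2 * sb m s := by
  have h1 : (dball s d).card = ((ball m s).filter (fun w => nrm w + 1 ≤ s)).sum
      fun w => (if d.2 then Finset.Icc (-((s : ℤ) - nrm w)) ((s : ℤ) - nrm w - 1)
        else Finset.Icc (-((s : ℤ) - nrm w - 1)) ((s : ℤ) - nrm w)).card := by
    rw [← Finset.card_sigma]
    refine (Finset.card_bij (fun p _ => (d.1.insertNth p.2 p.1 :
      Fin (m + 1) → ℤ)) ?_ ?_ ?_).symm
    · rintro ⟨w, x⟩ h
      rw [Finset.mem_sigma, Finset.mem_filter] at h
      simp only at h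
      rw [mem_dball, nrm_add_ud_insertNth, nrm_insertNth]
      obtain ⟨⟨-, h2⟩, h3⟩ := h
      simp only
      split_ifs at h3 ⊢ <;> rw [Finset.mem_Icc] at h3 <;> omega
    · rintro ⟨w, x⟩ _ ⟨w', x'⟩ _ h
      have h2 := congrArg (fun v : Fin (m + 1) → ℤ => v d.1) h
      have h3 := congrArg (fun v : Fin (m + 1) → ℤ => d.1.removeNth v) h
      simp at h2 h3
      subst h2
      subst h3
      rfl
    · intro v hv
      rw [mem_dball] at hv
      refine ⟨⟨d.1.removeNth v, v d.1⟩, ?_, ?_⟩
      · have h1 := nrm_add_ud_insertNth d (v d.1) (d.1.removeNth v)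
        have h2 := nrm_insertNth d.1 (v d.1) (d.1.removeNth v)
        rw [Fin.insertNth_self_removeNth] at h1 h2
        rw [Finset.mem_sigma, Finset.mem_filter, mem_ball]
        simp only
        split_ifs at h1 ⊢ <;> rw [Finset.mem_Icc] <;> omega
      · exact Fin.insertNth_self_removeNth _ _
  have h2 : ∀ w ∈ (ball m s).filter (fun w => nrm w + 1 ≤ s),
      (if d.2 then Finset.Icc (-((s : ℤ) - nrm w)) ((s : ℤ) - nrm w - 1)
        else Finset.Icc (-((s : ℤ) - nrm w - 1)) ((s : ℤ) - nrm w)).card =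
      2 * ((Finset.range s).filter fun j => nrm w ≤ j).card := by
    intro w hw
    rw [Finset.mem_filter] at hw
    have h3 : (Finset.range s).filter (fun j => nrm w ≤ j) = Finset.Ico (nrm w) s := by
      ext j
      simp only [Finset.mem_filter, Finset.mem_range, Finset.mem_Ico]
      omega
    rw [h3, Nat.card_Ico]
    split_ifs <;> rw [Int.card_Icc] <;> omega
  rw [h1, Finset.sum_congr rfl h2, ← Finset.mul_sum, ← sum_nb]
  congr 1
  have h4 : ∀ w : Fin m → ℤ, ((Finset.range s).filter fun j => nrm w ≤ j).card =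
      ∑ j ∈ Finset.range s, if nrm w ≤ j then 1 else 0 := by
    intro w
    rw [Finset.card_eq_sum_ones, Finset.sum_filter]
  simp_rw [h4]
  rw [Finset.sum_comm]
  refine Finset.sum_congr rfl fun j hj => ?_
  rw [← card_ball, ← Finset.sum_filter, ← Finset.card_eq_sum_ones]
  congr 1
  ext w
  rw [Finset.mem_range] at hj
  simp only [Finset.mem_filter, mem_ball]
  omega

theorem bound_even (m e : ℕ) : bound m (2 * e) = nb m e := by
  unfold bound nb
  rw [if_pos (even_two_mul e), Nat.mul_div_cancel_left e two_pos]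

theorem bound_odd (m s : ℕ) (hs : 1 ≤ s) : bound (m + 1) (2 * s - 1) = 2 * sb m s := by
  have h1 : ¬ Even (2 * s - 1) := by
    rw [Nat.not_even_iff_odd]
    exact ⟨s - 1, by omega⟩
  have h2 : (2 * s - 1 + 1) / 2 = s := by omega
  have h3 : Finset.Icc 1 (m + 1) = (Finset.range (m + 1)).map ⟨(· + 1), add_left_injective 1⟩ := by
    ext i
    simp only [Finset.mem_Icc, Finset.mem_map, Finset.mem_range, Function.Embedding.coeFn_mk]
    constructor
    · intro h
      exact ⟨i - 1, by omega, by omega⟩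
    · rintro ⟨j, h4, rfl⟩
      omega
  unfold bound sb
  rw [if_neg h1, h2, Finset.mul_sum, h3, Finset.sum_map]
  refine Finset.sum_congr rfl fun i _ => ?_
  simp only [Function.Embedding.coeFn_mk, Nat.add_sub_cancel]
  ring

end TightIndep
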