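import Pool.Agent.Lib.MP_f31b39_co.Clique

/-!
# Tight `t`-independent sets: the first criterion
-/

namespace TightIndep

variable {m s μ : ℕ} {L : Set (Fin m → ℤ)}

theorem exists_between' {ι : Type} [Fintype ι] [DecidableEq ι] (l u : ι → ℕ)
    (hlu : ∀ i, l i ≤ u i) (T : ℕ) (h1 : ∑ i, l i ≤ T) (h2 : T ≤ ∑ i, u i) :
    ∃ p : ι → ℕ, (∀ i, l i ≤ p i ∧ p i ≤ u i) ∧ ∑ i, p i = T := by
  induction T, h1 using Nat.le_induction with
  | base => exact ⟨l, fun i => ⟨le_rfl, hlu i⟩, rfl⟩
  | succ T hT ih =>
    obtain ⟨p, hp, hp2⟩ := ih (by omega)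
    obtain ⟨i, hi⟩ : ∃ i, p i < u i := by
      by_contra hcon
      push Not at hcon
      have := Finset.sum_le_sum (s := Finset.univ) fun i _ => hcon i
      omega
    refine ⟨Function.update p i (p i + 1), ?_, ?_⟩
    · intro j
      by_cases hj : j = i
      · subst hj
        rw [Function.update_self]
        have := hp j
        omega
      · rw [Function.update_of_ne hj]
        exact hp j
    · rw [← Finset.add_sum_erase _ _ (Finset.mem_univ i), Function.update_self,
        Finset.sum_congr rfl (g := fun j => p j)]
      · have := Finset.add_sum_erase Finset.univ p (Finset.mem_univ i)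
        omega
      · intro j hj
        rw [Function.update_of_ne (Finset.ne_of_mem_erase hj)]

theorem sum_lt (a x : ℕ) (h : a ≤ m) : ∑ i : Fin m, (if i.val < a then x else 0) = a * x := by
  rw [Fin.sum_univ_eq_sum_range (fun i => if i < a then x else 0) m]
  rw [← Finset.sum_filter, Finset.sum_const, smul_eq_mul]
  congr 1
  rw [show (Finset.range m).filter (fun i => i < a) = Finset.range a by
    ext i
    simp only [Finset.mem_filter, Finset.mem_range]
    omega]
  exact Finset.card_range a

/-- the point of the box of `c` with absolute values `p` -/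
def signed (c : Fin m → ℤ) (p : Fin m → ℕ) : Fin m → ℤ :=
  fun i => if 0 ≤ c i then (p i : ℤ) else -(p i : ℤ)

theorem nrm_signed (c : Fin m → ℤ) (p : Fin m → ℕ) : nrm (signed c p) = ∑ i, p i := by
  unfold nrm signed
  refine Finset.sum_congr rfl fun i _ => ?_
  split_ifs <;> omega

theorem nrm_sub_signed (c : Fin m → ℤ) (p : Fin m → ℕ) (h : ∀ i, p i ≤ (c i).natAbs) :
    nrm (c - signed c p) + ∑ i, p i = nrm c := by
  unfold nrm signed
  rw [← Finset.sum_add_distrib]
  refine Finset.sum_congr rfl fun i _ => ?_
  have := h i
  rw [Pi.sub_apply]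
  split_ifs <;> omega

/-- a vector of the lattice above a given nonnegative vector of norm `s` -/
theorem getc' (hL : Lat m s μ L) (q : Fin m → ℕ) (hq : ∑ i, q i = s) :
    ∃ c ∈ L, nrm c = μ ∧ ∀ i, 1 ≤ q i → (q i : ℤ) ≤ c i := by
  obtain ⟨c, hc, h1, h2⟩ := getc hL (fun i => (q i : ℤ)) (by
    unfold nrm
    rw [← hq]
    exact Finset.sum_congr rfl fun i _ => Int.natAbs_natCast _)
  refine ⟨c, hc, h1, ?_⟩
  have h3 : ∀ i ∈ Finset.univ, (c i).natAbs ≤ (c i - (q i : ℤ)).natAbs + q i := by
    intro i _
    omega
  have h4 : ∑ i, (c i).natAbs = ∑ i, ((c i - (q i : ℤ)).natAbs + q i) := by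
    rw [Finset.sum_add_distrib, hq]
    unfold nrm at h1 h2
    rw [h1, ← h2]
    rfl
  have h5 := (Finset.sum_eq_sum_iff_of_le h3).1 h4
  intro i hi
  have := h5 i (Finset.mem_univ i)
  omega

/-- the first criterion -/
theorem crit (hL : Lat m s μ L) (k j : ℕ) (hk : 2 ≤ k) (hkm : k + 2 ≤ m) (hj : k + j ≤ m)
    (hs : 3 * k + j ≤ s) : s ^ 2 * k ^ 2 ≤ (2 * m - 2 * k - j) * (s + k - 1) ^ 2 := by
  classical
  have hs1 := hL.hs
  have hm1 := hL.h1
  have hm2 := hL.h2
  -- the vector `c`
  obtain ⟨c, hc, hcn, hc2⟩ := getc' hL (fun i : Fin m => (if i.val < k then 2 else 0) +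
    (if i.val < k + j then 1 else 0) + (if i.val < 1 then s - 3 * k - j else 0)) (by
      rw [Finset.sum_add_distrib, Finset.sum_add_distrib, sum_lt _ _ (by omega),
        sum_lt _ _ (by omega), sum_lt _ _ (by omega)]
      omega)
  have hc3 : ∀ i : Fin m, i.val < k → 3 ≤ c i := by
    intro i hi
    have h1 := hc2 i
    rw [if_pos hi, if_pos (by omega : i.val < k + j)] at h1
    have h2 := h1 (by omega)
    push_cast at h2
    have h3 : (0 : ℤ) ≤ if i.val < 1 then ((s - 3 * k - j : ℕ) : ℤ) else 0 := by
      split_ifs <;> omega
    omega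
  have hc1 : ∀ i : Fin m, i.val < k + j → 1 ≤ c i := by
    intro i hi
    have h1 := hc2 i
    rw [if_pos hi] at h1
    have h2 := h1 (by omega)
    push_cast at h2
    have h3 : (0 : ℤ) ≤ if i.val < 1 then ((s - 3 * k - j : ℕ) : ℤ) else 0 := by
      split_ifs <;> omega
    have h4 : (0 : ℤ) ≤ if i.val < k then (2 : ℤ) else 0 := by
      split_ifs <;> omega
    omega
  -- the coordinate `i0`
  obtain ⟨i0, hi0, hor⟩ : ∃ i0 : Fin m, k ≤ i0.val ∧
      ((c i0).natAbs + 2 * k + s ≤ μ + 1 ∨ (c i0).natAbs + k + 1 ≤ s) := by
    by_contra hcon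
    push Not at hcon
    have h1 := (hcon ⟨k, by omega⟩ le_rfl).2
    have h2 := (hcon ⟨k + 1, by omega⟩ (Nat.le_succ k)).1
    have h3 : ∑ i : Fin m, ((if i.val < k then 3 else 0) +
        ((if i = ⟨k, by omega⟩ then (c i).natAbs else 0) +
        (if i = ⟨k + 1, by omega⟩ then (c i).natAbs else 0))) ≤ ∑ i, (c i).natAbs := by
      refine Finset.sum_le_sum fun i _ => ?_
      by_cases h4 : i.val < k
      · have h5 := hc3 i h4
        rw [if_pos h4, if_neg (by rintro rfl; simp at h4), if_neg (by
          rintro rfl
          simp only at h4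
          omega)]
        omega
      · rw [if_neg h4]
        by_cases h5 : i = ⟨k, by omega⟩
        · rw [if_pos h5, if_neg (by
            rw [h5]
            intro h6
            have := congrArg Fin.val h6
            simp only at this
            omega)]
          omega
        · rw [if_neg h5]
          split_ifs <;> omega
    rw [Finset.sum_add_distrib, Finset.sum_add_distrib, sum_lt _ _ (by omega),
      Finset.sum_ite_eq' Finset.univ, Finset.sum_ite_eq' Finset.univ, if_pos (Finset.mem_univ _),
      if_pos (Finset.mem_univ _)] at h3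
    unfold nrm at hcn
    omega
  -- the point `P`
  have hsum3 : ∀ x : ℕ, ∑ i : Fin m, (if i.val < k then x else 0) = k * x :=
    fun x => sum_lt k x (by omega)
  obtain ⟨p, hp1, hp2, hp3, hp4⟩ : ∃ p : Fin m → ℕ, (∀ i : Fin m, i.val < k → 1 ≤ p i ∧
      (p i : ℤ) + 2 ≤ c i) ∧ (∀ i, p i ≤ (c i).natAbs) ∧ ∑ i, p i + 1 = s ∧
      (p i0 = 0 ∨ p i0 = (c i0).natAbs) := by
    unfold nrm at hcn
    rcases hor with hor | hor
    · obtain ⟨p, hp, hp2⟩ := exists_between' (fun i : Fin m => if i.val < k then 1 else 0)
        (fun i : Fin m => if i.val < k then (c i).natAbs - 2 else if i = i0 then 0 else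
          (c i).natAbs) (by
          intro i
          split_ifs with h1 h2
          · have := hc3 i h1
            omega
          · omega
          · omega) (s - 1) (by
          rw [hsum3]
          omega) (by
          have h1 : ∑ i : Fin m, ((if i.val < k then (c i).natAbs - 2 else if i = i0 then 0 else
              (c i).natAbs) + ((if i.val < k then 2 else 0) +
              (if i = i0 then (c i).natAbs else 0))) = ∑ i, (c i).natAbs := by
            refine Finset.sum_congr rfl fun i _ => ?_
            by_cases h2 : i.val < k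
            · have := hc3 i h2
              rw [if_pos h2, if_pos h2, if_neg (by rintro rfl; omega)]
              omega
            · rw [if_neg h2, if_neg h2]
              split_ifs <;> omega
          rw [Finset.sum_add_distrib, Finset.sum_add_distrib, hsum3,
            Finset.sum_ite_eq' Finset.univ, if_pos (Finset.mem_univ _)] at h1
          omega)
      refine ⟨p, ?_, ?_, by omega, ?_⟩
      · intro i hi
        have h1 := hp i
        have h2 := hc3 i hi
        rw [if_pos hi, if_pos hi] at h1
        omega
      · intro i
        have h1 := (hp i).2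
        split_ifs at h1 <;> omega
      · left
        have h1 := (hp i0).2
        rw [if_neg (by omega), if_pos rfl] at h1
        omega
    · obtain ⟨p, hp, hp2⟩ := exists_between' (fun i : Fin m => (if i.val < k then 1 else 0) +
        (if i = i0 then (c i).natAbs else 0))
        (fun i : Fin m => if i.val < k then (c i).natAbs - 2 else (c i).natAbs) (by
          intro i
          by_cases h2 : i.val < k
          · have := hc3 i h2
            rw [if_pos h2, if_pos h2, if_neg (by rintro rfl; omega)]
            omega
          · rw [if_neg h2, if_neg h2]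
            split_ifs <;> omega) (s - 1) (by
          rw [Finset.sum_add_distrib, hsum3, Finset.sum_ite_eq' Finset.univ,
            if_pos (Finset.mem_univ _)]
          omega) (by
          have h1 : ∑ i : Fin m, ((if i.val < k then (c i).natAbs - 2 else
              (c i).natAbs) + (if i.val < k then 2 else 0)) = ∑ i, (c i).natAbs := by
            refine Finset.sum_congr rfl fun i _ => ?_
            by_cases h2 : i.val < k
            · have := hc3 i h2
              rw [if_pos h2, if_pos h2]
              omega
            · rw [if_neg h2, if_neg h2]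
              omega
          rw [Finset.sum_add_distrib, hsum3] at h1
          omega)
      refine ⟨p, ?_, ?_, by omega, ?_⟩
      · intro i hi
        have h1 := hp i
        have h2 := hc3 i hi
        rw [if_pos hi, if_pos hi, if_neg (by rintro rfl; omega)] at h1
        omega
      · intro i
        have h1 := (hp i).2
        split_ifs at h1 <;> omega
      · right
        have h1 := hp i0
        rw [if_neg (by omega), if_pos rfl, if_neg (by omega)] at h1
        omega
  -- the clique inequality
  obtain ⟨P, hP⟩ : ∃ P, P = signed c p := ⟨_, rfl⟩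
  have hPi : ∀ i, P i = if 0 ≤ c i then (p i : ℤ) else -(p i : ℤ) := fun i => by rw [hP]; rfl
  obtain ⟨K, hK⟩ : ∃ K : Finset (Fin m), K = Finset.univ.filter (fun i => i.val < k) := ⟨_, rfl⟩
  have hKc : K.card = k := by
    have h1 := hsum3 1
    rw [← Finset.card_filter, ← hK] at h1
    omega
  obtain ⟨R, hR⟩ : ∃ R : Finset (Fin m × Bool), R = Finset.univ.filter
    (fun d => d.1 ∉ K ∧ comp (-P) d = 0 ∧ comp (c - P) d = 0) := ⟨_, rfl⟩
  have hmemK : ∀ i, i ∈ K ↔ i.val < k := fun i => by rw [hK]; simp
  have hmemR : ∀ d, d ∈ R ↔ d.1 ∉ K ∧ comp (-P) d = 0 ∧ comp (c - P) d = 0 := fun d => by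
    rw [hR]; simp
  have hR0 : R.Nonempty := by
    have hPi0 := hPi i0
    refine ⟨(i0, if p i0 = 0 then decide (c i0 ≤ 0) else decide (0 < c i0)), ?_⟩
    rw [hmemR, hmemK]
    refine ⟨by simp only; omega, ?_, ?_⟩
    · unfold comp
      rcases hp4 with h1 | h1
      · rw [h1] at hPi0
        simp only [Pi.neg_apply]
        split_ifs <;> split_ifs at hPi0 <;> omega
      · simp only [Pi.neg_apply]
        by_cases h2 : p i0 = 0
        · rw [h2] at hPi0
          split_ifs <;> split_ifs at hPi0 <;> omega
        · rw [if_neg h2]
          by_cases h3 : 0 < c i0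
          · rw [decide_eq_true h3, if_pos rfl]
            rw [if_pos h3.le] at hPi0
            omega
          · rw [decide_eq_false h3]
            simp only [Bool.false_eq_true, if_false]
            split_ifs at hPi0 <;> omega
    · unfold comp
      simp only [Pi.sub_apply]
      by_cases h2 : p i0 = 0
      · rw [h2] at hPi0
        rw [if_pos h2]
        by_cases h3 : c i0 ≤ 0
        · rw [decide_eq_true h3, if_pos rfl]
          split_ifs at hPi0 <;> omega
        · rw [decide_eq_false h3]
          simp only [Bool.false_eq_true, if_false]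
          split_ifs at hPi0 <;> omega
      · have h1 : p i0 = (c i0).natAbs := by
          rcases hp4 with h1 | h1
          · exact absurd h1 h2
          · exact h1
        rw [if_neg h2]
        rw [h1] at hPi0
        split_ifs <;> split_ifs at hPi0 <;> omega
  have hRc : R.card ≤ 2 * m - 2 * k - j := by
    rw [hR, Finset.card_filter, Fintype.sum_prod_type]
    have h1 : ∑ i : Fin m, ∑ b : Bool, (if ((i, b) : Fin m × Bool).1 ∉ K ∧
        comp (-P) (i, b) = 0 ∧ comp (c - P) (i, b) = 0 then 1 else 0) +
        (∑ i : Fin m, (if i.val < k then 1 else 0) +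
        ∑ i : Fin m, (if i.val < k + j then 1 else 0)) ≤ ∑ i : Fin m, 2 := by
      rw [← Finset.sum_add_distrib, ← Finset.sum_add_distrib]
      refine Finset.sum_le_sum fun i _ => ?_
      rw [Fintype.sum_bool]
      by_cases h2 : i.val < k
      · rw [if_pos h2, if_pos (by omega : i.val < k + j),
          if_neg (fun h => h.1 ((hmemK i).2 h2)), if_neg (fun h => h.1 ((hmemK i).2 h2))]
        omega
      · rw [if_neg h2]
        by_cases h3 : i.val < k + j
        · rw [if_pos h3]
          have h4 := hc1 i h3
          have h5 := hPi i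
          have h6 := hp2 i
          rw [if_pos (by omega)] at h5
          by_cases h7 : p i = 0
          · have e1 : ¬(((i, true) : Fin m × Bool).1 ∉ K ∧ comp (-P) (i, true) = 0 ∧
                comp (c - P) (i, true) = 0) := fun h => by
              have h8 := h.2.2
              simp only [comp, if_true, Pi.sub_apply] at h8
              omega
            rw [if_neg e1]
            split_ifs <;> omega
          · have e1 : ¬(((i, false) : Fin m × Bool).1 ∉ K ∧ comp (-P) (i, false) = 0 ∧
                comp (c - P) (i, false) = 0) := fun h => by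
              have h8 := h.2.1
              simp only [comp, Bool.false_eq_true, if_false, Pi.neg_apply] at h8
              omega
            rw [if_neg e1]
            split_ifs <;> omega
        · rw [if_neg h3]
          split_ifs <;> omega
    rw [sum_lt _ _ (by omega), sum_lt _ _ (by omega), Finset.sum_const, Finset.card_univ,
      Fintype.card_fin, smul_eq_mul] at h1
    omega
  have hfin := clique hL c P hc (by rw [hP, nrm_signed]; exact hp3) (by
    have h1 := nrm_sub_signed c p hp2
    rw [hP]
    omega) K (by
      intro b hb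
      rw [hmemK] at hb
      have h1 := hp1 b hb
      have h2 := hPi b
      rw [if_pos (by omega)] at h2
      omega) R hmemR hR0 (by omega)
  rw [hKc] at hfin
  exact hfin.trans (Nat.mul_le_mul_right _ hRc)

end TightIndep
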