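import Pool.Agent.Lib.MP_f31b39_co.Design

/-!
# Tight `t`-independent sets: the second criterion
-/

namespace TightIndep

variable {m s μ : ℕ} {L : Set (Fin m → ℤ)}

/-- the opposite direction -/
def opp (d : Fin m × Bool) : Fin m × Bool := (d.1, !d.2)

theorem ud_self (d : Fin m × Bool) : ud d d.1 = if d.2 then 1 else -1 := by
  obtain ⟨i, b⟩ := d
  cases b <;> simp [ud]

theorem ud_ne (d : Fin m × Bool) (i : Fin m) (h : i ≠ d.1) : ud d i = 0 := by
  unfold ud
  rw [Pi.single_eq_of_ne h]

theorem nrm_add_ud (P : Fin m → ℤ) (d : Fin m × Bool) (h : comp (-P) d = 0) :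
    nrm (P + ud d) = nrm P + 1 := by
  have h1 := nrm_sub_ud (-P) d
  rw [h, show -P - ud d = -(P + ud d) by abel, nrm_neg, nrm_neg] at h1
  omega

/-- the neighbours of a point at distance `s` from `0`, without `c` -/
theorem lemA' (hL : Lat m s μ L) (Q : Fin m → ℤ) (hQ : nrm Q = s)
    (d : Fin m × Bool) (h1 : comp (-Q) d = 0) :
    ∃ w, nrm w ≤ s ∧ s ≤ nrm w + 1 ∧ Q + w ∈ L ∧ 1 ≤ comp w d ∧ ov w (-Q) = 0 := by
  have hs := hL.hs
  have hm1 := hL.h1
  have hm2 := hL.h2
  obtain ⟨x, hx, hx2⟩ : ∃ x ∈ L, nrm (Q + ud d - x) + 1 ≤ s := by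
    apply hL.cov Q d
    by_cases hμ : μ = 2 * s
    · right
      intro x hx
      by_cases h0 : x = 0
      · rw [h0, sub_zero, hQ]
      · have h3 := hL.min x hx h0
        have h4 : nrm (Q - (Q - x)) ≤ nrm Q + nrm (Q - x) := nrm_sub_le _ _
        rw [sub_sub_cancel] at h4
        omega
    · left
      omega
  obtain ⟨w, hw⟩ : ∃ w, w = x - Q := ⟨_, rfl⟩
  have hxw : x = Q + w := by rw [hw]; abel
  have h3 : nrm (w - ud d) + 1 ≤ s := by
    rw [nrm_sub_comm, hw, show ud d - (x - Q) = Q + ud d - x by abel]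
    exact hx2
  have h4 := nrm_sub_ud w d
  have hx0 : x ≠ 0 := by
    rintro rfl
    rw [zero_sub] at hw
    rw [hw, h1, nrm_neg, hQ] at h4
    rw [hw] at h3
    omega
  have h5 := hL.min x hx hx0
  have h7 := nrm_sub_ov w (-Q)
  rw [show w - -Q = x by rw [hxw]; abel, nrm_neg] at h7
  have h9 : min (comp w d) 1 ≤ 1 := min_le_right _ _
  have h10 : min (comp w d) 1 ≤ comp w d := min_le_left _ _
  refine ⟨w, by omega, by omega, hxw ▸ hx, by omega, by omega⟩

theorem comp_opp_pos (P : Fin m → ℤ) (a : Fin m × Bool) (h : comp (-P) a = 0) :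
    1 ≤ comp (-(P + ud a)) (opp a) := by
  obtain ⟨i, b⟩ := a
  have h1 := ud_self ((i, b) : Fin m × Bool)
  cases b
  · simp only [comp, opp, Bool.not_false, Bool.false_eq_true, if_false, if_true, Pi.neg_apply,
      Pi.add_apply] at h h1 ⊢
    omega
  · simp only [comp, opp, Bool.not_true, Bool.false_eq_true, if_false, if_true, Pi.neg_apply,
      Pi.add_apply] at h h1 ⊢
    omega

theorem comp_add_ud (P : Fin m → ℤ) (a e : Fin m × Bool) (he : comp (-P) e = 0)
    (hea : e ≠ opp a) : comp (-(P + ud a)) e = 0 := by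
  by_cases h : e.1 = a.1
  · have h1 : e = a := by
      obtain ⟨i, b⟩ := e
      obtain ⟨j, b'⟩ := a
      simp only at h
      subst h
      unfold opp at hea
      cases b <;> cases b' <;> simp_all
    subst h1
    obtain ⟨i, b⟩ := e
    have h1 := ud_self ((i, b) : Fin m × Bool)
    cases b
    · simp only [comp, Bool.false_eq_true, if_false, Pi.neg_apply, Pi.add_apply] at he h1 ⊢
      omega
    · simp only [comp, if_true, Pi.neg_apply, Pi.add_apply] at he h1 ⊢
      omega
  · rw [← he]
    apply comp_congr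
    rw [Pi.neg_apply, Pi.neg_apply, Pi.add_apply, ud_ne a e.1 h, add_zero]

/-- the components of `ud a + w` when `w` has no component opposite to `a` -/
theorem comp_ud_add (a : Fin m × Bool) (w : Fin m → ℤ) (h : comp w (opp a) = 0)
    (x : Fin m × Bool) : comp (ud a + w) x = comp w x + if x = a then 1 else 0 := by
  obtain ⟨i, b⟩ := a
  obtain ⟨j, b'⟩ := x
  by_cases hij : j = i
  · subst hij
    have h1 := ud_self ((j, b) : Fin m × Bool)
    cases b <;> cases b' <;>
      simp only [comp, opp, Bool.not_false, Bool.not_true, Bool.false_eq_true, if_false, if_true,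
        Pi.add_apply, Prod.mk.injEq, true_and, reduceCtorEq] at h h1 ⊢ <;> omega
  · rw [if_neg (fun h2 => hij (congrArg Prod.fst h2)), add_zero]
    apply comp_congr
    rw [Pi.add_apply, ud_ne (i, b) j hij, zero_add]

/-- the second criterion -/
theorem crit2 (hL : Lat m s μ L) (hsm : s ≤ m) :
    ∃ v g : ℕ, v ≤ 2 * m ∧ 2 * m + 1 ≤ v + s ∧ s ≤ g ∧ g ≤ s + 1 ∧ g ≤ v ∧
      4 * ((v - g) * (s * (g - 1))) ≤ v * (4 * (v - g) + (s + 1) ^ 2) + 4 * (v - g) := by
  classical
  have hs1 := hL.hs
  have hm1 := hL.h1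
  have hm2 := hL.h2
  -- the vector `c`
  obtain ⟨c, hc, hcn, hc2⟩ := getc' hL (fun i : Fin m => if i.val < s then 1 else 0) (by
      rw [sum_lt _ _ hsm, mul_one])
  have hc1 : ∀ i : Fin m, i.val < s → 1 ≤ c i := by
    intro i hi
    have h1 := hc2 i
    rw [if_pos hi] at h1
    exact_mod_cast h1 le_rfl
  -- the point `P`
  obtain ⟨p, hp, hpT⟩ := exists_between' (fun _ : Fin m => 0)
    (fun i : Fin m => if i.val < s then (c i).natAbs - 1 else (c i).natAbs)
    (fun i => Nat.zero_le _) (s - 1) (by
      rw [Finset.sum_const_zero]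
      exact Nat.zero_le _) (by
      have h1 : ∑ i : Fin m, ((if i.val < s then (c i).natAbs - 1 else (c i).natAbs) +
          (if i.val < s then 1 else 0)) = ∑ i, (c i).natAbs := by
        refine Finset.sum_congr rfl fun i _ => ?_
        by_cases h2 : i.val < s
        · have := hc1 i h2
          rw [if_pos h2, if_pos h2]
          omega
        · rw [if_neg h2, if_neg h2]
          omega
      rw [Finset.sum_add_distrib, sum_lt _ _ hsm] at h1
      unfold nrm at hcn
      omega)
  have hpc : ∀ i, p i ≤ (c i).natAbs := by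
    intro i
    have h1 := (hp i).2
    split_ifs at h1 <;> omega
  obtain ⟨P, hP⟩ : ∃ P, P = signed c p := ⟨_, rfl⟩
  have hPi : ∀ i, P i = if 0 ≤ c i then (p i : ℤ) else -(p i : ℤ) := fun i => by rw [hP]; rfl
  have hPn : nrm P = ∑ i, p i := by rw [hP, nrm_signed]
  obtain ⟨u0, hu0⟩ : ∃ u0, u0 = c - P := ⟨_, rfl⟩
  have hu0n : nrm u0 + s = μ + 1 := by
    have h1 := nrm_sub_signed c p hpc
    rw [hu0, hP]
    omega
  have hu0ov : ov u0 (-P) = 0 := by
    have h1 := nrm_sub_ov u0 (-P)
    rw [show u0 - -P = c by rw [hu0]; abel, nrm_neg, hcn, hPn] at h1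
    omega
  -- the sets
  obtain ⟨D, hD⟩ : ∃ D : Finset (Fin m × Bool), D = Finset.univ.filter
    (fun d => comp (-P) d = 0) := ⟨_, rfl⟩
  have hmD : ∀ d, d ∈ D ↔ comp (-P) d = 0 := fun d => by rw [hD]; simp
  obtain ⟨S0, hS0⟩ : ∃ S0 : Finset (Fin m × Bool), S0 = Finset.univ.filter
    (fun d => 1 ≤ comp u0 d) := ⟨_, rfl⟩
  have hmS : ∀ d, d ∈ S0 ↔ 1 ≤ comp u0 d := fun d => by rw [hS0]; simp
  have hSD : S0 ⊆ D := by
    intro d hd
    rw [hmS] at hd
    rw [hmD]
    have := min_le_ov u0 (-P) d
    omega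
  have hDc1 : D.card ≤ 2 * m := by
    refine (Finset.card_le_univ D).trans ?_
    rw [Fintype.card_prod, Fintype.card_fin, Fintype.card_bool]
    omega
  have hDc2 : 2 * m + 1 ≤ D.card + s := by
    have h1 : ∑ d : Fin m × Bool, 1 ≤ ∑ d, ((if comp (-P) d = 0 then 1 else 0) + comp (-P) d) := by
      refine Finset.sum_le_sum fun d _ => ?_
      split_ifs <;> omega
    rw [Finset.sum_add_distrib, ← nrm_eq, ← Finset.card_filter, ← hD, nrm_neg, hPn, Finset.sum_const,
      Finset.card_univ, Fintype.card_prod, Fintype.card_fin, Fintype.card_bool, smul_eq_mul] at h1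
    omega
  have hSc1 : s ≤ S0.card := by
    have h1 : ∑ i : Fin m, (if i.val < s then 1 else 0) ≤
        ∑ i : Fin m, ∑ b : Bool, (if 1 ≤ comp u0 (i, b) then 1 else 0) := by
      refine Finset.sum_le_sum fun i _ => ?_
      rw [Fintype.sum_bool]
      by_cases h2 : i.val < s
      · have h3 : 1 ≤ comp u0 (i, true) := by
          have h4 := hc1 i h2
          have h5 := (hp i).2
          have h6 := hPi i
          rw [if_pos h2] at h5
          rw [if_pos (by omega)] at h6
          rw [hu0]
          simp only [comp, if_true, Pi.sub_apply]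
          omega
        rw [if_pos h2, if_pos h3]
        omega
      · rw [if_neg h2]
        exact Nat.zero_le _
    rw [sum_lt _ _ hsm, ← Fintype.sum_prod_type (f := fun d : Fin m × Bool =>
      if 1 ≤ comp u0 d then 1 else 0), ← Finset.card_filter, ← hS0] at h1
    omega
  have hSc2 : S0.card ≤ s + 1 := by
    have h1 : ∑ d : Fin m × Bool, (if 1 ≤ comp u0 d then 1 else 0) ≤ ∑ d, comp u0 d := by
      refine Finset.sum_le_sum fun d _ => ?_
      split_ifs <;> omega
    rw [← nrm_eq, ← Finset.card_filter, ← hS0] at h1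
    omega
  have hDS := Finset.card_le_card hSD
  -- the blocks
  have hex : ∀ a ∈ D, ∀ e ∈ D.erase (opp a), ∃ w, nrm w ≤ s ∧ s ≤ nrm w + 1 ∧
      P + ud a + w ∈ L ∧ 1 ≤ comp w e ∧ ov w (-(P + ud a)) = 0 := by
    intro a haD e he
    obtain ⟨he1, he2⟩ := Finset.mem_erase.1 he
    rw [hmD] at haD he2
    apply lemA' hL
    · rw [nrm_add_ud P a haD, hPn]
      omega
    · exact comp_add_ud P a e he2 he1
  choose! w hw1 hw2 hw3 hw4 hw5 using hex
  have hwopp : ∀ a ∈ D, ∀ e ∈ D.erase (opp a), comp (w a e) (opp a) = 0 := by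
    intro a haD e he
    have h1 := comp_opp_pos P a ((hmD a).1 haD)
    have h2 := min_le_ov (w a e) (-(P + ud a)) (opp a)
    rw [hw5 a haD e he] at h2
    omega
  have hU : ∀ a ∈ D, ∀ e ∈ D.erase (opp a), ∀ x, comp (ud a + w a e) x =
      comp (w a e) x + if x = a then 1 else 0 :=
    fun a haD e he x => comp_ud_add a (w a e) (hwopp a haD e he) x
  have hred : ∀ a ∈ D, ∀ e ∈ D.erase (opp a), ∀ x,
      red a (fun x => comp (ud a + w a e) x) x = comp (w a e) x := by
    intro a haD e he x
    show (comp (ud a + w a e) x - if x = a then 1 else 0) = comp (w a e) x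
    rw [hU a haD e he]
    omega
  have hsum : ∀ a ∈ D, ∀ e ∈ D.erase (opp a), ∑ x ∈ D.erase (opp a), comp (w a e) x =
      nrm (w a e) := by
    intro a haD e he
    rw [nrm_eq]
    apply Finset.sum_subset (Finset.subset_univ _)
    intro x _ hx
    by_cases hxa : x = opp a
    · rw [hxa]
      exact hwopp a haD e he
    · have hxD : x ∉ D := fun h => hx (Finset.mem_erase.2 ⟨hxa, h⟩)
      rw [hmD] at hxD
      have hne : x.1 ≠ a.1 := by
        intro h
        have hxa2 : x = a := by
          obtain ⟨i, b⟩ := x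
          obtain ⟨j, b'⟩ := a
          simp only at h
          subst h
          unfold opp at hxa
          cases b <;> cases b' <;> simp_all
        rw [hxa2] at hxD
        exact hxD ((hmD a).1 haD)
      have h2 : comp (-(P + ud a)) x = comp (-P) x := by
        apply comp_congr
        rw [Pi.neg_apply, Pi.neg_apply, Pi.add_apply, ud_ne a x.1 hne, add_zero]
      have h3 := min_le_ov (w a e) (-(P + ud a)) x
      rw [hw5 a haD e he, h2] at h3
      omega
  have hUn : ∀ a ∈ D, ∀ e ∈ D.erase (opp a), nrm (ud a + w a e) ≤ s + 1 := by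
    intro a haD e he
    have h1 := nrm_add_le (ud a) (w a e)
    rw [nrm_ud] at h1
    have h2 := hw1 a haD e he
    omega
  have hPU : ∀ a ∈ D, ∀ e ∈ D.erase (opp a), P + (ud a + w a e) ∈ L := by
    intro a haD e he
    rw [← add_assoc]
    exact hw3 a haD e he
  have hRD : D \ S0 ⊆ D := Finset.sdiff_subset
  have key := counting2 D (D \ S0) S0 (fun a => D.erase (opp a)) s (S0.card - 1)
    (fun a e x => comp (ud a + w a e) x) hRD (fun a _ => Finset.erase_subset _ _)
    (by
      intro a haR
      have h1 : S0.erase (opp a) ⊆ S0 ∩ D.erase (opp a) := by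
        intro x hx
        obtain ⟨h2, h3⟩ := Finset.mem_erase.1 hx
        exact Finset.mem_inter.2 ⟨h3, Finset.mem_erase.2 ⟨h2, hSD h3⟩⟩
      exact Finset.pred_card_le_card_erase.trans (Finset.card_le_card h1))
    (by
      intro a haR e he
      refine le_trans ?_ (hUn a (hRD haR) e he)
      rw [nrm_eq]
      exact Finset.sum_le_sum_of_subset (Finset.subset_univ _))
    (by
      intro a haR e he
      rw [Finset.sum_congr rfl fun x _ => hred a (hRD haR) e he x, hsum a (hRD haR) e he]
      exact hw2 a (hRD haR) e he)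
    (by
      intro a haR e he e' he' hne
      rw [Finset.sum_congr rfl fun x _ => hred a (hRD haR) e he x, hsum a (hRD haR) e he,
        Finset.sum_congr rfl fun x _ => hred a (hRD haR) e' he' x, hsum a (hRD haR) e' he']
      have hne' : w a e ≠ w a e' := fun h => hne (by rw [h])
      have h1 : w a e - w a e' ∈ L := by
        have := hL.sub _ (hw3 a (hRD haR) e he) _ (hw3 a (hRD haR) e' he')
        rwa [add_sub_add_left_eq_sub] at this
      have h2 := hL.min _ h1 (sub_ne_zero.2 hne')
      have h3 := nrm_sub_le (w a e) (w a e')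
      omega)
    (by
      intro a haR e he
      rw [hred a (hRD haR) e he e]
      exact hw4 a (hRD haR) e he)
    (by
      intro a haR e he
      rw [hU a (hRD haR) e he, if_pos rfl]
      omega)
    (by
      intro a haR b hbR e he e' he' hne
      have hne' : ud a + w a e ≠ ud b + w b e' := fun h => hne (by rw [h])
      have h1 : (ud a + w a e) - (ud b + w b e') ∈ L := by
        have := hL.sub _ (hPU a (hRD haR) e he) _ (hPU b (hRD hbR) e' he')
        rwa [add_sub_add_left_eq_sub] at this
      have h2 := hL.min _ h1 (sub_ne_zero.2 hne')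
      have h3 := nrm_sub_ov (ud a + w a e) (ud b + w b e')
      have h4 := hUn a (hRD haR) e he
      have h5 := hUn b (hRD hbR) e' he'
      have h6 : ∑ x ∈ D, min (comp (ud a + w a e) x) (comp (ud b + w b e') x) ≤
          ov (ud a + w a e) (ud b + w b e') :=
        Finset.sum_le_sum_of_subset (Finset.subset_univ _)
      omega)
    (by
      intro a haR e he
      obtain ⟨haD, haS⟩ := Finset.mem_sdiff.1 haR
      have hne : ud a + w a e ≠ u0 := by
        intro h
        have h1 := hU a haD e he a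
        rw [if_pos rfl, h] at h1
        rw [hmS] at haS
        omega
      have h1 : (ud a + w a e) - u0 ∈ L := by
        have := hL.sub _ (hPU a haD e he) _ hc
        rwa [show P + (ud a + w a e) - c = (ud a + w a e) - u0 by rw [hu0]; abel] at this
      have h2 := hL.min _ h1 (sub_ne_zero.2 hne)
      have h3 := nrm_sub_ov (ud a + w a e) u0
      have h4 := hUn a haD e he
      have h5 : ∑ x ∈ S0, min (comp (ud a + w a e) x) 1 ≤
          ∑ x ∈ S0, min (comp (ud a + w a e) x) (comp u0 x) := by
        refine Finset.sum_le_sum fun x hx => ?_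
        rw [hmS] at hx
        omega
      have h6 : ∑ x ∈ S0, min (comp (ud a + w a e) x) (comp u0 x) ≤ ov (ud a + w a e) u0 :=
        Finset.sum_le_sum_of_subset (Finset.subset_univ _)
      omega)
  rw [Finset.card_sdiff_of_subset hSD] at key
  exact ⟨D.card, S0.card, hDc1, hDc2, hSc1, hSc2, hDS, key⟩

end TightIndep
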