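import Pool.Agent.Lib.MP_f31b39_co.FastSound

/-!
# Tight `t`-independent sets: `m = 3`, `t = 10`
-/

namespace TightIndep.D3_10

set_option maxRecDepth 100000

def T1 : KT := .node 654450722 503435295 (.cons 419553310 0 1 .nil) (.node 503414815 604106785 (.cons 654450722 16 0 (.cons 503414815 1 0 .nil)) .nil .nil) .nil

theorem f1 : kchk 3 5 6 11 (koff 3) (Nat.mul 2 (koff 3)) T1 [] [] = true := by
  decide +kernel

def T2 : KT := .node 637677602 553787427 (.cons 637677602 1 0 .nil) (.node 553787432 587337758 (.cons 620892186 16 1 (.cons 637677602 16 0 .nil)) .nil .nil) .nil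

theorem f2 : kchk 3 5 6 11 (koff 3) (Nat.mul 2 (koff 3)) T2 [] [] = true := by
  decide +kernel

def T3 : KT := .node 620904482 553787427 (.cons 620904482 1 0 .nil) (.node 553787432 503439394 (.cons 469884966 1 16 (.cons 453099550 0 16 .nil)) .nil .nil) .nil

theorem f3 : kchk 3 5 6 11 (koff 3) (Nat.mul 2 (koff 3)) T3 [] [] = true := by
  decide +kernel

def T4 : KT := .node 620900387 486674462 (.cons 453103645 0 1 .nil) (.node 486694942 520237090 (.cons 486694942 1 0 (.cons 620900387 16 0 .nil)) .nil .nil) .nil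

theorem f4 : kchk 3 5 6 11 (koff 3) (Nat.mul 2 (koff 3)) T4 [] [] = true := by
  decide +kernel

def T5 : KT := .node 604127267 486674462 (.cons 469876765 0 1 .nil) (.node 486694942 520237090 (.cons 604127267 16 0 (.cons 486694942 1 0 .nil)) .nil .nil) .nil

theorem f5 : kchk 3 5 6 11 (koff 3) (Nat.mul 2 (koff 3)) T5 [] [] = true := by
  decide +kernel

def T0 : KT := .ref 604131362 620904482 288 288 0 (.ref 587358242 637677602 288 288 0 (.ref 570585122 654450722 288 288 0 (.ref 637673507 637677602 513 513 0 (.ref 587354147 620900387 288 288 0 (.ref 570581027 637677602 258 33 0 (.ref 620896292 620904482 513 513 0 (.ref 604123172 604127267 513 513 0 (.ref 587350052 604127267 258 33 0 (.ref 570576932 620904482 258 33 0 (.ref 604119077 620904482 33 258 0 (.ref 587345957 620900387 33 258 0 (.ref 570572837 620904482 18 18 0 (.ref 587341862 637677602 33 258 0 (.ref 570568742 637677602 18 18 0 (.ref 570564647 654450722 33 258 0 .nil)))))))))))))))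

def fs : List ℕ := [654450722, 637677602, 620904482, 620900387, 604127267]

theorem root1 : knode 3 5 6 (koff 3) [] 570564642 .nil (fs ++ kxs T0) = true := by
  decide +kernel

theorem root2 : kchk 3 5 6 11 (koff 3) (Nat.mul 2 (koff 3)) T0 [] fs = true := by
  decide +kernel

theorem hfs : ∀ x ∈ fs, NNk 3 6 11 [x] := by
  intro x hx
  simp only [fs, List.mem_cons, List.not_mem_nil, or_false] at hx
  rcases hx with rfl | rfl | rfl | rfl | rfl
  · exact kfact_sound 5 6 rfl rfl (by norm_num) T1 f1 _ List.mem_cons_self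
  · exact kfact_sound 5 6 rfl rfl (by norm_num) T2 f2 _ List.mem_cons_self
  · exact kfact_sound 5 6 rfl rfl (by norm_num) T3 f3 _ List.mem_cons_self
  · exact kfact_sound 5 6 rfl rfl (by norm_num) T4 f4 _ List.mem_cons_self
  · exact kfact_sound 5 6 rfl rfl (by norm_num) T5 f5 _ List.mem_cons_self

/-- no lattice -/
theorem no {L : Set (Fin 3 → ℤ)} (hL : Lat 3 6 11 L) : False :=
  kroot_sound hL 5 6 rfl rfl (by norm_num) fs hfs T0 570564642 root1 root2

end TightIndep.D3_10
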