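import Pool.Agent.Lib.MP_f31b39_co.FastSound

/-!
# Tight `t`-independent sets: `m = 3`, `t = 11`
-/

namespace TightIndep.D3_11

set_option maxRecDepth 100000

def T1 : KT := .node 654450723 503435294 (.cons 419553309 0 1 .nil) (.node 503414814 587345953 (.cons 570589218 0 1 (.cons 654450723 16 0 .nil)) .nil .nil) .nil

theorem f1 : kchk 3 5 7 12 (koff 3) (Nat.mul 2 (koff 3)) T1 [] [] = true := by
  decide +kernel

def T2 : KT := .node 637677603 604119071 (.cons 637677603 1 0 .nil) (.node 604119066 553787428 (.cons 570560553 16 1 (.cons 637677603 16 0 .nil)) .nil .nil) .nil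

theorem f2 : kchk 3 5 7 12 (koff 3) (Nat.mul 2 (koff 3)) T2 [] [] = true := by
  decide +kernel

def T3 : KT := .node 620904483 486658081 (.cons 453099549 0 1 .nil) (.node 486658086 604119071 (.cons 587345946 0 1 (.cons 620904483 16 0 .nil)) .nil .nil) .nil

theorem f3 : kchk 3 5 7 12 (koff 3) (Nat.mul 2 (koff 3)) T3 [] [] = true := by
  decide +kernel

def T4 : KT := .node 637673508 503435294 (.cons 436330524 0 1 .nil) (.node 503414814 587329571 (.cons 637673508 16 0 (.cons 604086306 17 0 .nil)) .nil .nil) .nil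

theorem f4 : kchk 3 5 7 12 (koff 3) (Nat.mul 2 (koff 3)) T4 [] [] = true := by
  decide +kernel

def T5 : KT := .node 604127268 486658081 (.cons 469876764 0 1 .nil) (.node 486658086 604119071 (.cons 587345946 0 1 (.cons 654471198 16 1 .nil)) .nil .nil) .nil

theorem f5 : kchk 3 5 7 12 (koff 3) (Nat.mul 2 (koff 3)) T5 [] [] = true := by
  decide +kernel

def T6 : KT := .node 620896293 503435294 (.cons 453107739 0 1 .nil) (.node 503414814 587345953 (.cons 570589218 0 1 (.cons 620896293 16 0 .nil)) .nil .nil) .nil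

theorem f6 : kchk 3 5 7 12 (koff 3) (Nat.mul 2 (koff 3)) T6 [] [] = true := by
  decide +kernel

def T7 : KT := .node 570564648 587337763 (.cons 570564648 1 0 .nil) (.node 671223843 587341858 (.cons 671223843 1 0 .nil) (.node 587362338 486678562 (.cons 436342821 256 16 (.cons 587362338 1 0 .nil)) .nil .nil) .nil) .nil

theorem f7 : kchk 3 5 7 12 (koff 3) (Nat.mul 2 (koff 3)) T7 [] [] = true := by
  decide +kernel

def T0 : KT := .ref 604131363 620904483 288 288 0 (.ref 587358243 637677603 288 288 0 (.ref 570585123 654450723 288 288 0 (.ref 620900388 620904483 513 513 0 (.ref 587354148 620904483 258 33 0 (.ref 570581028 637673508 288 288 0 (.ref 604123173 620904483 33 258 0 (.ref 587350053 620904483 18 18 0 (.ref 570576933 620896293 288 288 0 (.ref 604119078 637673508 18 18 0 (.ref 587345958 637677603 33 258 0 (.ref 570572838 637673508 33 258 0 (.ref 587341863 654450723 18 18 0 (.ref 570568743 654450723 33 258 0 .nil)))))))))))))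

def fs : List ℕ := [654450723, 637677603, 620904483, 637673508, 604127268, 620896293, 570564648]

theorem root1 : knode 3 5 7 (koff 3) [] 570564643 .nil (fs ++ kxs T0) = true := by
  decide +kernel

theorem root2 : kchk 3 5 7 12 (koff 3) (Nat.mul 2 (koff 3)) T0 [] fs = true := by
  decide +kernel

theorem hfs : ∀ x ∈ fs, NNk 3 6 12 [x] := by
  intro x hx
  simp only [fs, List.mem_cons, List.not_mem_nil, or_false] at hx
  rcases hx with rfl | rfl | rfl | rfl | rfl | rfl | rfl
  · exact kfact_sound 5 7 rfl rfl (by norm_num) T1 f1 _ List.mem_cons_self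
  · exact kfact_sound 5 7 rfl rfl (by norm_num) T2 f2 _ List.mem_cons_self
  · exact kfact_sound 5 7 rfl rfl (by norm_num) T3 f3 _ List.mem_cons_self
  · exact kfact_sound 5 7 rfl rfl (by norm_num) T4 f4 _ List.mem_cons_self
  · exact kfact_sound 5 7 rfl rfl (by norm_num) T5 f5 _ List.mem_cons_self
  · exact kfact_sound 5 7 rfl rfl (by norm_num) T6 f6 _ List.mem_cons_self
  · exact kfact_sound 5 7 rfl rfl (by norm_num) T7 f7 _ List.mem_cons_self

/-- no lattice -/
theorem no {L : Set (Fin 3 → ℤ)} (hL : Lat 3 6 12 L) : False :=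
  kroot_sound hL 5 7 rfl rfl (by norm_num) fs hfs T0 570564643 root1 root2

end TightIndep.D3_11
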