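import Pool.Agent.Lib.MP_f31b39_co.FastSound

/-!
# Tight `t`-independent sets: `m = 3`, `t = 12`
-/

namespace TightIndep.D3_12

set_option maxRecDepth 100000

def T1 : KT := .node 671227939 503435294 (.cons 402776093 0 1 .nil) (.node 503410718 587345953 (.cons 570593314 0 1 (.cons 671227939 16 0 .nil)) .nil .nil) .nil

theorem f1 : kchk 3 6 7 13 (koff 3) (Nat.mul 2 (koff 3)) T1 [] [] = true := by
  decide +kernel

def T2 : KT := .node 654454819 604119071 (.cons 654454819 1 0 .nil) (.node 604119065 553787428 (.cons 654454819 16 0 (.cons 469884967 0 1 .nil)) .nil .nil) .nil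

theorem f2 : kchk 3 6 7 13 (koff 3) (Nat.mul 2 (koff 3)) T2 [] [] = true := by
  decide +kernel

def T3 : KT := .node 637681699 486658081 (.cons 436322333 0 1 .nil) (.node 486658087 604119071 (.cons 587345945 0 1 (.cons 637681699 16 0 .nil)) .nil .nil) .nil

theorem f3 : kchk 3 6 7 13 (koff 3) (Nat.mul 2 (koff 3)) T3 [] [] = true := by
  decide +kernel

def T4 : KT := .node 620908579 486658081 (.cons 453095453 0 1 .nil) (.node 486658087 604119071 (.cons 587345945 0 1 (.cons 620908579 16 0 .nil)) .nil .nil) .nil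

theorem f4 : kchk 3 6 7 13 (koff 3) (Nat.mul 2 (koff 3)) T4 [] [] = true := by
  decide +kernel

def T5 : KT := .node 654450724 503435294 (.cons 419553308 0 1 .nil) (.node 503410718 486678558 (.cons 453144606 0 17 (.cons 419553308 0 16 .nil)) .nil .nil) .nil

theorem f5 : kchk 3 6 7 13 (koff 3) (Nat.mul 2 (koff 3)) T5 [] [] = true := by
  decide +kernel

def T6 : KT := .node 620904484 486658081 (.cons 453099548 0 1 .nil) (.node 486658087 570548253 (.cons 453099548 0 16 (.cons 587345945 0 1 (.cons 671248413 16 1 .nil))) .nil .nil) .nil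

theorem f6 : kchk 3 6 7 13 (koff 3) (Nat.mul 2 (koff 3)) T6 [] [] = true := by
  decide +kernel

def T7 : KT := .node 637673509 503435294 (.cons 436330523 0 1 .nil) (.node 503410718 503455773 (.cons 469921821 0 17 (.cons 436330523 0 16 .nil)) .nil .nil) .nil

theorem f7 : kchk 3 6 7 13 (koff 3) (Nat.mul 2 (koff 3)) T7 [] [] = true := by
  decide +kernel

def T8 : KT := .node 570564649 587337763 (.cons 570564649 1 0 .nil) (.node 688001059 520228901 (.cons 570564649 16 0 (.cons 386002973 0 1 .nil)) .nil .nil) .nil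

theorem f8 : kchk 3 6 7 13 (koff 3) (Nat.mul 2 (koff 3)) T8 [] [] = true := by
  decide +kernel

def T0 : KT := .ref 604135459 637681699 288 288 0 (.ref 587362339 654454819 288 288 0 (.ref 570589219 671227939 288 288 0 (.ref 637677604 637681699 513 513 0 (.ref 604131364 620904484 288 288 0 (.ref 587358244 637681699 258 33 0 (.ref 570585124 654450724 288 288 0 (.ref 620900389 620908579 513 513 0 (.ref 604127269 620904484 33 258 0 (.ref 587354149 620908579 258 33 0 (.ref 570581029 637673509 288 288 0 (.ref 620896294 637673509 18 18 0 (.ref 604123174 637681699 33 258 0 (.ref 587350054 637681699 18 18 0 (.ref 570576934 637673509 33 258 0 (.ref 604119079 654450724 18 18 0 (.ref 587345959 654454819 33 258 0 (.ref 570572839 654450724 33 258 0 (.ref 587341864 671227939 18 18 0 (.ref 570568744 671227939 33 258 0 .nil)))))))))))))))))))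

def fs : List ℕ := [671227939, 654454819, 637681699, 620908579, 654450724, 620904484, 637673509, 570564649]

theorem root1 : knode 3 6 7 (koff 3) [] 570564643 .nil (fs ++ kxs T0) = true := by
  decide +kernel

theorem root2 : kchk 3 6 7 13 (koff 3) (Nat.mul 2 (koff 3)) T0 [] fs = true := by
  decide +kernel

theorem hfs : ∀ x ∈ fs, NNk 3 7 13 [x] := by
  intro x hx
  simp only [fs, List.mem_cons, List.not_mem_nil, or_false] at hx
  rcases hx with rfl | rfl | rfl | rfl | rfl | rfl | rfl | rfl
  · exact kfact_sound 6 7 rfl rfl (by norm_num) T1 f1 _ List.mem_cons_self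
  · exact kfact_sound 6 7 rfl rfl (by norm_num) T2 f2 _ List.mem_cons_self
  · exact kfact_sound 6 7 rfl rfl (by norm_num) T3 f3 _ List.mem_cons_self
  · exact kfact_sound 6 7 rfl rfl (by norm_num) T4 f4 _ List.mem_cons_self
  · exact kfact_sound 6 7 rfl rfl (by norm_num) T5 f5 _ List.mem_cons_self
  · exact kfact_sound 6 7 rfl rfl (by norm_num) T6 f6 _ List.mem_cons_self
  · exact kfact_sound 6 7 rfl rfl (by norm_num) T7 f7 _ List.mem_cons_self
  · exact kfact_sound 6 7 rfl rfl (by norm_num) T8 f8 _ List.mem_cons_self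

/-- no lattice -/
theorem no {L : Set (Fin 3 → ℤ)} (hL : Lat 3 7 13 L) : False :=
  kroot_sound hL 6 7 rfl rfl (by norm_num) fs hfs T0 570564643 root1 root2

end TightIndep.D3_12
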