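import Pool.Agent.Lib.MP_f31b39_co.FastSound

/-!
# Tight `t`-independent sets: `m = 3`, `t = 13`
-/

namespace TightIndep.D3_13

set_option maxRecDepth 100000

def T1 : KT := .node 671232035 570572834 (.cons 671232035 1 0 .nil) (.node 570597410 486653983 (.cons 402771997 0 16 (.cons 503406622 0 1 .nil)) .nil .nil) .nil

theorem f1 : kchk 3 6 8 14 (koff 3) (Nat.mul 2 (koff 3)) T1 [] [] = true := by
  decide +kernel

def T2 : KT := .node 654458915 503439388 (.cons 419545117 0 1 .nil) (.node 503439382 553791524 (.cons 570564650 0 1 (.cons 654458915 16 0 .nil)) .nil .nil) .nil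

theorem f2 : kchk 3 6 8 14 (koff 3) (Nat.mul 2 (koff 3)) T2 [] [] = true := by
  decide +kernel

def T3 : KT := .node 637685795 503439388 (.cons 436318237 0 1 .nil) (.node 503439382 503455780 (.cons 469880871 0 17 (.cons 637685795 16 0 .nil)) .nil .nil) .nil

theorem f3 : kchk 3 6 8 14 (koff 3) (Nat.mul 2 (koff 3)) T3 [] [] = true := by
  decide +kernel

def T4 : KT := .node 570593315 486658078 (.cons 503410717 0 1 .nil) (.node 385994782 486653983 (.cons 503410717 0 16 (.cons 385994782 1 0 .nil)) .nil .nil) .nil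

theorem f4 : kchk 3 6 8 14 (koff 3) (Nat.mul 2 (koff 3)) T4 [] [] = true := by
  decide +kernel

def T5 : KT := .node 637681700 469880865 (.cons 436322332 0 1 .nil) (.node 469880871 503455780 (.cons 469880871 1 0 (.cons 637681700 16 0 .nil)) .nil .nil) .nil

theorem f5 : kchk 3 6 8 14 (koff 3) (Nat.mul 2 (koff 3)) T5 [] [] = true := by
  decide +kernel

def T6 : KT := .node 620908580 520241187 (.cons 620908580 1 0 .nil) (.node 419577891 503455780 (.cons 419577891 1 0 (.cons 503484455 17 0 .nil)) .nil .nil) .nil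

theorem f6 : kchk 3 6 8 14 (koff 3) (Nat.mul 2 (koff 3)) T6 [] [] = true := by
  decide +kernel

def T7 : KT := .node 570589220 486658078 (.cons 503414812 0 1 .nil) (.node 385994782 587341859 (.cons 688009250 0 1 (.cons 570589220 16 0 .nil)) .nil .nil) .nil

theorem f7 : kchk 3 6 8 14 (koff 3) (Nat.mul 2 (koff 3)) T7 [] [] = true := by
  decide +kernel

def T8 : KT := .node 570585125 486658078 (.cons 503418907 0 1 .nil) (.node 385994782 587341859 (.cons 688009250 0 1 (.cons 570585125 16 0 .nil)) .nil .nil) .nil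

theorem f8 : kchk 3 6 8 14 (koff 3) (Nat.mul 2 (koff 3)) T8 [] [] = true := by
  decide +kernel

def T9 : KT := .node 570581030 486658078 (.cons 503423002 0 1 .nil) (.node 385994782 587341859 (.cons 688009250 0 1 (.cons 570581030 16 0 .nil)) .nil .nil) .nil

theorem f9 : kchk 3 6 8 14 (koff 3) (Nat.mul 2 (koff 3)) T9 [] [] = true := by
  decide +kernel

def T0 : KT := .ref 620912675 637685795 288 288 0 (.ref 604139555 654458915 288 288 0 (.ref 587366435 671232035 288 288 0 (.ref 654454820 654458915 513 513 0 (.ref 604135460 637681700 288 288 0 (.ref 587362340 654458915 258 33 0 (.ref 637677605 637685795 513 513 0 (.ref 620904485 620908580 513 513 0 (.ref 604131365 620908580 258 33 0 (.ref 587358245 637685795 258 33 0 (.ref 620900390 637685795 33 258 0 (.ref 604127270 637681700 33 258 0 (.ref 587354150 637685795 18 18 0 (.ref 604123175 654458915 33 258 0 (.ref 587350055 654458915 18 18 0 (.ref 570576935 570585125 513 513 0 (.ref 587345960 671232035 33 258 0 (.ref 570572840 570589220 513 513 0 (.ref 570568745 570593315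 513 513 0 .nil))))))))))))))))))

def fs : List ℕ := [671232035, 654458915, 637685795, 570593315, 637681700, 620908580, 570589220, 570585125, 570581030]

theorem root1 : knode 3 6 8 (koff 3) [] 570568739 .nil (fs ++ kxs T0) = true := by
  decide +kernel

theorem root2 : kchk 3 6 8 14 (koff 3) (Nat.mul 2 (koff 3)) T0 [] fs = true := by
  decide +kernel

theorem hfs : ∀ x ∈ fs, NNk 3 7 14 [x] := by
  intro x hx
  simp only [fs, List.mem_cons, List.not_mem_nil, or_false] at hx
  rcases hx with rfl | rfl | rfl | rfl | rfl | rfl | rfl | rfl | rfl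
  · exact kfact_sound 6 8 rfl rfl (by norm_num) T1 f1 _ List.mem_cons_self
  · exact kfact_sound 6 8 rfl rfl (by norm_num) T2 f2 _ List.mem_cons_self
  · exact kfact_sound 6 8 rfl rfl (by norm_num) T3 f3 _ List.mem_cons_self
  · exact kfact_sound 6 8 rfl rfl (by norm_num) T4 f4 _ List.mem_cons_self
  · exact kfact_sound 6 8 rfl rfl (by norm_num) T5 f5 _ List.mem_cons_self
  · exact kfact_sound 6 8 rfl rfl (by norm_num) T6 f6 _ List.mem_cons_self
  · exact kfact_sound 6 8 rfl rfl (by norm_num) T7 f7 _ List.mem_cons_self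
  · exact kfact_sound 6 8 rfl rfl (by norm_num) T8 f8 _ List.mem_cons_self
  · exact kfact_sound 6 8 rfl rfl (by norm_num) T9 f9 _ List.mem_cons_self

/-- no lattice -/
theorem no {L : Set (Fin 3 → ℤ)} (hL : Lat 3 7 14 L) : False :=
  kroot_sound hL 6 8 rfl rfl (by norm_num) fs hfs T0 570568739 root1 root2

end TightIndep.D3_13
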