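import Pool.Agent.Lib.MP_f31b39_co.FastSound

/-!
# Tight `t`-independent sets: `m = 3`, `t = 14`
-/

namespace TightIndep.D3_14

set_option maxRecDepth 100000

def T1 : KT := .node 688009251 570572834 (.cons 688009251 1 0 .nil) (.node 570601506 486653983 (.cons 385994781 0 16 (.cons 503402526 0 1 .nil)) .nil .nil) .nil

theorem f1 : kchk 3 7 8 15 (koff 3) (Nat.mul 2 (koff 3)) T1 [] [] = true := by
  decide +kernel

def T2 : KT := .node 671236131 503439388 (.cons 402767901 0 1 .nil) (.node 503439381 469884962 (.cons 436330536 0 17 (.cons 402767901 0 16 .nil)) .nil .nil) .nil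

theorem f2 : kchk 3 7 8 15 (koff 3) (Nat.mul 2 (koff 3)) T2 [] [] = true := by
  decide +kernel

def T3 : KT := .node 654463011 503439388 (.cons 419541021 0 1 .nil) (.node 503439381 503435299 (.cons 453103656 0 17 (.cons 335642661 0 33 .nil)) .nil .nil) .nil

theorem f3 : kchk 3 7 8 15 (koff 3) (Nat.mul 2 (koff 3)) T3 [] [] = true := by
  decide +kernel

def T4 : KT := .node 637689891 503439388 (.cons 436314141 0 1 .nil) (.node 503439381 503435299 (.cons 469876776 0 17 .nil) .nil .nil) .nil

theorem f4 : kchk 3 7 8 15 (koff 3) (Nat.mul 2 (koff 3)) T4 [] [] = true := by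
  decide +kernel

def T5 : KT := .node 570597411 486658078 (.cons 503406621 0 1 .nil) (.node 369217566 486653983 (.cons 503406621 0 16 (.cons 369217566 1 0 .nil)) .nil .nil) .nil

theorem f5 : kchk 3 7 8 15 (koff 3) (Nat.mul 2 (koff 3)) T5 [] [] = true := by
  decide +kernel

def T6 : KT := .node 654458916 469880865 (.cons 419545116 0 1 .nil) (.node 469880872 503455780 (.cons 469880872 1 0 (.cons 654458916 16 0 .nil)) .nil .nil) .nil

theorem f6 : kchk 3 7 8 15 (koff 3) (Nat.mul 2 (koff 3)) T6 [] [] = true := by
  decide +kernel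

def T7 : KT := .node 637685796 520241187 (.cons 637685796 1 0 .nil) (.node 402800675 503455780 (.cons 402800675 1 0 (.cons 503484455 17 0 .nil)) .nil .nil) .nil

theorem f7 : kchk 3 7 8 15 (koff 3) (Nat.mul 2 (koff 3)) T7 [] [] = true := by
  decide +kernel

def T8 : KT := .node 570593316 486658078 (.cons 503410716 0 1 .nil) (.node 369217566 587341859 (.cons 704786466 0 1 (.cons 570593316 16 0 .nil)) .nil .nil) .nil

theorem f8 : kchk 3 7 8 15 (koff 3) (Nat.mul 2 (koff 3)) T8 [] [] = true := by
  decide +kernel

def T9 : KT := .node 620908581 587329572 (.cons 620908581 1 0 .nil) (.node 587300900 503459875 (.cons 620908581 16 0 (.cons 402796567 0 17 .nil)) .nil .nil) .nil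

theorem f9 : kchk 3 7 8 15 (koff 3) (Nat.mul 2 (koff 3)) T9 [] [] = true := by
  decide +kernel

def T10 : KT := .node 570589221 486658078 (.cons 503414811 0 1 .nil) (.node 369217566 503459875 (.cons 402804771 17 0 (.cons 570589221 16 0 .nil)) .nil .nil) .nil

theorem f10 : kchk 3 7 8 15 (koff 3) (Nat.mul 2 (koff 3)) T10 [] [] = true := by
  decide +kernel

def T11 : KT := .node 570585126 486658078 (.cons 503418906 0 1 .nil) (.node 369217566 503459875 (.cons 402800676 17 0 .nil) .nil .nil) .nil

theorem f11 : kchk 3 7 8 15 (koff 3) (Nat.mul 2 (koff 3)) T11 [] [] = true := by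
  decide +kernel

def x1 : KT := .ref 620916771 654463011 288 288 0 (.ref 604143651 671236131 288 288 0 (.ref 587370531 688009251 288 288 0 (.ref 671232036 671236131 513 513 0 (.ref 620912676 637685796 288 288 0 (.ref 604139556 654458916 288 288 0 (.ref 587366436 671236131 258 33 0 (.ref 654454821 654463011 513 513 0 (.ref 637681701 637685796 513 513 0 (.ref 604135461 637685796 258 33 0 (.ref 587362341 654463011 258 33 0 (.ref 637677606 637689891 513 513 0 (.ref 620904486 637685796 33 258 0 (.ref 604131366 637685796 18 18 0 (.ref 587358246 637689891 258 33 0 (.ref 620900391 654463011 33 258 0 (.ref 604127271 654458916 33 258 0 (.ref 587354151 654463011 18 18 0 (.ref 570581031 570585126 513 513 0 (.ref 604123176 671236131 33 258 0 (.ref 587350056 671236131 18 18 0 (.ref 570576936 570589221 513 513 0 (.ref 587345961 688009251 33 258 0 (.ref 570572841 570593316 513 513 0 (.ref 570568746 570597411 513 513 0 .nil))))))))))))))))))))))))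

def T0 : KT := x1

def fs : List ℕ := [688009251, 671236131, 654463011, 637689891, 570597411, 654458916, 637685796, 570593316, 620908581, 570589221, 570585126]

theorem root1 : knode 3 7 8 (koff 3) [] 570568739 .nil (fs ++ kxs T0) = true := by
  decide +kernel

theorem root2 : kchk 3 7 8 15 (koff 3) (Nat.mul 2 (koff 3)) T0 [] fs = true := by
  decide +kernel

theorem hfs : ∀ x ∈ fs, NNk 3 8 15 [x] := by
  intro x hx
  simp only [fs, List.mem_cons, List.not_mem_nil, or_false] at hx
  rcases hx with rfl | rfl | rfl | rfl | rfl | rfl | rfl | rfl | rfl | rfl | rfl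
  · exact kfact_sound 7 8 rfl rfl (by norm_num) T1 f1 _ List.mem_cons_self
  · exact kfact_sound 7 8 rfl rfl (by norm_num) T2 f2 _ List.mem_cons_self
  · exact kfact_sound 7 8 rfl rfl (by norm_num) T3 f3 _ List.mem_cons_self
  · exact kfact_sound 7 8 rfl rfl (by norm_num) T4 f4 _ List.mem_cons_self
  · exact kfact_sound 7 8 rfl rfl (by norm_num) T5 f5 _ List.mem_cons_self
  · exact kfact_sound 7 8 rfl rfl (by norm_num) T6 f6 _ List.mem_cons_self
  · exact kfact_sound 7 8 rfl rfl (by norm_num) T7 f7 _ List.mem_cons_self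
  · exact kfact_sound 7 8 rfl rfl (by norm_num) T8 f8 _ List.mem_cons_self
  · exact kfact_sound 7 8 rfl rfl (by norm_num) T9 f9 _ List.mem_cons_self
  · exact kfact_sound 7 8 rfl rfl (by norm_num) T10 f10 _ List.mem_cons_self
  · exact kfact_sound 7 8 rfl rfl (by norm_num) T11 f11 _ List.mem_cons_self

/-- no lattice -/
theorem no {L : Set (Fin 3 → ℤ)} (hL : Lat 3 8 15 L) : False :=
  kroot_sound hL 7 8 rfl rfl (by norm_num) fs hfs T0 570568739 root1 root2

end TightIndep.D3_14
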