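import Pool.Agent.Lib.MP_f31b39_co.FastSound

/-!
# Tight `t`-independent sets: `m = 3`, `t = 15`
-/

namespace TightIndep.D3_15

set_option maxRecDepth 100000

def T1 : KT := .node 704786467 486662172 (.cons 369217565 0 1 .nil) (.node 486662165 604114980 (.cons 587341867 0 1 (.cons 704786467 16 0 .nil)) .nil .nil) .nil

theorem f1 : kchk 3 7 9 16 (koff 3) (Nat.mul 2 (koff 3)) T1 [] [] = true := by
  decide +kernel

def T2 : KT := .node 688013347 486662172 (.cons 385990685 0 1 .nil) (.node 486662165 503435292 (.cons 385990685 0 16 (.cons 486662165 1 0 .nil)) .nil .nil) .nil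

theorem f2 : kchk 3 7 9 16 (koff 3) (Nat.mul 2 (koff 3)) T2 [] [] = true := by
  decide +kernel

def T3 : KT := .node 671240227 486662172 (.cons 402763805 0 1 .nil) (.node 486662165 503435292 (.cons 402763805 0 16 (.cons 486662165 1 0 .nil)) .nil .nil) .nil

theorem f3 : kchk 3 7 9 16 (koff 3) (Nat.mul 2 (koff 3)) T3 [] [] = true := by
  decide +kernel

def T4 : KT := .node 654467107 486662172 (.cons 419536925 0 1 .nil) (.node 486662165 503435292 (.cons 419536925 0 16 (.cons 486662165 1 0 .nil)) .nil .nil) .nil

theorem f4 : kchk 3 7 9 16 (koff 3) (Nat.mul 2 (koff 3)) T4 [] [] = true := by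
  decide +kernel

def T5 : KT := .node 671236132 503427102 (.cons 402767900 0 1 .nil) (.node 503398430 453120029 (.cons 436371486 0 17 (.cons 402767900 0 16 .nil)) .nil .nil) .nil

theorem f5 : kchk 3 7 9 16 (koff 3) (Nat.mul 2 (koff 3)) T5 [] [] = true := by
  decide +kernel

def T6 : KT := .node 654463012 604127263 (.cons 654463012 1 0 .nil) (.node 604127256 620896286 (.cons 604127256 1 0 (.cons 654463012 16 0 .nil)) .nil .nil) .nil

theorem f6 : kchk 3 7 9 16 (koff 3) (Nat.mul 2 (koff 3)) T6 [] [] = true := by
  decide +kernel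

def T7 : KT := .node 637689892 604127263 (.cons 637689892 1 0 .nil) (.node 604127256 620896286 (.cons 604127256 1 0 (.cons 704815132 17 0 .nil)) .nil .nil) .nil

theorem f7 : kchk 3 7 9 16 (koff 3) (Nat.mul 2 (koff 3)) T7 [] [] = true := by
  decide +kernel

def T8 : KT := .node 637685797 604127263 (.cons 637685797 1 0 .nil) (.node 604127256 620896286 (.cons 604127256 1 0 (.cons 704811037 17 0 .nil)) .nil .nil) .nil

theorem f8 : kchk 3 7 9 16 (koff 3) (Nat.mul 2 (koff 3)) T8 [] [] = true := by
  decide +kernel

def x1 : KT := .ref 587374627 704786467 288 288 0 (.ref 688009252 688013347 513 513 0 (.ref 620916772 654463012 288 288 0 (.ref 604143652 671236132 288 288 0 (.ref 587370532 688013347 258 33 0 (.ref 671232037 671240227 513 513 0 (.ref 654458917 654463012 513 513 0 (.ref 620912677 637685797 288 288 0 (.ref 604139557 654463012 258 33 0 (.ref 587366437 671240227 258 33 0 (.ref 654454822 654467107 513 513 0 (.ref 637681702 637689892 513 513 0 (.ref 620908582 637685797 33 258 0 (.ref 604135462 637689892 258 33 0 (.ref 587362342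 654467107 258 33 0 (.ref 637677607 654467107 33 258 0 (.ref 620904487 654463012 33 258 0 (.ref 604131367 654463012 18 18 0 (.ref 587358247 654467107 18 18 0 (.ref 620900392 671240227 33 258 0 (.ref 604127272 671236132 33 258 0 (.ref 587354152 671240227 18 18 0 (.ref 604123177 688013347 33 258 0 (.ref 587350057 688013347 18 18 0 (.ref 587345962 704786467 33 258 0 .nil))))))))))))))))))))))))

def T0 : KT := .ref 637693987 654467107 288 288 0 (.ref 620920867 671240227 288 288 0 (.ref 604147747 688013347 288 288 0 x1))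

def fs : List ℕ := [704786467, 688013347, 671240227, 654467107, 671236132, 654463012, 637689892, 637685797]

theorem root1 : knode 3 7 9 (koff 3) [] 587345955 .nil (fs ++ kxs T0) = true := by
  decide +kernel

theorem root2 : kchk 3 7 9 16 (koff 3) (Nat.mul 2 (koff 3)) T0 [] fs = true := by
  decide +kernel

theorem hfs : ∀ x ∈ fs, NNk 3 8 16 [x] := by
  intro x hx
  simp only [fs, List.mem_cons, List.not_mem_nil, or_false] at hx
  rcases hx with rfl | rfl | rfl | rfl | rfl | rfl | rfl | rfl
  · exact kfact_sound 7 9 rfl rfl (by norm_num) T1 f1 _ List.mem_cons_self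
  · exact kfact_sound 7 9 rfl rfl (by norm_num) T2 f2 _ List.mem_cons_self
  · exact kfact_sound 7 9 rfl rfl (by norm_num) T3 f3 _ List.mem_cons_self
  · exact kfact_sound 7 9 rfl rfl (by norm_num) T4 f4 _ List.mem_cons_self
  · exact kfact_sound 7 9 rfl rfl (by norm_num) T5 f5 _ List.mem_cons_self
  · exact kfact_sound 7 9 rfl rfl (by norm_num) T6 f6 _ List.mem_cons_self
  · exact kfact_sound 7 9 rfl rfl (by norm_num) T7 f7 _ List.mem_cons_self
  · exact kfact_sound 7 9 rfl rfl (by norm_num) T8 f8 _ List.mem_cons_self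

/-- no lattice -/
theorem no {L : Set (Fin 3 → ℤ)} (hL : Lat 3 8 16 L) : False :=
  kroot_sound hL 7 9 rfl rfl (by norm_num) fs hfs T0 587345955 root1 root2

end TightIndep.D3_15
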