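import Pool.Agent.Lib.MP_f31b39_co.FastSound

/-!
# Tight `t`-independent sets: `m = 3`, `t = 4`
-/

namespace TightIndep.D3_4

set_option maxRecDepth 100000

def T1 : KT := .node 587337761 520220705 (.cons 486666271 0 1 .nil) (.node 520212513 520228895 (.cons 503455774 0 17 .nil) .nil (.node 520216610 520228895 (.cons 553787422 0 1 (.cons 486666271 0 16 .nil)) .nil (.node 520220707 553779234 (.cons 570556452 17 0 (.cons 520220707 1 0 (.cons 587337761 16 0 .nil))) .nil .nil))) .nil

theorem f1 : kchk 3 2 3 5 (koff 3) (Nat.mul 2 (koff 3)) T1 [] [] = true := by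
  decide +kernel

def T2 : KT := .node 570564641 520220705 (.cons 503439391 0 1 .nil) (.node 520220707 553779234 (.cons 520220707 1 0 (.cons 570564641 16 0 .nil)) .nil .nil) .nil

theorem f2 : kchk 3 2 3 5 (koff 3) (Nat.mul 2 (koff 3)) T2 [] [] = true := by
  decide +kernel

def T0 : KT := .ref 553791521 587337761 288 288 0 (.ref 570560546 570564641 513 513 0 (.ref 553787426 570564641 258 33 0 (.ref 553783331 587337761 33 258 0 .nil)))

def fs : List ℕ := [587337761, 570564641]

theorem root1 : knode 3 2 3 (koff 3) [] 553783329 .nil (fs ++ kxs T0) = true := by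
  decide +kernel

theorem root2 : kchk 3 2 3 5 (koff 3) (Nat.mul 2 (koff 3)) T0 [] fs = true := by
  decide +kernel

theorem hfs : ∀ x ∈ fs, NNk 3 3 5 [x] := by
  intro x hx
  simp only [fs, List.mem_cons, List.not_mem_nil, or_false] at hx
  rcases hx with rfl | rfl
  · exact kfact_sound 2 3 rfl rfl (by norm_num) T1 f1 _ List.mem_cons_self
  · exact kfact_sound 2 3 rfl rfl (by norm_num) T2 f2 _ List.mem_cons_self

/-- no lattice -/
theorem no {L : Set (Fin 3 → ℤ)} (hL : Lat 3 3 5 L) : False :=
  kroot_sound hL 2 3 rfl rfl (by norm_num) fs hfs T0 553783329 root1 root2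

end TightIndep.D3_4
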