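import Pool.Agent.Lib.MP_f31b39_co.FastSound

/-!
# Tight `t`-independent sets: `m = 3`, `t = 6`
-/

namespace TightIndep.D3_6

set_option maxRecDepth 100000

def T1 : KT := .node 604114978 570552353 (.cons 604114978 1 0 .nil) (.node 570540065 553787425 (.cons 604114978 16 0 (.cons 503463967 0 1 .nil)) .nil .nil) .nil

theorem f1 : kchk 3 3 4 7 (koff 3) (Nat.mul 2 (koff 3)) T1 [] [] = true := by
  decide +kernel

def T2 : KT := .node 587341858 570560543 (.cons 587341858 1 0 .nil) (.node 570560540 520228898 (.cons 503443492 0 1 (.cons 587341858 16 0 .nil)) .nil .nil) .nil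

theorem f2 : kchk 3 3 4 7 (koff 3) (Nat.mul 2 (koff 3)) T2 [] [] = true := by
  decide +kernel

def T3 : KT := .node 587337763 570552353 (.cons 587337763 1 0 .nil) (.node 570540065 553787425 (.cons 587337763 16 0 (.cons 503463967 0 1 .nil)) .nil .nil) .nil

theorem f3 : kchk 3 3 4 7 (koff 3) (Nat.mul 2 (koff 3)) T3 [] [] = true := by
  decide +kernel

def T4 : KT := .node 553783333 570560545 (.cons 553783333 1 0 .nil) (.node 620892193 553787425 (.cons 620892193 1 0 (.cons 553783333 16 0 .nil)) (.node 553799713 570560543 (.cons 620908573 17 256 (.cons 520220699 0 256 .nil)) .nil .nil) (.node 604119073 570560543 (.cons 604119073 1 0 (.cons 520220699 0 16 .nil)) .nil (.node 587345953 570560543 (.cons 587345953 1 0 (.cons 520220699 0 16 .nil)) .nil (.ref 570572833 604119073 288 288 0 .nil)))) .nil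

theorem f4 : kchk 3 3 4 7 (koff 3) (Nat.mul 2 (koff 3)) T4 [] [] = true := by
  decide +kernel

def T0 : KT := .ref 570568738 587341858 288 288 0 (.ref 553795618 604114978 288 288 0 (.ref 570564643 587341858 33 258 0 (.ref 553791523 587337763 288 288 0 (.ref 570560548 604114978 18 18 0 (.ref 553787428 604114978 33 258 0 .nil)))))

def fs : List ℕ := [604114978, 587341858, 587337763, 553783333]

theorem root1 : knode 3 3 4 (koff 3) [] 553783330 .nil (fs ++ kxs T0) = true := by
  decide +kernel

theorem root2 : kchk 3 3 4 7 (koff 3) (Nat.mul 2 (koff 3)) T0 [] fs = true := by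
  decide +kernel

theorem hfs : ∀ x ∈ fs, NNk 3 4 7 [x] := by
  intro x hx
  simp only [fs, List.mem_cons, List.not_mem_nil, or_false] at hx
  rcases hx with rfl | rfl | rfl | rfl
  · exact kfact_sound 3 4 rfl rfl (by norm_num) T1 f1 _ List.mem_cons_self
  · exact kfact_sound 3 4 rfl rfl (by norm_num) T2 f2 _ List.mem_cons_self
  · exact kfact_sound 3 4 rfl rfl (by norm_num) T3 f3 _ List.mem_cons_self
  · exact kfact_sound 3 4 rfl rfl (by norm_num) T4 f4 _ List.mem_cons_self

/-- no lattice -/
theorem no {L : Set (Fin 3 → ℤ)} (hL : Lat 3 4 7 L) : False :=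
  kroot_sound hL 3 4 rfl rfl (by norm_num) fs hfs T0 553783330 root1 root2

end TightIndep.D3_6
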