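import Pool.Agent.Lib.MP_f31b39_co.FastSound

/-!
# Tight `t`-independent sets: `m = 3`, `t = 7`
-/

namespace TightIndep.D3_7

set_option maxRecDepth 100000

def T1 : KT := .node 604119074 587329569 (.cons 604119074 1 0 .nil) (.node 587317281 570548255 (.cons 587317281 1 0 .nil) (.node 570548252 570564639 (.cons 587350045 257 16 .nil) .nil .nil) .nil) .nil

theorem f1 : kchk 3 3 5 8 (koff 3) (Nat.mul 2 (koff 3)) T1 [] [] = true := by
  decide +kernel

def T2 : KT := .node 587345954 570564639 (.cons 587345954 1 0 .nil) (.node 570564636 553791519 (.cons 570564636 1 0 (.cons 620908574 17 0 .nil)) .nil .nil) .nil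

theorem f2 : kchk 3 3 5 8 (koff 3) (Nat.mul 2 (koff 3)) T2 [] [] = true := by
  decide +kernel

def T3 : KT := .node 553799714 503439391 (.cons 520204318 0 1 .nil) (.node 453107743 503443486 (.cons 453107743 1 0 .nil) (.node 503443483 570564639 (.cons 587337756 1 16 (.cons 520241181 257 0 .nil)) .nil .nil) .nil) .nil

theorem f3 : kchk 3 3 5 8 (koff 3) (Nat.mul 2 (koff 3)) T3 [] [] = true := by
  decide +kernel

def T4 : KT := .node 553795619 503443486 (.cons 520208413 0 1 .nil) (.node 453111838 503439391 (.cons 520208413 0 16 (.cons 453111838 1 0 .nil)) .nil .nil) .nil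

theorem f4 : kchk 3 3 5 8 (koff 3) (Nat.mul 2 (koff 3)) T4 [] [] = true := by
  decide +kernel

def T0 : KT := .ref 570572834 604119074 288 288 0 (.ref 587341859 587345954 513 513 0 (.ref 570568739 587345954 258 33 0 (.ref 570564644 604119074 33 258 0 (.ref 553791524 553795619 513 513 0 (.ref 553787429 553799714 513 513 0 .nil)))))

def fs : List ℕ := [604119074, 587345954, 553799714, 553795619]

theorem root1 : knode 3 3 5 (koff 3) [] 553787426 .nil (fs ++ kxs T0) = true := by
  decide +kernel

theorem root2 : kchk 3 3 5 8 (koff 3) (Nat.mul 2 (koff 3)) T0 [] fs = true := by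
  decide +kernel

theorem hfs : ∀ x ∈ fs, NNk 3 4 8 [x] := by
  intro x hx
  simp only [fs, List.mem_cons, List.not_mem_nil, or_false] at hx
  rcases hx with rfl | rfl | rfl | rfl
  · exact kfact_sound 3 5 rfl rfl (by norm_num) T1 f1 _ List.mem_cons_self
  · exact kfact_sound 3 5 rfl rfl (by norm_num) T2 f2 _ List.mem_cons_self
  · exact kfact_sound 3 5 rfl rfl (by norm_num) T3 f3 _ List.mem_cons_self
  · exact kfact_sound 3 5 rfl rfl (by norm_num) T4 f4 _ List.mem_cons_self

/-- no lattice -/
theorem no {L : Set (Fin 3 → ℤ)} (hL : Lat 3 4 8 L) : False :=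
  kroot_sound hL 3 5 rfl rfl (by norm_num) fs hfs T0 553787426 root1 root2

end TightIndep.D3_7
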