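import Pool.Agent.Lib.MP_f31b39_co.FastSound

/-!
# Tight `t`-independent sets: `m = 3`, `t = 8`
-/

namespace TightIndep.D3_8

set_option maxRecDepth 100000

def T1 : KT := .node 620896290 587329569 (.cons 620896290 1 0 .nil) (.node 587313185 553791521 (.cons 620896290 16 0 (.cons 486690847 0 1 .nil)) .nil .nil) .nil

theorem f1 : kchk 3 4 5 9 (koff 3) (Nat.mul 2 (koff 3)) T1 [] [] = true := by
  decide +kernel

def T2 : KT := .node 604123170 570564639 (.cons 604123170 1 0 .nil) (.node 570564635 553775139 (.cons 503439397 0 1 (.cons 604123170 16 0 .nil)) .nil .nil) .nil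

theorem f2 : kchk 3 4 5 9 (koff 3) (Nat.mul 2 (koff 3)) T2 [] [] = true := by
  decide +kernel

def T3 : KT := .node 553803810 503439391 (.cons 520200222 0 1 .nil) (.node 436330527 520237089 (.cons 553803810 16 0 (.cons 436330527 1 0 .nil)) .nil .nil) .nil

theorem f3 : kchk 3 4 5 9 (koff 3) (Nat.mul 2 (koff 3)) T3 [] [] = true := by
  decide +kernel

def T4 : KT := .node 587345955 570564639 (.cons 587345955 1 0 .nil) (.node 570564635 520232994 (.cons 587345955 16 0 (.cons 453095458 0 17 .nil)) .nil .nil) .nil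

theorem f4 : kchk 3 4 5 9 (koff 3) (Nat.mul 2 (koff 3)) T4 [] [] = true := by
  decide +kernel

def T5 : KT := .node 553799715 503443486 (.cons 520204317 0 1 .nil) (.node 436334622 503439391 (.cons 520204317 0 16 (.cons 436334622 1 0 .nil)) .nil .nil) .nil

theorem f5 : kchk 3 4 5 9 (koff 3) (Nat.mul 2 (koff 3)) T5 [] [] = true := by
  decide +kernel

def T6 : KT := .node 553795620 503443486 (.cons 520208412 0 1 .nil) (.node 436334622 503439391 (.cons 520208412 0 16 (.cons 436334622 1 0 .nil)) .nil .nil) .nil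

theorem f6 : kchk 3 4 5 9 (koff 3) (Nat.mul 2 (koff 3)) T6 [] [] = true := by
  decide +kernel

def T0 : KT := .ref 587350050 604123170 288 288 0 (.ref 570576930 620896290 288 288 0 (.ref 604119075 604123170 513 513 0 (.ref 570572835 604123170 258 33 0 (.ref 587341860 604123170 33 258 0 (.ref 570568740 604123170 18 18 0 (.ref 570564645 620896290 33 258 0 (.ref 553791525 553799715 513 513 0 (.ref 553787430 553803810 513 513 0 .nil))))))))

def fs : List ℕ := [620896290, 604123170, 553803810, 587345955, 553799715, 553795620]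

theorem root1 : knode 3 4 5 (koff 3) [] 553787426 .nil (fs ++ kxs T0) = true := by
  decide +kernel

theorem root2 : kchk 3 4 5 9 (koff 3) (Nat.mul 2 (koff 3)) T0 [] fs = true := by
  decide +kernel

theorem hfs : ∀ x ∈ fs, NNk 3 5 9 [x] := by
  intro x hx
  simp only [fs, List.mem_cons, List.not_mem_nil, or_false] at hx
  rcases hx with rfl | rfl | rfl | rfl | rfl | rfl
  · exact kfact_sound 4 5 rfl rfl (by norm_num) T1 f1 _ List.mem_cons_self
  · exact kfact_sound 4 5 rfl rfl (by norm_num) T2 f2 _ List.mem_cons_self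
  · exact kfact_sound 4 5 rfl rfl (by norm_num) T3 f3 _ List.mem_cons_self
  · exact kfact_sound 4 5 rfl rfl (by norm_num) T4 f4 _ List.mem_cons_self
  · exact kfact_sound 4 5 rfl rfl (by norm_num) T5 f5 _ List.mem_cons_self
  · exact kfact_sound 4 5 rfl rfl (by norm_num) T6 f6 _ List.mem_cons_self

/-- no lattice -/
theorem no {L : Set (Fin 3 → ℤ)} (hL : Lat 3 5 9 L) : False :=
  kroot_sound hL 4 5 rfl rfl (by norm_num) fs hfs T0 553787426 root1 root2

end TightIndep.D3_8
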