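import Pool.Agent.Lib.MP_f31b39_co.FastSound

/-!
# Tight `t`-independent sets: `m = 3`, `t = 9`
-/

namespace TightIndep.D3_9

set_option maxRecDepth 100000

def T1 : KT := .node 637673506 503435295 (.cons 436330526 0 1 .nil) (.node 503418911 503455774 (.cons 469913631 0 17 .nil) (.node 503455770 503439394 (.cons 469876772 0 257 .nil) .nil .nil) .nil) .nil

theorem f1 : kchk 3 4 6 10 (koff 3) (Nat.mul 2 (koff 3)) T1 [] [] = true := by
  decide +kernel

def T2 : KT := .node 620900386 553787427 (.cons 620900386 1 0 .nil) (.node 553787431 486662177 (.cons 453103646 0 16 (.cons 469889061 1 16 .nil)) .nil .nil) .nil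

theorem f2 : kchk 3 4 6 10 (koff 3) (Nat.mul 2 (koff 3)) T2 [] [] = true := by
  decide +kernel

def T3 : KT := .node 604127266 553787427 (.cons 604127266 1 0 .nil) (.node 553787431 553791518 (.cons 587341851 16 1 (.cons 654467101 32 1 .nil)) .nil .nil) .nil

theorem f3 : kchk 3 4 6 10 (koff 3) (Nat.mul 2 (koff 3)) T3 [] [] = true := by
  decide +kernel

def T4 : KT := .node 604123171 486674462 (.cons 469880861 0 1 .nil) (.node 486690846 520237090 (.cons 486690846 1 0 (.cons 604123171 16 0 .nil)) .nil .nil) .nil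

theorem f4 : kchk 3 4 6 10 (koff 3) (Nat.mul 2 (koff 3)) T4 [] [] = true := by
  decide +kernel

def T0 : KT := .ref 587354146 620900386 288 288 0 (.ref 570581026 637673506 288 288 0 (.ref 620896291 620900386 513 513 0 (.ref 587350051 604123171 288 288 0 (.ref 570576931 620900386 258 33 0 (.ref 604119076 604127266 513 513 0 (.ref 587345956 604123171 33 258 0 (.ref 570572836 604127266 258 33 0 (.ref 587341861 620900386 33 258 0 (.ref 570568741 620900386 18 18 0 (.ref 570564646 637673506 33 258 0 .nil))))))))))

def fs : List ℕ := [637673506, 620900386, 604127266, 604123171]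

theorem root1 : knode 3 4 6 (koff 3) [] 570564642 .nil (fs ++ kxs T0) = true := by
  decide +kernel

theorem root2 : kchk 3 4 6 10 (koff 3) (Nat.mul 2 (koff 3)) T0 [] fs = true := by
  decide +kernel

theorem hfs : ∀ x ∈ fs, NNk 3 5 10 [x] := by
  intro x hx
  simp only [fs, List.mem_cons, List.not_mem_nil, or_false] at hx
  rcases hx with rfl | rfl | rfl | rfl
  · exact kfact_sound 4 6 rfl rfl (by norm_num) T1 f1 _ List.mem_cons_self
  · exact kfact_sound 4 6 rfl rfl (by norm_num) T2 f2 _ List.mem_cons_self
  · exact kfact_sound 4 6 rfl rfl (by norm_num) T3 f3 _ List.mem_cons_self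
  · exact kfact_sound 4 6 rfl rfl (by norm_num) T4 f4 _ List.mem_cons_self

/-- no lattice -/
theorem no {L : Set (Fin 3 → ℤ)} (hL : Lat 3 5 10 L) : False :=
  kroot_sound hL 4 6 rfl rfl (by norm_num) fs hfs T0 570564642 root1 root2

end TightIndep.D3_9
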