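import Mathlib

/-!
# Tight `t`-independent sets: definitions
-/

namespace TightIndep

/-- The number `b(m, t)`: the least possible order of an abelian group which contains a
`t`-independent set of size `m` is at least `b(m, t)`. -/
def bound (m t : ℕ) : ℕ :=
  if Even t then ∑ i ∈ Finset.range (m + 1), m.choose i * (t / 2).choose i * 2 ^ i
  else ∑ i ∈ Finset.Icc 1 m, (m - 1).choose (i - 1) * ((t + 1) / 2).choose i * 2 ^ i

/-- `A` is `t`-independent: there is no relation `∑ l a • a = 0` with integers `l a` such that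
`1 ≤ ∑ |l a| ≤ t`. -/
def Indep {G : Type} [AddCommGroup G] (t : ℕ) (A : Finset G) : Prop :=
  ∀ l : G → ℤ, 1 ≤ ∑ a ∈ A, |l a| → ∑ a ∈ A, |l a| ≤ (t : ℤ) → ∑ a ∈ A, l a • a ≠ 0

/-- `A` is a tight `t`-independent set: it is `t`-independent, and the order of the group is
`b(m, t)`, `m` the size of `A`. -/
def Tight {G : Type} [AddCommGroup G] [Fintype G] (t : ℕ) (A : Finset G) : Prop :=
  Indep t A ∧ Fintype.card G = bound A.card t

end TightIndep
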