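import Pool.Agent.Lib.MP_f31b39_co.Crit

/-!
# Tight `t`-independent sets: the second criterion (double counting in the design)
-/

namespace TightIndep

/-- the reduced block -/
def red {δ : Type} [DecidableEq δ] (a : δ) (w : δ → ℕ) : δ → ℕ :=
  fun x => w x - (if x = a then 1 else 0)

/-- the counting lemma for the design -/
theorem counting2 {δ : Type} [DecidableEq δ] (D R S0 : Finset δ) (Da : δ → Finset δ) (s g : ℕ)
    (U : δ → δ → δ → ℕ) (hRD : R ⊆ D)
    (hDa : ∀ a ∈ R, Da a ⊆ D)
    (hg : ∀ a ∈ R, g ≤ (S0 ∩ Da a).card)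
    (hT : ∀ a ∈ R, ∀ e ∈ Da a, ∑ x ∈ D, U a e x ≤ s + 1)
    (hT' : ∀ a ∈ R, ∀ e ∈ Da a, s ≤ ∑ x ∈ Da a, red a (U a e) x + 1)
    (hone : ∀ a ∈ R, ∀ e ∈ Da a, ∀ e' ∈ Da a, U a e ≠ U a e' →
      2 * s ≤ ∑ x ∈ Da a, red a (U a e) x + ∑ x ∈ Da a, red a (U a e') x + 1)
    (hself : ∀ a ∈ R, ∀ e ∈ Da a, 1 ≤ red a (U a e) e)
    (ha : ∀ a ∈ R, ∀ e ∈ Da a, 1 ≤ U a e a)
    (hov : ∀ a ∈ R, ∀ b ∈ R, ∀ e ∈ Da a, ∀ e' ∈ Da b, U a e ≠ U b e' →
      ∑ x ∈ D, min (U a e x) (U b e' x) ≤ 1)
    (h0 : ∀ a ∈ R, ∀ e ∈ Da a, ∑ x ∈ S0, min (U a e x) 1 ≤ 1) :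
    4 * (R.card * (s * g)) ≤ D.card * (4 * R.card + (s + 1) ^ 2) + 4 * R.card := by
  classical
  -- rows
  have hrow : ∀ a ∈ R, s * g ≤ ∑ e ∈ Da a, red a (U a e) e + 1 := by
    intro a haR
    obtain ⟨V, hV⟩ : ∃ V, V = (Da a).image (U a) := ⟨_, rfl⟩
    have hgV : g ≤ V.card := by
      refine (hg a haR).trans ?_
      apply Finset.card_le_card_of_injOn (U a)
      · intro x hx
        rw [hV]
        exact Finset.mem_coe.2 (Finset.mem_image_of_mem _ (Finset.mem_inter.1 hx).2)
      · intro x hx y hy hxy
        by_contra hne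
        obtain ⟨hx1, hx2⟩ := Finset.mem_inter.1 (Finset.mem_coe.1 hx)
        obtain ⟨hy1, hy2⟩ := Finset.mem_inter.1 (Finset.mem_coe.1 hy)
        have h1 := h0 a haR x hx2
        have h2 : ∑ z ∈ ({x, y} : Finset δ), min (U a x z) 1 ≤ ∑ z ∈ S0, min (U a x z) 1 :=
          Finset.sum_le_sum_of_subset (by
            intro z hz
            simp only [Finset.mem_insert, Finset.mem_singleton] at hz
            rcases hz with rfl | rfl
            · exact hx1
            · exact hy1)
        rw [Finset.sum_pair hne] at h2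
        have h3 := hself a haR x hx2
        have h4 := hself a haR y hy2
        rw [← hxy] at h4
        unfold red at h3 h4
        omega
    have e1 : ∑ e ∈ Da a, red a (U a e) e = ∑ w ∈ V, ∑ x ∈ Da a, red a w x := by
      rw [Finset.sum_comm]
      refine Finset.sum_congr rfl fun e he => ?_
      rw [Finset.sum_eq_single (U a e)]
      · intro w hw hne
        rw [hV] at hw
        obtain ⟨d, hd, rfl⟩ := Finset.mem_image.1 hw
        have h1 := hov a haR a haR d hd e he hne
        have h2 := hself a haR e he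
        have h3 := ha a haR e he
        have h4 := ha a haR d hd
        have haD : a ∈ D := hRD haR
        have heD : e ∈ D := hDa a haR he
        by_cases hea : e = a
        · subst hea
          have h5 : min (U e d e) (U e e e) ≤ ∑ x ∈ D, min (U e d x) (U e e x) :=
            Finset.single_le_sum (f := fun x => min (U e d x) (U e e x))
              (fun _ _ => Nat.zero_le _) haD
          unfold red at h2 ⊢
          rw [if_pos rfl] at h2 ⊢
          omega
        · have h5 : ∑ x ∈ ({e, a} : Finset δ), min (U a d x) (U a e x) ≤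
              ∑ x ∈ D, min (U a d x) (U a e x) :=
            Finset.sum_le_sum_of_subset (by
              intro z hz
              simp only [Finset.mem_insert, Finset.mem_singleton] at hz
              rcases hz with rfl | rfl
              · exact heD
              · exact haD)
          rw [Finset.sum_pair hea] at h5
          unfold red at h2 ⊢
          rw [if_neg hea] at h2 ⊢
          omega
      · intro h
        rw [hV] at h
        exact absurd (Finset.mem_image_of_mem _ he) h
    have e2 : s * V.card ≤ ∑ w ∈ V, ∑ x ∈ Da a, red a w x + 1 := by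
      have h1 : ∑ w ∈ V, s ≤ ∑ w ∈ V, (∑ x ∈ Da a, red a w x +
          (if ∑ x ∈ Da a, red a w x < s then 1 else 0)) := by
        refine Finset.sum_le_sum fun w hw => ?_
        rw [hV] at hw
        obtain ⟨d, hd, rfl⟩ := Finset.mem_image.1 hw
        have h2 := hT' a haR d hd
        split_ifs <;> omega
      rw [Finset.sum_add_distrib, Finset.sum_const, smul_eq_mul, ← Finset.card_filter] at h1
      have h2 : (V.filter (fun w => ∑ x ∈ Da a, red a w x < s)).card ≤ 1 := by
        rw [Finset.card_le_one]
        intro w hw w' hw'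
        obtain ⟨hw1, hw2⟩ := Finset.mem_filter.1 hw
        obtain ⟨hw1', hw2'⟩ := Finset.mem_filter.1 hw'
        rw [hV] at hw1 hw1'
        obtain ⟨d, hd, rfl⟩ := Finset.mem_image.1 hw1
        obtain ⟨d', hd', rfl⟩ := Finset.mem_image.1 hw1'
        by_contra hne
        have := hone a haR d hd d' hd' hne
        omega
      rw [mul_comm]
      omega
    rw [e1]
    exact (Nat.mul_le_mul_left s hgV).trans e2
  -- columns
  have hcol : ∀ e ∈ D, 4 * ∑ a ∈ R.filter (fun a => e ∈ Da a), red a (U a e) e ≤
      4 * R.card + (s + 1) ^ 2 := by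
    intro e heD
    obtain ⟨A, hA⟩ : ∃ A, A = R.filter (fun a => e ∈ Da a) := ⟨_, rfl⟩
    have hAR : A.card ≤ R.card := by
      rw [hA]
      exact Finset.card_le_card (Finset.filter_subset _ _)
    rw [← hA]
    obtain ⟨B, hB⟩ : ∃ B, B = A.filter (fun a => 2 ≤ red a (U a e) e) := ⟨_, rfl⟩
    have hmA : ∀ a ∈ A, a ∈ R ∧ e ∈ Da a := by
      intro a haA
      rw [hA] at haA
      exact Finset.mem_filter.1 haA
    rcases B.eq_empty_or_nonempty with hB0 | hB0
    · have h1 : ∑ a ∈ A, red a (U a e) e ≤ A.card * 1 := by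
        apply Finset.sum_le_card_nsmul
        intro a haA
        by_contra hcon
        have : a ∈ B := by
          rw [hB, Finset.mem_filter]
          exact ⟨haA, by omega⟩
        rw [hB0] at this
        exact absurd this (Finset.notMem_empty a)
      nlinarith [sq_nonneg (s + 1)]
    · obtain ⟨a1, ha1⟩ := hB0
      have hmB : ∀ a ∈ B, a ∈ R ∧ e ∈ Da a ∧ 2 ≤ red a (U a e) e := by
        intro a haB
        rw [hB] at haB
        obtain ⟨h1, h2⟩ := Finset.mem_filter.1 haB
        exact ⟨(hmA a h1).1, (hmA a h1).2, h2⟩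
      obtain ⟨w, hw⟩ : ∃ w, w = U a1 e := ⟨_, rfl⟩
      have hwe2 : ∀ a ∈ B, 2 ≤ U a e e := by
        intro a haB
        have := (hmB a haB).2.2
        unfold red at this
        omega
      have heq : ∀ a ∈ B, U a e = w := by
        intro a haB
        by_contra hne
        rw [hw] at hne
        obtain ⟨h1, h2, -⟩ := hmB a haB
        obtain ⟨h4, h5, -⟩ := hmB a1 ha1
        have h7 := hov a h1 a1 h4 e h2 e h5 hne
        have h8 : min (U a e e) (U a1 e e) ≤ ∑ x ∈ D, min (U a e x) (U a1 e x) :=
          Finset.single_le_sum (f := fun x => min (U a e x) (U a1 e x))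
            (fun _ _ => Nat.zero_le _) heD
        have h9 := hwe2 a haB
        have h10 := hwe2 a1 ha1
        omega
      obtain ⟨M, hM⟩ : ∃ M, w e = M + 1 := ⟨w e - 1, by
        have := hwe2 a1 ha1
        rw [← hw] at this
        omega⟩
      -- the size of `B`
      have hBc : B.card + M ≤ s + 1 := by
        obtain ⟨h1, h2, -⟩ := hmB a1 ha1
        have h3 := hT a1 h1 e h2
        rw [← hw] at h3
        have h4 : B.card ≤ ∑ x ∈ D, (if 1 ≤ w x then 1 else 0) := by
          rw [← Finset.card_filter]
          apply Finset.card_le_card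
          intro a haB
          rw [Finset.mem_filter]
          obtain ⟨h5, h6, -⟩ := hmB a haB
          refine ⟨hRD h5, ?_⟩
          have := ha a h5 e h6
          rw [heq a haB] at this
          exact this
        rw [← Finset.add_sum_erase _ _ heD] at h3 h4
        rw [hM, if_pos (by omega)] at h4
        rw [hM] at h3
        have h5 : ∑ x ∈ D.erase e, (if 1 ≤ w x then 1 else 0) ≤ ∑ x ∈ D.erase e, w x := by
          refine Finset.sum_le_sum fun x _ => ?_
          split_ifs <;> omega
        omega
      have h1 : ∑ a ∈ A, red a (U a e) e ≤ A.card + B.card * M := by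
        have h2 : ∑ a ∈ A, red a (U a e) e ≤ ∑ a ∈ A, (1 + if a ∈ B then M else 0) := by
          refine Finset.sum_le_sum fun a haA => ?_
          by_cases haB : a ∈ B
          · rw [if_pos haB, heq a haB]
            unfold red
            rw [hM]
            omega
          · rw [if_neg haB]
            by_contra hcon
            apply haB
            rw [hB, Finset.mem_filter]
            exact ⟨haA, by omega⟩
        refine h2.trans ?_
        rw [Finset.sum_add_distrib, Finset.sum_const, smul_eq_mul, mul_one,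
          ← Finset.sum_filter, Finset.sum_const, smul_eq_mul]
        refine Nat.add_le_add_left (Nat.mul_le_mul_right _ ?_) _
        apply Finset.card_le_card
        intro a haB
        exact (Finset.mem_filter.1 haB).2
      have h2 : 4 * (B.card * M) ≤ (s + 1) ^ 2 := by
        have h3 : (B.card + M) ^ 2 ≤ (s + 1) ^ 2 := Nat.pow_le_pow_left hBc 2
        have h4 : 4 * (B.card * M) ≤ (B.card + M) ^ 2 := by
          have := four_mul_le_pow_two_add B.card M
          linarith
        exact h4.trans h3
      omega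
  have h1 : R.card * (s * g) ≤ ∑ a ∈ R, (∑ e ∈ Da a, red a (U a e) e + 1) := by
    apply Finset.card_nsmul_le_sum
    exact hrow
  rw [Finset.sum_add_distrib, Finset.sum_const, smul_eq_mul, mul_one] at h1
  have h2 : ∑ a ∈ R, ∑ e ∈ Da a, red a (U a e) e =
      ∑ e ∈ D, ∑ a ∈ R.filter (fun a => e ∈ Da a), red a (U a e) e := by
    apply Finset.sum_comm'
    intro a e
    rw [Finset.mem_filter]
    constructor
    · rintro ⟨h3, h4⟩
      exact ⟨⟨h3, h4⟩, hDa a h3 h4⟩
    · rintro ⟨⟨h3, h4⟩, -⟩
      exact ⟨h3, h4⟩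
  have h3 : ∑ e ∈ D, 4 * ∑ a ∈ R.filter (fun a => e ∈ Da a), red a (U a e) e ≤
      D.card * (4 * R.card + (s + 1) ^ 2) := by
    have := Finset.sum_le_card_nsmul D _ _ hcol
    rwa [smul_eq_mul] at this
  rw [← Finset.mul_sum] at h3
  rw [h2] at h1
  omega

end TightIndep
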