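import Pool.Agent.Lib.MP_f31b39_co.Lat

/-!
# Tight `t`-independent sets: from sets to lattices
-/

namespace TightIndep

/-- the family of the elements of a finite set -/
theorem lat_of_tight {G : Type} [AddCommGroup G] [Fintype G] (t : ℕ) (ht : 1 ≤ t) (A : Finset G)
    (hm : 1 ≤ A.card) (hA : Tight t A) :
    ∃ L : Set (Fin A.card → ℤ), Lat A.card (t / 2 + 1) (t + 1) L := by
  classical
  obtain ⟨hI, hG⟩ := hA
  obtain ⟨a, ha⟩ : ∃ a : Fin A.card → G, a = fun i => ((A.equivFin.symm i : A) : G) := ⟨_, rfl⟩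
  refine ⟨rel a, lat_of_family t ht a hm ?_ hG⟩
  intro v hv hv0
  by_contra hcon
  have hsum : ∀ F : G → ℤ → G, ∑ x ∈ A, F x (if h : x ∈ A then v (A.equivFin ⟨x, h⟩) else 0) =
      ∑ i, F (a i) (v i) := by
    intro F
    rw [← Finset.sum_coe_sort A, ← Equiv.sum_comp A.equivFin]
    refine Finset.sum_congr rfl fun x _ => ?_
    rw [dif_pos x.2, ha]
    simp
  have hsum' : ∀ F : G → ℤ → ℤ, ∑ x ∈ A, F x (if h : x ∈ A then v (A.equivFin ⟨x, h⟩) else 0) =
      ∑ i, F (a i) (v i) := by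
    intro F
    rw [← Finset.sum_coe_sort A, ← Equiv.sum_comp A.equivFin]
    refine Finset.sum_congr rfl fun x _ => ?_
    rw [dif_pos x.2, ha]
    simp
  have hn : ∑ i, |v i| = (nrm v : ℤ) := by
    unfold nrm
    push_cast
    rfl
  have h1 := hI (fun x => if h : x ∈ A then v (A.equivFin ⟨x, h⟩) else 0)
    (by
      rw [hsum' (fun _ z => |z|), hn]
      have : nrm v ≠ 0 := fun h => hv0 (eq_zero_of_nrm h)
      omega)
    (by
      rw [hsum' (fun _ z => |z|), hn]
      omega)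
  apply h1
  rw [hsum (fun x z => z • x)]
  exact hv

end TightIndep
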