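import Pool.Agent.Lib.MP_f31b39_co.Crit

/-!
# Tight `t`-independent sets: `m = 3` and large `t`
-/

namespace TightIndep

variable {s μ : ℕ} {L : Set (Fin 3 → ℤ)}

theorem no_lat_three (hL : Lat 3 s μ L) (hs : 9 ≤ s) : False := by
  classical
  have hm1 := hL.h1
  have hm2 := hL.h2
  obtain ⟨c, hc, hcn, hc2⟩ := getc' hL (fun i : Fin 3 => if i = 0 then s - 6 else 3) (by
    rw [Fin.sum_univ_three]
    simp
    omega)
  have hc3 : ∀ i, 3 ≤ c i := by
    intro i
    have h1 := hc2 i
    by_cases hi : i = 0
    · rw [if_pos hi] at h1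
      have := h1 (by omega)
      omega
    · rw [if_neg hi] at h1
      have := h1 (by omega)
      push_cast at this
      omega
  have hsum : (c 0).natAbs + (c 1).natAbs + (c 2).natAbs = μ := by
    unfold nrm at hcn
    rwa [Fin.sum_univ_three] at hcn
  obtain ⟨i0, hi0⟩ : ∃ i0, (c i0).natAbs + 3 ≤ s := by
    by_contra hcon
    push Not at hcon
    have h0 := hcon 0
    have h1 := hcon 1
    have h2 := hcon 2
    omega
  have hsplit : ∀ f : Fin 3 → ℕ, ∑ i, f i = f i0 + ∑ i ∈ Finset.univ.erase i0, f i := fun f =>
    (Finset.add_sum_erase _ _ (Finset.mem_univ i0)).symm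
  have hKc : (Finset.univ.erase i0).card = 2 := by
    rw [Finset.card_erase_of_mem (Finset.mem_univ _), Finset.card_univ, Fintype.card_fin]
  obtain ⟨p, hp, hp2⟩ := exists_between' (fun i : Fin 3 => if i = i0 then (c i).natAbs else 1)
    (fun i : Fin 3 => if i = i0 then (c i).natAbs else (c i).natAbs - 2) (by
      intro i
      have := hc3 i
      split_ifs <;> omega) (s - 1) (by
      rw [hsplit, if_pos rfl, Finset.sum_congr rfl (g := fun _ => 1) (fun i hi => by
        rw [if_neg (Finset.ne_of_mem_erase hi)]), Finset.sum_const, hKc, smul_eq_mul]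
      omega) (by
      have h1 : ∑ i : Fin 3, ((if i = i0 then (c i).natAbs else (c i).natAbs - 2) +
          (if i = i0 then 0 else 2)) = ∑ i, (c i).natAbs := by
        refine Finset.sum_congr rfl fun i _ => ?_
        have := hc3 i
        split_ifs <;> omega
      have h2 : ∑ i : Fin 3, (if i = i0 then 0 else 2) = 4 := by
        rw [hsplit, if_pos rfl, Finset.sum_congr rfl (g := fun _ => 2) (fun i hi => by
          rw [if_neg (Finset.ne_of_mem_erase hi)]), Finset.sum_const, hKc]
        rfl
      rw [Finset.sum_add_distrib, h2, Fin.sum_univ_three (fun i => (c i).natAbs)] at h1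
      omega)
  obtain ⟨P, hP⟩ : ∃ P, P = signed c p := ⟨_, rfl⟩
  have hPi : ∀ i, P i = (p i : ℤ) := fun i => by
    have := hc3 i
    rw [hP]
    unfold signed
    rw [if_pos (by omega)]
  have hp0 : p i0 = (c i0).natAbs := by
    have := hp i0
    rw [if_pos rfl, if_pos rfl] at this
    omega
  have hpc : ∀ i, p i ≤ (c i).natAbs := by
    intro i
    have h1 := (hp i).2
    split_ifs at h1 <;> omega
  have h3 := hc3 i0
  have hPi0 := hPi i0
  have hfin := clique hL c P hc (by rw [hP, nrm_signed]; omega) (by
    have h1 := nrm_sub_signed c p hpc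
    rw [hP]
    omega) (Finset.univ.erase i0) (by
      intro b hb
      have h1 := hp b
      rw [if_neg (Finset.ne_of_mem_erase hb), if_neg (Finset.ne_of_mem_erase hb)] at h1
      have h2 := hc3 b
      rw [hPi]
      omega) {(i0, true)} (by
      intro d
      obtain ⟨i, b⟩ := d
      rw [Finset.mem_singleton]
      simp only [Finset.mem_erase, Finset.mem_univ, and_true, not_not, Prod.mk.injEq]
      constructor
      · rintro ⟨rfl, rfl⟩
        refine ⟨rfl, ?_, ?_⟩
        · simp only [comp, if_true, Pi.neg_apply]
          omega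
        · simp only [comp, if_true, Pi.sub_apply]
          omega
      · rintro ⟨rfl, h1, h2⟩
        refine ⟨rfl, ?_⟩
        cases b
        · simp only [comp, Bool.false_eq_true, if_false, Pi.neg_apply] at h1
          omega
        · rfl) (Finset.singleton_nonempty _) (by omega)
  rw [hKc, Finset.card_singleton, one_mul] at hfin
  have h4 : s + 2 - 1 = s + 1 := by omega
  rw [h4] at hfin
  nlinarith

end TightIndep
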