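import Pool.Agent.Lib.MP_f31b39_co.Chk2

/-!
# Tight `t`-independent sets: a fast kernel checker, definitions
-/

namespace TightIndep

/-- forcing the evaluation of a natural number -/
noncomputable def frc (x : ℕ) (f : ℕ → Bool) : Bool :=
  @Nat.rec (fun _ => Bool) (f (nat_lit 0)) (fun n _ => f (Nat.succ n)) x

/-- conjunction -/
noncomputable def band (b x : Bool) : Bool := @Bool.rec (fun _ => Bool) false x b

/-- `x` if `b`, else true -/
noncomputable def bimp (b x : Bool) : Bool := @Bool.rec (fun _ => Bool) true x b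

/-- negation -/
noncomputable def bnot (b : Bool) : Bool := @Bool.rec (fun _ => Bool) true false b

/-- disjunction -/
noncomputable def bor (b x : Bool) : Bool := @Bool.rec (fun _ => Bool) x true b

/-- membership -/
noncomputable def kmem (x : ℕ) (l : List ℕ) : Bool :=
  @List.rec ℕ (fun _ => Bool) false (fun h _ ih => bor (Nat.beq x h) ih) l

/-- the norm of a packed vector -/
noncomputable def knrm (m : ℕ) : ℕ → ℕ :=
  @Nat.rec (fun _ => ℕ → ℕ) (fun _ => nat_lit 0)
    (fun _ ih X => Nat.add (Nat.add (Nat.sub (Nat.mod X (nat_lit 4096)) (nat_lit 32))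
      (Nat.sub (nat_lit 32) (Nat.mod X (nat_lit 4096)))) (ih (Nat.div X (nat_lit 4096)))) m

/-- the distance of packed vectors -/
noncomputable def kdist (m : ℕ) : ℕ → ℕ → ℕ :=
  @Nat.rec (fun _ => ℕ → ℕ → ℕ) (fun _ _ => nat_lit 0)
    (fun _ ih X Z => Nat.add
      (Nat.add (Nat.sub (Nat.mod X (nat_lit 4096)) (Nat.mod Z (nat_lit 4096)))
        (Nat.sub (Nat.mod Z (nat_lit 4096)) (Nat.mod X (nat_lit 4096))))
      (ih (Nat.div X (nat_lit 4096)) (Nat.div Z (nat_lit 4096)))) m

/-- the linear combination with packed coefficients -/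
noncomputable def kdot (gs : List ℕ) : ℕ → ℕ :=
  @List.rec ℕ (fun _ => ℕ → ℕ) (fun _ => nat_lit 0)
    (fun g _ ih A => Nat.add (Nat.mul (Nat.mod A (nat_lit 16)) g)
      (ih (Nat.div A (nat_lit 16)))) gs

/-- the sum of the coefficients -/
noncomputable def ksum (gs : List ℕ) : ℕ → ℕ :=
  @List.rec ℕ (fun _ => ℕ → ℕ) (fun _ => nat_lit 0)
    (fun _ _ ih A => Nat.add (Nat.mod A (nat_lit 16)) (ih (Nat.div A (nat_lit 16)))) gs

/-- the packed zero vector -/
noncomputable def koff (m : ℕ) : ℕ :=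
  @Nat.rec (fun _ => ℕ) (nat_lit 0) (fun _ ih => Nat.add (nat_lit 32) (Nat.mul (nat_lit 4096) ih)) m

/-- the check of a linear combination -/
noncomputable def klin (O : ℕ) (gs : List ℕ) (V A B : ℕ) : Bool :=
  band (Nat.beq (Nat.add (Nat.add V (kdot gs B)) (Nat.mul (ksum gs A) O))
    (Nat.add (kdot gs A) (Nat.mul (Nat.succ (ksum gs B)) O)))
    (Nat.ble (Nat.add (ksum gs A) (ksum gs B)) (nat_lit 50))

/-- hints: a lattice vector with its coefficients -/
inductive KH where
  | nil : KH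
  | cons : ℕ → ℕ → ℕ → KH → KH

/-- the vectors of the hints -/
noncomputable def khys (H : KH) : List ℕ :=
  @KH.rec (fun _ => List ℕ) [] (fun Y _ _ _ ih => Y :: ih) H

/-- the check of the hints -/
noncomputable def khchk (m s1 O : ℕ) (gs : List ℕ) (Q : ℕ) (H : KH) : Bool :=
  @KH.rec (fun _ => Bool) true (fun Y A B _ ih => band (klin O gs Y A B)
    (frc (kdist m Y Q) fun k => band (Nat.ble k (nat_lit 63)) (band (bnot (Nat.beq k s1)) ih))) H

/-- the initial slacks -/
noncomputable def kslack (m qn Q : ℕ) (ys : List ℕ) : ℕ :=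
  @List.rec ℕ (fun _ => ℕ) (nat_lit 0) (fun y _ ih =>
    Nat.add (Nat.div (Nat.sub (Nat.add (nat_lit 256) (kdist m y Q)) qn) (nat_lit 2))
      (Nat.mul (nat_lit 256) ih)) ys

/-- one in every lane -/
noncomputable def kone (ys : List ℕ) : ℕ :=
  @List.rec ℕ (fun _ => ℕ) (nat_lit 0) (fun _ _ ih =>
    Nat.add (nat_lit 1) (Nat.mul (nat_lit 256) ih)) ys

/-- the positive parts of the first coordinates -/
noncomputable def klp (ys : List ℕ) : ℕ :=
  @List.rec ℕ (fun _ => ℕ) (nat_lit 0) (fun y _ ih =>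
    Nat.add (Nat.sub (Nat.mod y (nat_lit 4096)) (nat_lit 32)) (Nat.mul (nat_lit 256) ih)) ys

/-- the negative parts of the first coordinates -/
noncomputable def kln (ys : List ℕ) : ℕ :=
  @List.rec ℕ (fun _ => ℕ) (nat_lit 0) (fun y _ ih =>
    Nat.add (Nat.sub (nat_lit 32) (Nat.mod y (nat_lit 4096))) (Nat.mul (nat_lit 256) ih)) ys

/-- removing the first coordinates -/
noncomputable def kshift (ys : List ℕ) : List ℕ :=
  @List.rec ℕ (fun _ => List ℕ) [] (fun y _ ih => Nat.div y (nat_lit 4096) :: ih) ys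

/-- the data of the coordinates -/
inductive CD where
  | nil : CD
  | cons : ℕ → ℕ → ℕ → CD → CD

/-- building the data of the coordinates -/
noncomputable def kbld (m : ℕ) : List ℕ → ℕ → (CD → Bool) → Bool :=
  @Nat.rec (fun _ => List ℕ → ℕ → (CD → Bool) → Bool) (fun _ _ k => k CD.nil)
    (fun _ ih ys Q k => frc (klp ys) fun a => frc (kln ys) fun b =>
      frc (Nat.mod Q (nat_lit 4096)) fun q =>
        ih (kshift ys) (Nat.div Q (nat_lit 4096)) fun t => k (CD.cons a b q t)) m

/-- the lanes in which the step goes towards the hint -/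
noncomputable def kind (O M Y v : ℕ) : ℕ :=
  Nat.div (Nat.land (Nat.add Y (Nat.mul (Nat.sub (nat_lit 127) v) O)) M) (nat_lit 128)

/-- one step -/
noncomputable def kadv (O M Y v S : ℕ) (k : ℕ → Bool) : Bool :=
  frc (Nat.sub S (kind O M Y v)) fun S' => bimp (Nat.beq (Nat.land S' M) M) (k S')

/-- the loop over the steps of one coordinate -/
noncomputable def klp2 (O M : ℕ) (next : ℕ → ℕ → ℕ → Bool) (Y : ℕ) (mv : ℕ → ℕ) (r : ℕ) :
    ℕ → ℕ → ℕ → Bool :=
  @Nat.rec (fun _ => ℕ → ℕ → ℕ → Bool) (fun _ S X => next (nat_lit 0) S X)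
    (fun n ih v S X => band (next (Nat.succ n) S X)
      (kadv O M Y v S fun S' => ih (Nat.succ v) S' (mv X))) r

/-- the enumeration -/
noncomputable def kenum (O M : ℕ) (tg : List ℕ) (cd : CD) : ℕ → ℕ → ℕ → ℕ → Bool :=
  @CD.rec (fun _ => ℕ → ℕ → ℕ → ℕ → Bool)
    (fun r _ X _ => bimp (Nat.beq r (nat_lit 0)) (kmem X tg))
    (fun Yp Yn q _ ih r S X pw => frc (Nat.mul pw (nat_lit 4096)) fun pw' =>
      @Bool.rec (fun _ => Bool)
        (@Bool.rec (fun _ => Bool)
          (band (klp2 O M (fun r S X => ih r S X pw') Yp (fun X => Nat.add X pw) r (nat_lit 0) S X)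
            (@Nat.rec (fun _ => Bool) true (fun n _ => kadv O M Yn (nat_lit 0) S fun S' =>
              klp2 O M (fun r S X => ih r S X pw') Yn (fun X => Nat.sub X pw) n (nat_lit 1) S'
                (Nat.sub X pw)) r))
          (klp2 O M (fun r S X => ih r S X pw') Yn (fun X => Nat.sub X pw) r
            (Nat.sub (nat_lit 32) q) S X)
          (Nat.ble q (nat_lit 31)))
        (klp2 O M (fun r S X => ih r S X pw') Yp (fun X => Nat.add X pw) r
          (Nat.sub q (nat_lit 32)) S X)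
        (Nat.ble (nat_lit 33) q)) cd

/-- the check of a node -/
noncomputable def knode (m s1 qn O : ℕ) (gs : List ℕ) (Q : ℕ) (H : KH) (tg : List ℕ) : Bool :=
  band (band (Nat.beq (knrm m Q) qn) (Nat.beq (Nat.div Q (Nat.pow (nat_lit 4096) m)) (nat_lit 0)))
    (band (khchk m s1 O gs Q H)
      (frc (kone (khys H)) fun e => frc (Nat.mul (nat_lit 128) e) fun M =>
        frc (kslack m qn Q (khys H)) fun S => bimp (Nat.beq (Nat.land S M) M)
          (kbld m (khys H) Q fun cd => kenum e M tg cd s1 S Q (nat_lit 1))))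

/-- the action of a packed signed permutation -/
noncomputable def kact (m g : ℕ) : ℕ → ℕ → ℕ :=
  @Nat.rec (fun _ => ℕ → ℕ → ℕ) (fun _ _ => nat_lit 0)
    (fun _ ih π ε => Nat.add
      (@Bool.rec (fun _ => ℕ)
        (Nat.sub (nat_lit 64) (Nat.mod (Nat.div g (Nat.pow (nat_lit 4096)
          (Nat.mod π (nat_lit 16)))) (nat_lit 4096)))
        (Nat.mod (Nat.div g (Nat.pow (nat_lit 4096) (Nat.mod π (nat_lit 16)))) (nat_lit 4096))
        (Nat.beq (Nat.mod ε (nat_lit 2)) (nat_lit 0)))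
      (Nat.mul (nat_lit 4096) (ih (Nat.div π (nat_lit 16)) (Nat.div ε (nat_lit 2))))) m

/-- the check of a packed permutation with its inverse -/
noncomputable def kperm (m ρ k : ℕ) : ℕ → ℕ → Bool :=
  @Nat.rec (fun _ => ℕ → ℕ → Bool) (fun _ _ => true)
    (fun _ ih i π => band (band (Nat.ble (Nat.succ (Nat.mod π (nat_lit 16))) m)
      (Nat.beq (Nat.mod (Nat.div ρ (Nat.pow (nat_lit 16) (Nat.mod π (nat_lit 16)))) (nat_lit 16)) i))
      (ih (Nat.succ i) (Nat.div π (nat_lit 16)))) k

/-- the images of vectors -/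
noncomputable def kims (m π ε : ℕ) (gs : List ℕ) : List ℕ :=
  @List.rec ℕ (fun _ => List ℕ) [] (fun g _ ih => kact m g π ε :: ih) gs

/-- is `g` an image or the opposite of an image -/
noncomputable def kfind (O2 g : ℕ) (im : List ℕ) : Bool :=
  @List.rec ℕ (fun _ => Bool) false (fun w _ ih => bor (Nat.beq w g)
    (bor (Nat.beq (Nat.add w g) O2) ih)) im

/-- are all of these images or opposites of images -/
noncomputable def kall (O2 : ℕ) (im gs : List ℕ) : Bool :=
  @List.rec ℕ (fun _ => Bool) true (fun g _ ih => band (kfind O2 g im) ih) gs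

/-- trees -/
inductive KT where
  | nil : KT
  | leaf : ℕ → ℕ → ℕ → ℕ → KT → KT
  | node : ℕ → ℕ → KH → KT → KT → KT
  | ref : ℕ → ℕ → ℕ → ℕ → ℕ → KT → KT

/-- the vectors of a chain -/
noncomputable def kxs (T : KT) : List ℕ :=
  @KT.rec (fun _ => List ℕ) [] (fun x _ _ _ _ ih => x :: ih) (fun x _ _ _ _ _ ih => x :: ih)
    (fun x _ _ _ _ _ ih => x :: ih) T

/-- the check of a leaf -/
noncomputable def kleaf (m μ O : ℕ) (gs : List ℕ) (V A B : ℕ) : Bool :=
  band (klin O gs V A B) (frc (knrm m V) fun n => band (Nat.ble (nat_lit 1) n)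
    (Nat.ble (Nat.succ n) μ))

/-- the check of a reference -/
noncomputable def kref (m O2 : ℕ) (gs : List ℕ) (x y π ρ ε : ℕ) : Bool :=
  band (kperm m ρ m (nat_lit 0) π) (kall O2 (kims m π ε (x :: gs)) (y :: gs))

/-- the checker -/
noncomputable def kchk (m s1 qn μ O O2 : ℕ) (T : KT) : List ℕ → List ℕ → Bool :=
  @KT.rec (fun _ => List ℕ → List ℕ → Bool) (fun _ _ => true)
    (fun x V A B _ ih gs dn => band (kleaf m μ O (x :: gs) V A B) (ih gs (x :: dn)))
    (fun x Q H sub _ ihs ih gs dn => band (knode m s1 qn O (x :: gs) Q H (kxs sub))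
      (band (ihs (x :: gs) []) (ih gs (x :: dn))))
    (fun x y π ρ ε _ ih gs dn => band (kmem y dn) (band (kref m O2 gs x y π ρ ε) (ih gs dn))) T

end TightIndep
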