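import Pool.Agent.Lib.MP_f31b39_co.Fast

/-!
# Tight `t`-independent sets: the fast kernel checker, soundness, first part
-/

namespace TightIndep

theorem frc_eq (x : ℕ) (f : ℕ → Bool) : frc x f = f x := by
  cases x <;> rfl

theorem band_true {b x : Bool} : band b x = true ↔ b = true ∧ x = true := by
  cases b <;> cases x <;> simp [band]

theorem bimp_true {b x : Bool} : bimp b x = true ↔ (b = true → x = true) := by
  cases b <;> cases x <;> simp [bimp]

theorem bor_true {b x : Bool} : bor b x = true ↔ (b = true ∨ x = true) := by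
  cases b <;> cases x <;> simp [bor]

theorem bnot_true {b : Bool} : bnot b = true ↔ b = false := by
  cases b <;> simp [bnot]

theorem kmem_true {x : ℕ} : ∀ {l : List ℕ}, kmem x l = true → x ∈ l
  | [], h => absurd h (by simp [kmem])
  | a :: l, h => by
    have h1 : bor (Nat.beq x a) (kmem x l) = true := h
    rcases bor_true.1 h1 with h2 | h2
    · rw [Nat.eq_of_beq_eq_true h2]
      exact List.mem_cons_self
    · exact List.mem_cons_of_mem _ (kmem_true h2)

/-- unpacking -/
def unpk : ℕ → ℕ → List ℤ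
  | 0, _ => []
  | m + 1, g => (((g % 4096 : ℕ) : ℤ) - 32) :: unpk m (g / 4096)

/-- packing -/
def pkz : List ℤ → ℤ
  | [] => 0
  | a :: l => a + 4096 * pkz l

/-- packed ones -/
def onz : ℕ → ℤ
  | 0 => 0
  | m + 1 => 1 + 4096 * onz m

theorem unpk_length : ∀ m g, (unpk m g).length = m
  | 0, _ => rfl
  | m + 1, g => by
    rw [unpk, List.length_cons, unpk_length m]

theorem unpk_spec : ∀ m g : ℕ,
    (g : ℤ) = pkz (unpk m g) + 32 * onz m + 4096 ^ m * ((g / 4096 ^ m : ℕ) : ℤ)
  | 0, g => by simp [unpk, pkz, onz]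
  | m + 1, g => by
    have h1 := unpk_spec m (g / 4096)
    rw [unpk, pkz, onz]
    rw [Nat.div_div_eq_div_mul, ← Nat.pow_succ'] at h1
    have h2 : (g : ℤ) = ((g % 4096 : ℕ) : ℤ) + 4096 * ((g / 4096 : ℕ) : ℤ) := by omega
    rw [h2, h1, pow_succ]
    ring

theorem koff_eq : ∀ m, ((koff m : ℕ) : ℤ) = 32 * onz m
  | 0 => rfl
  | m + 1 => by
    have h1 := koff_eq m
    have h2 : koff (m + 1) = 32 + 4096 * koff m := rfl
    rw [h2, onz]
    push_cast
    rw [h1]
    ring

theorem knrm_eq : ∀ m X : ℕ, knrm m X = ln (unpk m X)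
  | 0, _ => rfl
  | m + 1, X => by
    have h2 : knrm (m + 1) X = ((X % 4096 - 32) + (32 - X % 4096)) + knrm m (X / 4096) := rfl
    rw [h2, knrm_eq m, unpk, ln]
    omega

theorem kdist_eq : ∀ m X Z : ℕ, kdist m X Z = ln (lsub (unpk m X) (unpk m Z))
  | 0, _, _ => rfl
  | m + 1, X, Z => by
    have h2 : kdist (m + 1) X Z = ((X % 4096 - Z % 4096) + (Z % 4096 - X % 4096)) +
      kdist m (X / 4096) (Z / 4096) := rfl
    have h3 : lsub (unpk (m + 1) X) (unpk (m + 1) Z) =
      ((((X % 4096 : ℕ) : ℤ) - 32) - (((Z % 4096 : ℕ) : ℤ) - 32)) ::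
        lsub (unpk m (X / 4096)) (unpk m (Z / 4096)) := rfl
    rw [h2, kdist_eq m, h3, ln]
    omega

theorem pkz_zipWith (c : ℤ) : ∀ (a b : List ℤ), a.length = b.length →
    pkz (List.zipWith (fun x y => c * x + y) a b) = c * pkz a + pkz b
  | [], [], _ => by simp [pkz]
  | x :: a, y :: b, h => by
    have h1 := pkz_zipWith c a b (by simpa using h)
    rw [List.zipWith_cons_cons, pkz, pkz, pkz, h1]
    ring

theorem pkz_lsub : ∀ (a b : List ℤ), a.length = b.length →
    pkz (lsub a b) = pkz a - pkz b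
  | [], [], _ => by simp [pkz, lsub]
  | x :: a, y :: b, h => by
    have h1 := pkz_lsub a b (by simpa using h)
    have h2 : lsub (x :: a) (y :: b) = (x - y) :: lsub a b := rfl
    rw [h2, pkz, pkz, pkz, h1]
    ring

theorem pkz_zero : ∀ m, pkz (List.replicate m 0) = 0
  | 0 => rfl
  | m + 1 => by
    rw [List.replicate_succ, pkz, pkz_zero m]
    rfl

theorem pkz_uniq : ∀ (d : List ℤ) (r : ℤ), (∀ a ∈ d, |a| < 4096) →
    pkz d + 4096 ^ d.length * r = 0 → ∀ a ∈ d, a = 0
  | [], _, _, _ => fun a ha => absurd ha List.not_mem_nil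
  | x :: d, r, h, h0 => by
    have h1 : x + 4096 * (pkz d + 4096 ^ d.length * r) = 0 := by
      rw [pkz, List.length_cons, pow_succ] at h0
      linarith
    have h2 := abs_lt.1 (h x List.mem_cons_self)
    have h3 : x = 0 := by omega
    have h4 : pkz d + 4096 ^ d.length * r = 0 := by omega
    have h5 := pkz_uniq d r (fun a ha => h a (List.mem_cons_of_mem _ ha)) h4
    intro a ha
    rcases List.mem_cons.1 ha with rfl | ha
    · exact h3
    · exact h5 a ha

theorem eq_of_lsub_zero : ∀ (a b : List ℤ), a.length = b.length →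
    (∀ x ∈ lsub a b, x = 0) → a = b
  | [], [], _, _ => rfl
  | x :: a, y :: b, h, h0 => by
    have h2 : lsub (x :: a) (y :: b) = (x - y) :: lsub a b := rfl
    rw [h2] at h0
    have h3 := eq_of_lsub_zero a b (by simpa using h)
      (fun z hz => h0 z (List.mem_cons_of_mem _ hz))
    have h4 := h0 (x - y) List.mem_cons_self
    rw [h3, sub_eq_zero.1 h4]

/-- `g` represents the vector `x` -/
def Rep (m g : ℕ) (x : List ℤ) : Prop :=
  x.length = m ∧ (∀ a ∈ x, |a| ≤ 31) ∧ (g : ℤ) = pkz x + 32 * onz m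

theorem abs_le_ln : ∀ (x : List ℤ), ∀ a ∈ x, |a| ≤ (ln x : ℤ)
  | [] => fun a ha => absurd ha List.not_mem_nil
  | y :: x => by
    intro a ha
    rw [ln]
    rcases List.mem_cons.1 ha with rfl | ha
    · push_cast
      have : (0 : ℤ) ≤ (ln x : ℤ) := Int.natCast_nonneg _
      linarith [Int.natCast_natAbs a]
    · have := abs_le_ln x a ha
      push_cast
      have : (0 : ℤ) ≤ |y| := abs_nonneg y
      omega

theorem lsub_mem : ∀ (a b : List ℤ) (A B : ℤ), a.length = b.length → (∀ x ∈ a, |x| ≤ A) →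
    (∀ x ∈ b, |x| ≤ B) → ∀ x ∈ lsub a b, |x| ≤ A + B
  | [], [], _, _, _, _, _ => fun x hx => absurd hx List.not_mem_nil
  | x :: a, y :: b, A, B, h, ha, hb => by
    have h2 : lsub (x :: a) (y :: b) = (x - y) :: lsub a b := rfl
    rw [h2]
    intro z hz
    rcases List.mem_cons.1 hz with rfl | hz
    · have h3 := ha x List.mem_cons_self
      have h4 := hb y List.mem_cons_self
      exact (abs_sub x y).trans (add_le_add h3 h4)
    · exact lsub_mem a b A B (by simpa using h) (fun w hw => ha w (List.mem_cons_of_mem _ hw))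
        (fun w hw => hb w (List.mem_cons_of_mem _ hw)) z hz

/-- the coefficients -/
def codig : List (List ℤ) → ℕ → List ℤ
  | [], _ => []
  | _ :: gs, A => ((A % 16 : ℕ) : ℤ) :: codig gs (A / 16)

theorem forall2_mem {α β : Type} {R : α → β → Prop} {gs : List α} {xs : List β}
    (h : List.Forall₂ R gs xs) : ∀ z ∈ xs, ∃ g ∈ gs, R g z := by
  induction h with
  | nil => exact fun z hz => absurd hz List.not_mem_nil
  | cons h1 h2 ih =>
    intro z hz
    rcases List.mem_cons.1 hz with rfl | hz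
    · exact ⟨_, List.mem_cons_self, h1⟩
    · obtain ⟨g, h3, h4⟩ := ih z hz
      exact ⟨g, List.mem_cons_of_mem _ h3, h4⟩

theorem kdot_eq (m : ℕ) : ∀ (gs : List ℕ) (xs : List (List ℤ)) (A : ℕ),
    List.Forall₂ (Rep m) gs xs →
    ((kdot gs A : ℕ) : ℤ) = pkz (comb m (codig xs A) xs) + ksum gs A * (32 * onz m)
  | [], [], A, _ => by
    have h1 : kdot [] A = 0 := rfl
    have h2 : ksum [] A = 0 := rfl
    have h3 : comb m (codig [] A) [] = List.replicate m 0 := by simp [comb, codig]
    rw [h1, h2, h3, pkz_zero]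
    simp
  | g :: gs, x :: xs, A, h => by
    obtain ⟨⟨hx1, hx2, hx3⟩, h⟩ := List.forall₂_cons.1 h
    have h1 : kdot (g :: gs) A = (A % 16) * g + kdot gs (A / 16) := rfl
    have h2 : ksum (g :: gs) A = (A % 16) + ksum gs (A / 16) := rfl
    have h3 := kdot_eq m gs xs (A / 16) h
    have hlen : ∀ z ∈ xs, z.length = m := by
      intro z hz
      obtain ⟨g', -, hg'⟩ := forall2_mem h z hz
      exact hg'.1
    rw [h1, h2, codig, comb, pkz_zipWith _ _ _ (by rw [hx1, comb_length m _ xs hlen])]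
    push_cast
    rw [h3, hx3]
    ring

theorem comb_bound (m : ℕ) : ∀ (gs : List ℕ) (xs : List (List ℤ)) (A : ℕ),
    List.Forall₂ (Rep m) gs xs →
    ∀ a ∈ comb m (codig xs A) xs, |a| ≤ 31 * (ksum gs A : ℤ)
  | [], [], A, _ => by
    intro a ha
    have h3 : comb m (codig [] A) [] = List.replicate m 0 := by simp [comb, codig]
    rw [h3] at ha
    rw [List.eq_of_mem_replicate ha]
    simp
  | g :: gs, x :: xs, A, h => by
    obtain ⟨⟨hx1, hx2, hx3⟩, h⟩ := List.forall₂_cons.1 h
    have h2 : ksum (g :: gs) A = (A % 16) + ksum gs (A / 16) := rfl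
    have h3 := comb_bound m gs xs (A / 16) h
    intro a ha
    rw [codig, comb] at ha
    rw [List.zipWith_eq_zipWith_take_min] at ha
    obtain ⟨i, hi, rfl⟩ := List.getElem_of_mem ha
    rw [List.getElem_zipWith, List.getElem_take, List.getElem_take]
    rw [List.length_zipWith, List.length_take, List.length_take] at hi
    have h4 := hx2 _ (List.getElem_mem (l := x) (n := i) (by omega))
    have h5 := h3 _ (List.getElem_mem (l := comb m (codig xs (A / 16)) xs) (n := i) (by omega))
    rw [h2]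
    refine (abs_add_le _ _).trans ?_
    rw [abs_mul]
    have h6 : |((A % 16 : ℕ) : ℤ)| = ((A % 16 : ℕ) : ℤ) := abs_of_nonneg (Int.natCast_nonneg _)
    rw [h6]
    have h7 : ((A % 16 : ℕ) : ℤ) * |x[i]| ≤ ((A % 16 : ℕ) : ℤ) * 31 :=
      mul_le_mul_of_nonneg_left h4 (Int.natCast_nonneg _)
    push_cast at h7 h5 ⊢
    linarith

variable {m s μ : ℕ} {L : Set (Fin m → ℤ)}

/-- a verified linear combination is in the lattice -/
theorem klin_sound (hL : Lat m s μ L) (gs : List ℕ) (xs : List (List ℤ)) (V A B : ℕ)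
    (h : List.Forall₂ (Rep m) gs xs) (hx : ∀ x ∈ xs, toV m x ∈ L)
    (hk : klin (koff m) gs V A B = true) (hV : ∀ a ∈ unpk m V, |a| ≤ 100) :
    toV m (unpk m V) ∈ L := by
  obtain ⟨h1, h2⟩ := band_true.1 hk
  have h3 := Nat.eq_of_beq_eq_true h1
  have h4 := Nat.le_of_ble_eq_true h2
  have h3' : V + kdot gs B + ksum gs A * koff m = kdot gs A + (ksum gs B + 1) * koff m := h3
  have h4' : ksum gs A + ksum gs B ≤ 50 := h4
  have hlen : ∀ z ∈ xs, z.length = m := by
    intro z hz
    obtain ⟨g', -, hg'⟩ := forall2_mem h z hz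
    exact hg'.1
  obtain ⟨a, ha⟩ : ∃ a, a = comb m (codig xs A) xs := ⟨_, rfl⟩
  obtain ⟨b, hb⟩ : ∃ b, b = comb m (codig xs B) xs := ⟨_, rfl⟩
  have hal : a.length = m := by rw [ha, comb_length m _ _ hlen]
  have hbl : b.length = m := by rw [hb, comb_length m _ _ hlen]
  have haL : toV m a ∈ L := by rw [ha]; exact comb_mem hL _ _ hlen hx
  have hbL : toV m b ∈ L := by rw [hb]; exact comb_mem hL _ _ hlen hx
  have e1 := kdot_eq m gs xs A h
  have e2 := kdot_eq m gs xs B h
  rw [← ha] at e1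
  rw [← hb] at e2
  have e3 : (V : ℤ) = pkz (lsub a b) + 32 * onz m := by
    have e4 : (V : ℤ) + kdot gs B + ksum gs A * koff m = kdot gs A + (ksum gs B + 1) * koff m := by
      exact_mod_cast h3'
    rw [koff_eq, e1, e2] at e4
    rw [pkz_lsub a b (by omega)]
    linarith
  have e5 := unpk_spec m V
  have hVl := unpk_length m V
  have hsl : (lsub a b).length = m := by
    unfold lsub
    rw [List.length_zipWith]
    omega
  have e6 : pkz (lsub (unpk m V) (lsub a b)) +
      4096 ^ (lsub (unpk m V) (lsub a b)).length * ((V / 4096 ^ m : ℕ) : ℤ) = 0 := by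
    have e7 : (lsub (unpk m V) (lsub a b)).length = m := by
      rw [lsub, List.length_zipWith]
      omega
    rw [pkz_lsub _ _ (by omega), e7]
    linarith
  have hb1 : ∀ z ∈ a, |z| ≤ 31 * (ksum gs A : ℤ) := by rw [ha]; exact comb_bound m gs xs A h
  have hb2 : ∀ z ∈ b, |z| ≤ 31 * (ksum gs B : ℤ) := by rw [hb]; exact comb_bound m gs xs B h
  have hb3 := lsub_mem a b _ _ (by omega) hb1 hb2
  have hb4 := lsub_mem (unpk m V) (lsub a b) _ _ (by omega) hV hb3
  have h5 := pkz_uniq _ _ (fun z hz => by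
    have := hb4 z hz
    omega) e6
  have h6 := eq_of_lsub_zero _ _ (by omega) h5
  rw [h6, toV_lsub m a b hal hbl]
  exact hL.sub _ haL _ hbL

end TightIndep
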