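import Pool.Agent.Lib.MP_f31b39_co.FastA

/-!
# Tight `t`-independent sets: the fast kernel checker, lanes
-/

namespace TightIndep

/-- packed lanes -/
def lanes (l : List ℕ) : ℕ := l.foldr (fun d r => d + 256 * r) 0

theorem lanes_cons (d : ℕ) (l : List ℕ) : lanes (d :: l) = d + 256 * lanes l := rfl

theorem lanes_land : ∀ (a : List ℕ) (c : List ℕ), a.length = c.length →
    (∀ x ∈ a, x < 256) → (∀ x ∈ c, x < 256) →
    Nat.land (lanes a) (lanes c) = lanes (List.zipWith Nat.land a c)
  | [], [], _, _, _ => rfl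
  | x :: a, y :: c, h, ha, hc => by
    have h1 := lanes_land a c (by simpa using h) (fun z hz => ha z (List.mem_cons_of_mem _ hz))
      (fun z hz => hc z (List.mem_cons_of_mem _ hz))
    have hx : x < 2 ^ 8 := ha x List.mem_cons_self
    have hy : y < 2 ^ 8 := hc y List.mem_cons_self
    rw [lanes_cons, lanes_cons, List.zipWith_cons_cons, lanes_cons, ← h1]
    show (x + 256 * lanes a) &&& (y + 256 * lanes c) = (x &&& y) + 256 * (lanes a &&& lanes c)
    have e : ∀ z w : ℕ, z + 256 * w = 2 ^ 8 * w + z := fun z w => by ring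
    rw [e, e, e]
    apply Nat.eq_of_testBit_eq
    intro i
    rw [Nat.testBit_and, Nat.testBit_two_pow_mul_add _ hx, Nat.testBit_two_pow_mul_add _ hy,
      Nat.testBit_two_pow_mul_add _ (Nat.and_lt_two_pow _ hy)]
    split_ifs
    · rw [Nat.testBit_and]
    · rw [Nat.testBit_and]

theorem land128 : ∀ d < 256, Nat.land d 128 = if 128 ≤ d then 128 else 0 := by
  decide +kernel

theorem kone_eq : ∀ ys : List ℕ, kone ys = lanes (ys.map fun _ => 1)
  | [] => rfl
  | y :: ys => by
    have h1 : kone (y :: ys) = 1 + 256 * kone ys := rfl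
    rw [h1, kone_eq ys]
    rfl

theorem lanes_mul (c : ℕ) : ∀ l : List ℕ, c * lanes l = lanes (l.map (c * ·))
  | [] => by simp [lanes]
  | d :: l => by
    rw [lanes_cons, List.map_cons, lanes_cons, ← lanes_mul c l]
    ring

theorem lanes_add : ∀ (a c : List ℕ), a.length = c.length →
    lanes a + lanes c = lanes (List.zipWith (· + ·) a c)
  | [], [], _ => rfl
  | x :: a, y :: c, h => by
    rw [lanes_cons, lanes_cons, List.zipWith_cons_cons, lanes_cons,
      ← lanes_add a c (by simpa using h)]
    ring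

/-- the mask -/
noncomputable def mk (ys : List ℕ) : ℕ := 128 * kone ys

theorem mk_eq (ys : List ℕ) : mk ys = lanes (ys.map fun _ => 128) := by
  rw [mk, kone_eq, lanes_mul, List.map_map]
  rfl

/-- the packed slacks -/
def pS (prs : List (ℕ × ℕ)) : ℕ := lanes (prs.map fun p => 128 + p.1)

theorem guard_true (prs : List (ℕ × ℕ)) (h : ∀ p ∈ prs, p.1 < 128) :
    Nat.beq (Nat.land (pS prs) (mk (prs.map Prod.snd))) (mk (prs.map Prod.snd)) = true := by
  have h1 : Nat.land (pS prs) (mk (prs.map Prod.snd)) = mk (prs.map Prod.snd) := by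
    rw [mk_eq, pS, List.map_map, lanes_land _ _ (by simp) (by
      intro x hx
      obtain ⟨p, hp, rfl⟩ := List.mem_map.1 hx
      have := h p hp
      omega) (by
      intro x hx
      obtain ⟨p, hp, rfl⟩ := List.mem_map.1 hx
      simp)]
    congr 1
    rw [List.zipWith_map]
    induction prs with
    | nil => rfl
    | cons p prs ih =>
      rw [List.zipWith_cons_cons, List.map_cons, ih (fun q hq => h q (List.mem_cons_of_mem _ hq))]
      congr 1
      have := h p List.mem_cons_self
      show Nat.land (128 + p.1) 128 = 128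
      rw [land128 _ (by omega), if_pos (by omega)]
  rw [h1]
  exact Nat.beq_refl _

/-- the lanes of a function of the hints -/
def lf2 (f : ℕ → ℕ) (prs : List (ℕ × ℕ)) : ℕ := lanes (prs.map fun p => f p.2)

theorem kind_eq (f : ℕ → ℕ) (v : ℕ) (hv : v ≤ 127) (prs : List (ℕ × ℕ))
    (h : ∀ p ∈ prs, f p.2 ≤ 128) :
    kind (kone (prs.map Prod.snd)) (mk (prs.map Prod.snd)) (lf2 f prs) v =
      lanes (prs.map fun p => if v < f p.2 then 1 else 0) := by
  have h1 : lf2 f prs + (127 - v) * kone (prs.map Prod.snd) =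
      lanes (prs.map fun p => f p.2 + (127 - v)) := by
    rw [kone_eq, lanes_mul, lf2, List.map_map, List.map_map, lanes_add _ _ (by simp),
      List.zipWith_map]
    congr 1
    induction prs with
    | nil => rfl
    | cons p prs ih =>
      rw [List.zipWith_cons_cons, List.map_cons, ih (fun q hq => h q (List.mem_cons_of_mem _ hq))]
      simp
  have h2 : kind (kone (prs.map Prod.snd)) (mk (prs.map Prod.snd)) (lf2 f prs) v =
      Nat.land (lf2 f prs + (127 - v) * kone (prs.map Prod.snd)) (mk (prs.map Prod.snd)) / 128 :=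
    rfl
  rw [h2, h1, mk_eq, List.map_map, lanes_land _ _ (by simp) (by
      intro x hx
      obtain ⟨p, hp, rfl⟩ := List.mem_map.1 hx
      have := h p hp
      omega) (by
      intro x hx
      obtain ⟨p, hp, rfl⟩ := List.mem_map.1 hx
      simp)]
  have h3 : List.zipWith Nat.land (prs.map fun p => f p.2 + (127 - v))
      (prs.map ((fun _ => 128) ∘ Prod.snd)) =
      (prs.map fun p => if v < f p.2 then 1 else 0).map (128 * ·) := by
    rw [List.zipWith_map, List.map_map]
    clear h1 h2
    induction prs with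
    | nil => rfl
    | cons p prs ih =>
      rw [List.zipWith_cons_cons, List.map_cons, ih (fun q hq => h q (List.mem_cons_of_mem _ hq))]
      congr 1
      have := h p List.mem_cons_self
      show Nat.land (f p.2 + (127 - v)) 128 = 128 * (if v < f p.2 then 1 else 0)
      rw [land128 _ (by omega)]
      split_ifs <;> omega
  rw [h3, ← lanes_mul, Nat.mul_div_cancel_left _ (by norm_num)]

/-- one step of the slacks -/
def up1 (f : ℕ → ℕ) (v : ℕ) (p : ℕ × ℕ) : ℕ × ℕ := (p.1 - (if v < f p.2 then 1 else 0), p.2)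

theorem pS_sub (f : ℕ → ℕ) (v : ℕ) : ∀ (prs : List (ℕ × ℕ)),
    (∀ p ∈ prs, (if v < f p.2 then 1 else 0) ≤ p.1) →
    pS prs = pS (prs.map (up1 f v)) + lanes (prs.map fun p => if v < f p.2 then 1 else 0)
  | [], _ => rfl
  | p :: prs, h => by
    have h1 := pS_sub f v prs (fun q hq => h q (List.mem_cons_of_mem _ hq))
    have h2 := h p List.mem_cons_self
    unfold pS at h1 ⊢
    simp only [List.map_cons, lanes_cons]
    rw [h1]
    unfold up1
    simp only
    omega

theorem kadv_sound (f : ℕ → ℕ) (v : ℕ) (hv : v ≤ 127) (prs : List (ℕ × ℕ)) (k : ℕ → Bool)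
    (h : ∀ p ∈ prs, p.1 < 128 ∧ f p.2 ≤ 128 ∧ (if v < f p.2 then 1 else 0) ≤ p.1)
    (hk : kadv (kone (prs.map Prod.snd)) (mk (prs.map Prod.snd)) (lf2 f prs) v (pS prs) k = true) :
    k (pS (prs.map (up1 f v))) = true := by
  unfold kadv at hk
  rw [frc_eq, kind_eq f v hv prs (fun p hp => (h p hp).2.1)] at hk
  have h1 := pS_sub f v prs (fun p hp => (h p hp).2.2)
  have h2 : Nat.sub (pS prs) (lanes (prs.map fun p => if v < f p.2 then 1 else 0)) =
      pS (prs.map (up1 f v)) := by
    show pS prs - lanes (prs.map fun p => if v < f p.2 then 1 else 0) = _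
    omega
  rw [h2] at hk
  apply bimp_true.1 hk
  have h3 := guard_true (prs.map (up1 f v)) (by
    intro p hp
    obtain ⟨q, hq, rfl⟩ := List.mem_map.1 hp
    have := (h q hq).1
    unfold up1
    simp only
    omega)
  rwa [List.map_map, show Prod.snd ∘ up1 f v = Prod.snd from rfl] at h3

/-- several steps of the slacks -/
def upa (f : ℕ → ℕ) (v a : ℕ) (p : ℕ × ℕ) : ℕ × ℕ :=
  (p.1 - (min (f p.2) (v + a) - min (f p.2) v), p.2)

theorem upa_succ (f : ℕ → ℕ) (v a : ℕ) (p : ℕ × ℕ) :
    upa f (v + 1) a (up1 f v p) = upa f v (a + 1) p := by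
  unfold upa up1
  simp only
  congr 1
  split_ifs <;> omega

theorem klp2_sound (f : ℕ → ℕ) (next : ℕ → ℕ → ℕ → Bool) (mv : ℕ → ℕ) :
    ∀ (a r v : ℕ) (prs : List (ℕ × ℕ)) (X : ℕ), a ≤ r → v + a ≤ 127 →
    (∀ p ∈ prs, p.1 < 128 ∧ f p.2 ≤ 128 ∧ min (f p.2) (v + a) - min (f p.2) v ≤ p.1) →
    klp2 (kone (prs.map Prod.snd)) (mk (prs.map Prod.snd)) next (lf2 f prs) mv r v (pS prs) X =
      true → next (r - a) (pS (prs.map (upa f v a))) (mv^[a] X) = true
  | 0, r, v, prs, X, _, _, _, h => by
    have h1 : prs.map (upa f v 0) = prs := by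
      conv_rhs => rw [← List.map_id prs]
      apply List.map_congr_left
      intro p _
      unfold upa
      simp
    rw [h1]
    cases r with
    | zero => exact h
    | succ n => exact (band_true.1 h).1
  | a + 1, r, v, prs, X, har, hv, hp, h => by
    obtain ⟨n, rfl⟩ : ∃ n, r = n + 1 := ⟨r - 1, by omega⟩
    have h1 := (band_true.1 h).2
    have h2 := kadv_sound f v (by omega) prs _ (fun p hpp => by
      obtain ⟨h3, h4, h5⟩ := hp p hpp
      refine ⟨h3, h4, ?_⟩
      split_ifs <;> omega) h1
    have h6 : lf2 f (prs.map (up1 f v)) = lf2 f prs := by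
      unfold lf2
      rw [List.map_map]
      rfl
    have h7 : (prs.map (up1 f v)).map Prod.snd = prs.map Prod.snd := by
      rw [List.map_map]
      rfl
    have h8 := klp2_sound f next mv a n (v + 1) (prs.map (up1 f v)) (mv X) (by omega) (by omega)
      (by
        intro p hpp
        obtain ⟨q, hq, rfl⟩ := List.mem_map.1 hpp
        obtain ⟨h3, h4, h5⟩ := hp q hq
        unfold up1
        simp only
        refine ⟨by omega, h4, ?_⟩
        split_ifs <;> omega)
      (by rw [h6, h7]; exact h2)
    rw [List.map_map] at h8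
    rw [show n + 1 - (a + 1) = n - a by omega, Function.iterate_succ_apply]
    rwa [show upa f (v + 1) a ∘ up1 f v = upa f v (a + 1) from funext (upa_succ f v a)] at h8

end TightIndep
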