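import Pool.Agent.Lib.MP_f31b39_co.FastB

/-!
# Tight `t`-independent sets: the fast kernel checker, the enumeration
-/

namespace TightIndep

/-- the data of the coordinates -/
noncomputable def cds : ℕ → List ℕ → ℕ → CD
  | 0, _, _ => CD.nil
  | m + 1, ys, Q => CD.cons (klp ys) (kln ys) (Q % 4096) (cds m (kshift ys) (Q / 4096))

theorem kbld_eq : ∀ (m : ℕ) (ys : List ℕ) (Q : ℕ) (k : CD → Bool),
    kbld m ys Q k = k (cds m ys Q)
  | 0, _, _, _ => rfl
  | m + 1, ys, Q, k => by
    have h1 : kbld (m + 1) ys Q k = frc (klp ys) fun a => frc (kln ys) fun b =>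
      frc (Q % 4096) fun q => kbld m (kshift ys) (Q / 4096) fun t => k (CD.cons a b q t) := rfl
    rw [h1, frc_eq, frc_eq, frc_eq, kbld_eq m]
    rfl

theorem klp_eq : ∀ prs : List (ℕ × ℕ), klp (prs.map Prod.snd) = lf2 (fun y => y % 4096 - 32) prs
  | [] => rfl
  | p :: prs => by
    have h1 : klp ((p :: prs).map Prod.snd) = (p.2 % 4096 - 32) + 256 * klp (prs.map Prod.snd) :=
      rfl
    rw [h1, klp_eq prs]
    rfl

theorem kln_eq : ∀ prs : List (ℕ × ℕ), kln (prs.map Prod.snd) = lf2 (fun y => 32 - y % 4096) prs
  | [] => rfl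
  | p :: prs => by
    have h1 : kln ((p :: prs).map Prod.snd) = (32 - p.2 % 4096) + 256 * kln (prs.map Prod.snd) :=
      rfl
    rw [h1, kln_eq prs]
    rfl

theorem kshift_eq : ∀ ys : List ℕ, kshift ys = ys.map (· / 4096)
  | [] => rfl
  | y :: ys => by
    have h1 : kshift (y :: ys) = (y / 4096) :: kshift ys := rfl
    rw [h1, kshift_eq ys]
    rfl

theorem kone_congr {ys zs : List ℕ} (h : ys.length = zs.length) : kone ys = kone zs := by
  rw [kone_eq, kone_eq]
  congr 1
  rw [List.map_const', List.map_const', h]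

/-- the number of steps towards `y` -/
def tws : List ℤ → List ℤ → List ℤ → ℕ
  | q :: qs, x :: xs, y :: ys => (ovz x y - ovz q y) + tws qs xs ys
  | _, _, _ => 0

theorem tws_dist : ∀ (q x y : List ℤ) (r : ℕ), Cand q x r → y.length = q.length →
    ln (lsub x y) + 2 * tws q x y = ln (lsub q y) + r
  | [], [], [], r, h, _ => by
    rw [Cand] at h
    rw [h]
    rfl
  | q :: qs, x :: xs, y :: ys, r, h, hl => by
    rw [Cand] at h
    obtain ⟨a, ha, hv, h⟩ := h
    have h1 := tws_dist qs xs ys (r - a) h (by simpa using hl)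
    have h2 : lsub (x :: xs) (y :: ys) = (x - y) :: lsub xs ys := rfl
    have h3 : lsub (q :: qs) (y :: ys) = (q - y) :: lsub qs ys := rfl
    rw [h2, h3, ln, ln, tws]
    have h4 : (x - y).natAbs + 2 * (ovz x y - ovz q y) = (q - y).natAbs + a := by
      unfold ovz
      rcases hv with ⟨h5, rfl⟩ | ⟨h5, rfl⟩ <;> omega
    omega

/-- shifting the hints -/
def shp (p : ℕ × ℕ) : ℕ × ℕ := (p.1, p.2 / 4096)

theorem pS_shp (prs : List (ℕ × ℕ)) : pS (prs.map shp) = pS prs := by
  unfold pS
  rw [List.map_map]
  rfl

theorem iter_add (pw : ℕ) : ∀ a X : ℕ, (fun X => Nat.add X pw)^[a] X = X + a * pw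
  | 0, X => by simp
  | a + 1, X => by
    rw [Function.iterate_succ_apply, iter_add pw a]
    show X + pw + a * pw = X + (a + 1) * pw
    ring

theorem iter_sub (pw : ℕ) : ∀ a X : ℕ, (fun X => Nat.sub X pw)^[a] X = X - a * pw
  | 0, X => by simp
  | a + 1, X => by
    rw [Function.iterate_succ_apply, iter_sub pw a]
    show X - pw - a * pw = X - (a + 1) * pw
    rw [Nat.sub_sub, add_mul, one_mul, add_comm]

theorem kenum_sound (tg : List ℕ) : ∀ (m : ℕ) (prs : List (ℕ × ℕ)) (Q : ℕ) (xs : List ℤ)
    (r X pw : ℕ), Cand (unpk m Q) xs r → (∀ a ∈ xs, |a| ≤ 31) → (∀ a ∈ unpk m Q, |a| ≤ 31) →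
    r ≤ 31 →
    (∀ p ∈ prs, p.1 < 128 ∧ (∀ a ∈ unpk m p.2, |a| ≤ 94) ∧
      tws (unpk m Q) xs (unpk m p.2) ≤ p.1) →
    pw * Q ≤ X →
    kenum (kone (prs.map Prod.snd)) (mk (prs.map Prod.snd)) tg (cds m (prs.map Prod.snd) Q) r
      (pS prs) X pw = true →
    ∃ Z ∈ tg, (Z : ℤ) = X + pw * (pkz xs - pkz (unpk m Q))
  | 0, prs, Q, xs, r, X, pw, hc, _, _, _, _, _, h => by
    cases xs with
    | cons x xs => simp only [unpk, Cand] at hc
    | nil =>
      simp only [unpk, Cand] at hc
      subst hc
      have h1 := bimp_true.1 (show bimp (Nat.beq 0 0) (kmem X tg) = true from h) rfl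
      exact ⟨X, kmem_true h1, by simp [pkz, unpk]⟩
  | m + 1, prs, Q, [], r, X, pw, hc, _, _, _, _, _, _ => by
    simp only [unpk, Cand] at hc
  | m + 1, prs, Q, x :: xs, r, X, pw, hc, hx, hQ, hr, hp, hX, h => by
    rw [unpk, Cand] at hc
    obtain ⟨a, ha, hv, hc⟩ := hc
    rw [unpk] at hQ
    have hq := abs_le.1 (hQ _ List.mem_cons_self)
    have hx0 := abs_le.1 (hx _ List.mem_cons_self)
    have hxs : ∀ a ∈ xs, |a| ≤ 31 := fun z hz => hx z (List.mem_cons_of_mem _ hz)
    have hQs : ∀ a ∈ unpk m (Q / 4096), |a| ≤ 31 := fun z hz => hQ z (List.mem_cons_of_mem _ hz)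
    have hpw : pw * (4096 * (Q / 4096) + Q % 4096) ≤ X := by rwa [Nat.div_add_mod]
    -- the rest
    have hrest : ∀ (prs' : List (ℕ × ℕ)) (X' : ℕ),
        (∀ p ∈ prs', p.1 < 128 ∧ (∀ a ∈ unpk m (p.2 / 4096), |a| ≤ 94) ∧
          tws (unpk m (Q / 4096)) xs (unpk m (p.2 / 4096)) ≤ p.1) →
        prs'.map Prod.snd = prs.map Prod.snd → pw * 4096 * (Q / 4096) ≤ X' →
        (X' : ℤ) = X + pw * (x - (((Q % 4096 : ℕ) : ℤ) - 32)) →
        kenum (kone (prs.map Prod.snd)) (mk (prs.map Prod.snd)) tg
          (cds m (kshift (prs.map Prod.snd)) (Q / 4096)) (r - a) (pS prs') X' (pw * 4096) =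
            true →
        ∃ Z ∈ tg, (Z : ℤ) = X + pw * (pkz (x :: xs) - pkz (unpk (m + 1) Q)) := by
      intro prs' X' h1 h2 h3 h4 h5
      have e1 : (prs'.map shp).map Prod.snd = kshift (prs.map Prod.snd) := by
        rw [kshift_eq, ← h2, List.map_map, List.map_map]
        rfl
      have e2 : kone ((prs'.map shp).map Prod.snd) = kone (prs.map Prod.snd) := by
        apply kone_congr
        rw [← h2]
        simp
      have e3 : mk ((prs'.map shp).map Prod.snd) = mk (prs.map Prod.snd) := by
        unfold mk
        rw [e2]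
      obtain ⟨Z, hZ, hZ2⟩ := kenum_sound tg m (prs'.map shp) (Q / 4096) xs (r - a) X'
        (pw * 4096) hc hxs hQs (by omega) (by
          intro p hpp
          obtain ⟨q, hq', rfl⟩ := List.mem_map.1 hpp
          exact h1 q hq') h3 (by rw [e2, e3, e1, pS_shp]; exact h5)
      refine ⟨Z, hZ, ?_⟩
      rw [hZ2, h4, unpk, pkz, pkz]
      push_cast
      ring
    -- the hints
    have hhint : ∀ p ∈ prs, p.1 < 128 ∧
        (∀ a ∈ unpk m (p.2 / 4096), |a| ≤ 94) ∧ |(((p.2 % 4096 : ℕ) : ℤ) - 32)| ≤ 94 ∧
        (ovz x (((p.2 % 4096 : ℕ) : ℤ) - 32) -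
          ovz (((Q % 4096 : ℕ) : ℤ) - 32) (((p.2 % 4096 : ℕ) : ℤ) - 32)) +
          tws (unpk m (Q / 4096)) xs (unpk m (p.2 / 4096)) ≤ p.1 := by
      intro p hpp
      obtain ⟨h1, h2, h3⟩ := hp p hpp
      rw [unpk] at h2
      rw [unpk, unpk, tws] at h3
      exact ⟨h1, fun z hz => h2 z (List.mem_cons_of_mem _ hz), h2 _ List.mem_cons_self, h3⟩
    have hu : kenum (kone (prs.map Prod.snd)) (mk (prs.map Prod.snd)) tg
        (cds (m + 1) (prs.map Prod.snd) Q) r (pS prs) X pw =
        frc (pw * 4096) fun pw' =>
      @Bool.rec (fun _ => Bool)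
        (@Bool.rec (fun _ => Bool)
          (band (klp2 (kone (prs.map Prod.snd)) (mk (prs.map Prod.snd))
            (fun r S X => kenum (kone (prs.map Prod.snd)) (mk (prs.map Prod.snd)) tg
              (cds m (kshift (prs.map Prod.snd)) (Q / 4096)) r S X pw')
              (klp (prs.map Prod.snd)) (fun X => Nat.add X pw) r 0 (pS prs) X)
            (@Nat.rec (fun _ => Bool) true (fun n _ => kadv (kone (prs.map Prod.snd))
              (mk (prs.map Prod.snd)) (kln (prs.map Prod.snd)) 0 (pS prs) fun S' =>
              klp2 (kone (prs.map Prod.snd)) (mk (prs.map Prod.snd))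
            (fun r S X => kenum (kone (prs.map Prod.snd)) (mk (prs.map Prod.snd)) tg
              (cds m (kshift (prs.map Prod.snd)) (Q / 4096)) r S X pw')
               (kln (prs.map Prod.snd)) (fun X => Nat.sub X pw) n 1 S'
                (Nat.sub X pw)) r))
          (klp2 (kone (prs.map Prod.snd)) (mk (prs.map Prod.snd))
            (fun r S X => kenum (kone (prs.map Prod.snd)) (mk (prs.map Prod.snd)) tg
              (cds m (kshift (prs.map Prod.snd)) (Q / 4096)) r S X pw')
            (kln (prs.map Prod.snd)) (fun X => Nat.sub X pw) r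
            (32 - Q % 4096) (pS prs) X)
          (Nat.ble (Q % 4096) 31))
        (klp2 (kone (prs.map Prod.snd)) (mk (prs.map Prod.snd))
            (fun r S X => kenum (kone (prs.map Prod.snd)) (mk (prs.map Prod.snd)) tg
              (cds m (kshift (prs.map Prod.snd)) (Q / 4096)) r S X pw')
          (klp (prs.map Prod.snd)) (fun X => Nat.add X pw) r
          (Q % 4096 - 32) (pS prs) X)
        (Nat.ble 33 (Q % 4096)) := rfl
    rw [hu, frc_eq] at h
    -- after the steps in the positive direction
    have hpos : 32 ≤ Q % 4096 → x = (((Q % 4096 : ℕ) : ℤ) - 32) + a →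
        klp2 (kone (prs.map Prod.snd)) (mk (prs.map Prod.snd))
            (fun r S X => kenum (kone (prs.map Prod.snd)) (mk (prs.map Prod.snd)) tg
              (cds m (kshift (prs.map Prod.snd)) (Q / 4096)) r S X (pw * 4096))
          (klp (prs.map Prod.snd)) (fun X => Nat.add X pw) r
          (Q % 4096 - 32) (pS prs) X = true →
        ∃ Z ∈ tg, (Z : ℤ) = X + pw * (pkz (x :: xs) - pkz (unpk (m + 1) Q)) := by
      intro h1 h2 h3
      rw [klp_eq] at h3
      have h4 := klp2_sound _ _ _ a r _ prs X ha (by omega) (by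
        intro p hpp
        obtain ⟨h5, h6, h7, h8⟩ := hhint p hpp
        have h9 := abs_le.1 h7
        rw [h2] at h8
        unfold ovz at h8
        refine ⟨h5, by omega, ?_⟩
        omega) h3
      rw [iter_add] at h4
      refine hrest _ _ ?_ (by rw [List.map_map]; rfl) ?_ ?_ h4
      · intro p hpp
        obtain ⟨q, hq', rfl⟩ := List.mem_map.1 hpp
        obtain ⟨h5, h6, h7, h8⟩ := hhint q hq'
        have h9 := abs_le.1 h7
        rw [h2] at h8
        unfold ovz at h8
        unfold upa
        refine ⟨by dsimp only; omega, h6, ?_⟩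
        dsimp only
        omega
      · nlinarith
      · rw [h2]
        push_cast
        ring
    have hle : a ≤ Q % 4096 → pw * 4096 * (Q / 4096) + a * pw ≤ X := by
      intro h1
      have h2 : pw * a ≤ pw * (Q % 4096) := Nat.mul_le_mul_left _ h1
      nlinarith
    by_cases h33 : 33 ≤ Q % 4096
    · rw [Nat.ble_eq_true_of_le h33] at h
      rcases hv with ⟨h1, h2⟩ | ⟨h1, h2⟩
      · exact hpos (by omega) h2 h
      · omega
    · have hf : Nat.ble 33 (Q % 4096) = false := by
        rw [← Bool.not_eq_true, Nat.ble_eq]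
        exact h33
      rw [hf] at h
      by_cases h31 : Q % 4096 ≤ 31
      · rw [Nat.ble_eq_true_of_le h31] at h
        rcases hv with ⟨h1, h2⟩ | ⟨h1, h2⟩
        · omega
        · have h3 : klp2 (kone (prs.map Prod.snd)) (mk (prs.map Prod.snd))
            (fun r S X => kenum (kone (prs.map Prod.snd)) (mk (prs.map Prod.snd)) tg
              (cds m (kshift (prs.map Prod.snd)) (Q / 4096)) r S X (pw * 4096))
            (kln (prs.map Prod.snd)) (fun X => Nat.sub X pw) r
            (32 - Q % 4096) (pS prs) X = true := h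
          rw [kln_eq] at h3
          have h4 := klp2_sound _ _ _ a r _ prs X ha (by omega) (by
            intro p hpp
            obtain ⟨h5, h6, h7, h8⟩ := hhint p hpp
            have h9 := abs_le.1 h7
            rw [h2] at h8
            unfold ovz at h8
            refine ⟨h5, by omega, ?_⟩
            omega) h3
          rw [iter_sub] at h4
          have h10 := hle (by omega)
          refine hrest _ _ ?_ (by rw [List.map_map]; rfl) ?_ ?_ h4
          · intro p hpp
            obtain ⟨q, hq', rfl⟩ := List.mem_map.1 hpp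
            obtain ⟨h5, h6, h7, h8⟩ := hhint q hq'
            have h9 := abs_le.1 h7
            rw [h2] at h8
            unfold ovz at h8
            unfold upa
            refine ⟨by dsimp only; omega, h6, ?_⟩
            dsimp only
            omega
          · omega
          · rw [Nat.cast_sub (by omega), h2]
            push_cast
            ring
      · have hf2 : Nat.ble (Q % 4096) 31 = false := by
          rw [← Bool.not_eq_true, Nat.ble_eq]
          exact h31
        rw [hf2] at h
        have hQ32 : Q % 4096 = 32 := by omega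
        obtain ⟨hA, hB⟩ := band_true.1 h
        have hcase : x = (((Q % 4096 : ℕ) : ℤ) - 32) + a ∨
            (x = (((Q % 4096 : ℕ) : ℤ) - 32) - a ∧ 1 ≤ a) := by
          rcases hv with ⟨h1, h2⟩ | ⟨h1, h2⟩
          · exact Or.inl h2
          · rcases Nat.eq_zero_or_pos a with h3 | h3
            · left
              omega
            · exact Or.inr ⟨h2, h3⟩
        rcases hcase with h2 | ⟨h2, ha1⟩
        · exact hpos (by omega) h2 (by rw [hQ32]; exact hA)
        · obtain ⟨n, rfl⟩ : ∃ n, r = n + 1 := ⟨r - 1, by omega⟩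
          obtain ⟨b, rfl⟩ : ∃ b, a = b + 1 := ⟨a - 1, by omega⟩
          have hB' : kadv (kone (prs.map Prod.snd))
              (mk (prs.map Prod.snd)) (kln (prs.map Prod.snd)) 0 (pS prs) (fun S' =>
              klp2 (kone (prs.map Prod.snd)) (mk (prs.map Prod.snd))
            (fun r S X => kenum (kone (prs.map Prod.snd)) (mk (prs.map Prod.snd)) tg
              (cds m (kshift (prs.map Prod.snd)) (Q / 4096)) r S X (pw * 4096))
               (kln (prs.map Prod.snd)) (fun X => Nat.sub X pw) n 1 S'
                (Nat.sub X pw)) = true := hB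
          rw [kln_eq] at hB'
          have h3 := kadv_sound _ 0 (by omega) prs _ (by
            intro p hpp
            obtain ⟨h5, h6, h7, h8⟩ := hhint p hpp
            have h9 := abs_le.1 h7
            rw [h2] at h8
            unfold ovz at h8
            refine ⟨h5, by omega, ?_⟩
            split_ifs <;> omega) hB'
          obtain ⟨f, hf⟩ : ∃ f : ℕ → ℕ, f = fun y => 32 - y % 4096 := ⟨_, rfl⟩
          have hfv : ∀ y, f y = 32 - y % 4096 := fun y => by rw [hf]
          rw [← hf] at h3
          have e1 : (prs.map (up1 f 0)).map Prod.snd = prs.map Prod.snd := by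
            rw [List.map_map]
            rfl
          have e2 : lf2 f (prs.map (up1 f 0)) = lf2 f prs := by
            unfold lf2
            rw [List.map_map]
            rfl
          have h4 := klp2_sound f
            (fun r S X => kenum (kone (prs.map Prod.snd)) (mk (prs.map Prod.snd)) tg
              (cds m (kshift (prs.map Prod.snd)) (Q / 4096)) r S X (pw * 4096))
            (fun X => Nat.sub X pw) b n 1 (prs.map (up1 f 0)) (Nat.sub X pw) (by omega)
            (by omega) (by
              intro p hpp
              obtain ⟨q, hq', rfl⟩ := List.mem_map.1 hpp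
              obtain ⟨h5, h6, h7, h8⟩ := hhint q hq'
              have h9 := abs_le.1 h7
              rw [h2] at h8
              unfold ovz at h8
              unfold up1
              have := hfv q.2
              refine ⟨by dsimp only; omega, by dsimp only; omega, ?_⟩
              dsimp only
              split_ifs <;> omega) (by rw [e1, e2]; exact h3)
          rw [iter_sub] at h4
          have h10 := hle (by omega)
          have e3 : Nat.sub X pw - b * pw = X - (b + 1) * pw := by
            show X - pw - b * pw = X - (b + 1) * pw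
            rw [Nat.sub_sub, add_mul, one_mul, add_comm]
          rw [e3, List.map_map] at h4
          rw [show n - b = n + 1 - (b + 1) by omega] at h4
          rw [show upa f 1 b ∘ up1 f 0 = upa f 0 (b + 1) from
            funext (upa_succ f 0 b)] at h4
          refine hrest _ _ ?_ (by rw [List.map_map]; rfl) ?_ ?_ h4
          · intro p hpp
            obtain ⟨q, hq', rfl⟩ := List.mem_map.1 hpp
            obtain ⟨h5, h6, h7, h8⟩ := hhint q hq'
            have h9 := abs_le.1 h7
            rw [h2] at h8
            unfold ovz at h8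
            unfold upa
            have := hfv q.2
            refine ⟨by dsimp only; omega, h6, ?_⟩
            dsimp only
            omega
          · omega
          · rw [Nat.cast_sub (by omega), h2]
            push_cast
            ring

end TightIndep
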