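import Pool.Agent.Lib.MP_f31b39_co.FastC

/-!
# Tight `t`-independent sets: the fast kernel checker, soundness
-/

namespace TightIndep

variable {m s μ : ℕ} {L : Set (Fin m → ℤ)}

theorem lsub_comm_ln : ∀ (a b : List ℤ), ln (lsub a b) = ln (lsub b a)
  | [], [] => rfl
  | [], _ :: _ => rfl
  | _ :: _, [] => rfl
  | x :: a, y :: b => by
    have h1 : lsub (x :: a) (y :: b) = (x - y) :: lsub a b := rfl
    have h2 : lsub (y :: b) (x :: a) = (y - x) :: lsub b a := rfl
    rw [h1, h2, ln, ln, lsub_comm_ln a b]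
    omega

theorem abs_le_of_lsub : ∀ (a b : List ℤ) (B : ℤ), a.length = b.length → (∀ x ∈ b, |x| ≤ B) →
    ∀ x ∈ a, |x| ≤ (ln (lsub a b) : ℤ) + B
  | [], [], _, _, _ => fun x hx => absurd hx List.not_mem_nil
  | x :: a, y :: b, B, h, hb => by
    have h1 : lsub (x :: a) (y :: b) = (x - y) :: lsub a b := rfl
    have h2 := abs_le_of_lsub a b B (by simpa using h) (fun z hz => hb z (List.mem_cons_of_mem _ hz))
    have h3 := abs_le.1 (hb y List.mem_cons_self)
    rw [h1, ln]
    intro z hz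
    push_cast
    rcases List.mem_cons.1 hz with rfl | hz
    · rw [abs_le]
      have := abs_le.1 (le_refl |z - y|)
      have : (0 : ℤ) ≤ (ln (lsub a b) : ℤ) := Int.natCast_nonneg _
      constructor <;> omega
    · have := h2 z hz
      have : (0 : ℤ) ≤ |x - y| := abs_nonneg _
      omega

theorem khchk_sound (s1 : ℕ) (gs : List ℕ) (Q : ℕ) : ∀ (H : KH),
    khchk m s1 (koff m) gs Q H = true → ∀ y ∈ khys H, ∃ A B, klin (koff m) gs y A B = true ∧
      kdist m y Q ≤ 63 ∧ kdist m y Q ≠ s1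
  | .nil, _ => fun y hy => absurd hy List.not_mem_nil
  | .cons Y A B H, h => by
    have h1 : band (klin (koff m) gs Y A B) (frc (kdist m Y Q) fun k =>
      band (Nat.ble k 63) (band (bnot (Nat.beq k s1)) (khchk m s1 (koff m) gs Q H))) = true := h
    rw [frc_eq] at h1
    obtain ⟨h2, h3⟩ := band_true.1 h1
    obtain ⟨h4, h5⟩ := band_true.1 h3
    obtain ⟨h6, h7⟩ := band_true.1 h5
    intro y hy
    have hy' : y ∈ Y :: khys H := hy
    rcases List.mem_cons.1 hy' with rfl | hy'
    · refine ⟨A, B, h2, Nat.le_of_ble_eq_true h4, ?_⟩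
      intro h8
      rw [bnot_true, h8, Nat.beq_refl] at h6
      exact Bool.noConfusion h6
    · exact khchk_sound s1 gs Q H h7 y hy'

theorem kslack_eq (m qn Q : ℕ) : ∀ ys : List ℕ, (∀ y ∈ ys, qn ≤ kdist m y Q) →
    kslack m qn Q ys = pS (ys.map fun y => ((kdist m y Q - qn) / 2, y))
  | [], _ => rfl
  | y :: ys, h => by
    have h1 : kslack m qn Q (y :: ys) = (256 + kdist m y Q - qn) / 2 + 256 * kslack m qn Q ys :=
      rfl
    have h2 := h y List.mem_cons_self
    rw [h1, kslack_eq m qn Q ys (fun z hz => h z (List.mem_cons_of_mem _ hz))]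
    unfold pS
    rw [List.map_cons, List.map_cons, lanes_cons]
    omega

theorem knode_sound (hL : Lat m s μ L) (s1 qn : ℕ) (hs1 : s1 + 1 = s) (hqn : qn + s = μ + 1)
    (hμ : μ ≤ 31) (gs : List ℕ) (xs : List (List ℤ)) (h : List.Forall₂ (Rep m) gs xs)
    (hx : ∀ x ∈ xs, toV m x ∈ L) (Q : ℕ) (H : KH) (tg : List ℕ)
    (hk : knode m s1 qn (koff m) gs Q H tg = true) :
    ∃ Z ∈ tg, ∃ x, Rep m Z x ∧ toV m x ∈ L := by
  obtain ⟨h1, h2⟩ := band_true.1 hk
  obtain ⟨h3, h4⟩ := band_true.1 h1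
  obtain ⟨h5, h6⟩ := band_true.1 h2
  have h3' : knrm m Q = qn := Nat.eq_of_beq_eq_true h3
  have h4' : Q / 4096 ^ m = 0 := Nat.eq_of_beq_eq_true h4
  rw [knrm_eq] at h3'
  obtain ⟨q, hq⟩ : ∃ q, q = unpk m Q := ⟨_, rfl⟩
  have hql : q.length = m := by rw [hq, unpk_length]
  rw [← hq] at h3'
  have hs := hL.hs
  have hm2 := hL.h2
  have hm1 := hL.h1
  have hq31 : ∀ a ∈ q, |a| ≤ 31 := fun a ha => by
    have := abs_le_ln q a ha
    omega
  obtain ⟨v, hv, hv1, hv2⟩ := exists_cand hL (toV m q) (by rw [nrm_toV m q hql]; omega)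
  obtain ⟨x, hxv⟩ : ∃ x, x = List.ofFn v := ⟨_, rfl⟩
  have hxl : x.length = m := by rw [hxv, List.length_ofFn]
  have hxx : toV m x = v := by rw [hxv, toV_ofFn]
  have hlnx : ln x = μ := by rw [← nrm_toV m x hxl, hxx, hv1]
  have hx31 : ∀ a ∈ x, |a| ≤ 31 := fun a ha => by
    have := abs_le_ln x a ha
    omega
  have hcand : Cand q x s1 := by
    have h1 := cand_of m q x hql hxl (by
      rw [hxx]
      have h3 : ∀ i ∈ Finset.univ, (v i).natAbs ≤ (toV m q i).natAbs +
          (v i - toV m q i).natAbs := by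
        intro i _
        omega
      have h4 : ∑ i, (v i).natAbs = ∑ i, ((toV m q i).natAbs + (v i - toV m q i).natAbs) := by
        have h5 : nrm (toV m q) = ln q := nrm_toV m q hql
        rw [Finset.sum_add_distrib]
        unfold nrm at hv1 hv2 h5
        simp only [Pi.sub_apply] at hv2
        omega
      have h5 := (Finset.sum_eq_sum_iff_of_le h3).1 h4
      intro i
      exact h5 i (Finset.mem_univ i))
    rw [hxx] at h1
    rwa [show nrm (v - toV m q) = s1 by omega] at h1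
  -- the hints
  have hys : ∀ y ∈ khys H, (∀ a ∈ unpk m y, |a| ≤ 94) ∧ kdist m y Q ≤ 63 ∧
      qn + 2 * tws q x (unpk m y) ≤ kdist m y Q := by
    intro y hy
    obtain ⟨A, B, h7, h8, h9⟩ := khchk_sound s1 gs Q H h5 y hy
    have hyl := unpk_length m y
    have h10 : ∀ a ∈ unpk m y, |a| ≤ 94 := by
      intro a ha
      have := abs_le_of_lsub (unpk m y) q 31 (by omega) hq31 a ha
      rw [kdist_eq, ← hq] at h8
      omega
    have h11 := klin_sound hL gs xs y A B h hx h7 (fun a ha => (h10 a ha).trans (by norm_num))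
    have hne : v ≠ toV m (unpk m y) := by
      intro h12
      apply h9
      rw [kdist_eq, ← hq, ← nrm_toV m _ (by unfold lsub; rw [List.length_zipWith]; omega),
        toV_lsub m _ _ hyl hql, ← h12]
      omega
    have h13 := hL.min _ (hL.sub v hv _ h11) (sub_ne_zero.2 hne)
    have h14 : nrm (v - toV m (unpk m y)) = ln (lsub x (unpk m y)) := by
      rw [← nrm_toV m _ (by unfold lsub; rw [List.length_zipWith]; omega),
        toV_lsub m _ _ hxl hyl, hxx]
    have h15 := tws_dist q x (unpk m y) s1 hcand (by omega)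
    refine ⟨h10, h8, ?_⟩
    rw [kdist_eq, ← hq, lsub_comm_ln]
    omega
  -- the enumeration
  rw [frc_eq, frc_eq, frc_eq] at h6
  obtain ⟨prs, hprs⟩ : ∃ prs, prs = (khys H).map fun y => ((kdist m y Q - qn) / 2, y) := ⟨_, rfl⟩
  have hsnd : prs.map Prod.snd = khys H := by
    rw [hprs, List.map_map]
    exact List.map_id _
  have h7 := kslack_eq m qn Q (khys H) (fun y hy => by
    have := (hys y hy).2.2
    omega)
  rw [← hprs] at h7
  have hlt : ∀ p ∈ prs, p.1 < 128 := by
    intro p hp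
    rw [hprs] at hp
    obtain ⟨y, hy, rfl⟩ := List.mem_map.1 hp
    have := (hys y hy).2.1
    dsimp only
    omega
  have h8 : bimp (Nat.beq (Nat.land (pS prs) (mk (prs.map Prod.snd))) (mk (prs.map Prod.snd)))
      (kbld m (prs.map Prod.snd) Q fun cd => kenum (kone (prs.map Prod.snd))
        (mk (prs.map Prod.snd)) tg cd s1 (pS prs) Q 1) = true := by
    rw [← h7, hsnd]
    exact h6
  have h9 := bimp_true.1 h8 (guard_true prs hlt)
  rw [kbld_eq] at h9
  obtain ⟨Z, hZ, hZ2⟩ := kenum_sound tg m prs Q x s1 Q 1 (by rw [← hq]; exact hcand) hx31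
    (by rw [← hq]; exact hq31) (by omega) (by
      intro p hp
      refine ⟨hlt p hp, ?_⟩
      rw [hprs] at hp
      obtain ⟨y, hy, rfl⟩ := List.mem_map.1 hp
      obtain ⟨h10, h11, h12⟩ := hys y hy
      rw [← hq]
      refine ⟨h10, ?_⟩
      dsimp only
      omega) (by omega) h9
  refine ⟨Z, hZ, x, ⟨hxl, hx31, ?_⟩, by rw [hxx]; exact hv⟩
  have h10 := unpk_spec m Q
  rw [h4', ← hq] at h10
  rw [hZ2, ← hq, h10]
  push_cast
  ring

/-! ### signed permutations -/

/-- the digits of a packed permutation -/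
def dgp : ℕ → ℕ → List ℕ
  | 0, _ => []
  | k + 1, π => (π % 16) :: dgp k (π / 16)

/-- the digits of a packed sign -/
def dge : ℕ → ℕ → List ℤ
  | 0, _ => []
  | k + 1, ε => (if ε % 2 = 0 then 1 else -1) :: dge k (ε / 2)

theorem dgp_length : ∀ k π, (dgp k π).length = k
  | 0, _ => rfl
  | k + 1, π => by rw [dgp, List.length_cons, dgp_length k]

theorem dge_length : ∀ k ε, (dge k ε).length = k
  | 0, _ => rfl
  | k + 1, ε => by rw [dge, List.length_cons, dge_length k]

theorem dge_mem : ∀ k ε, ∀ e ∈ dge k ε, e = 1 ∨ e = -1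
  | 0, _ => fun e he => absurd he List.not_mem_nil
  | k + 1, ε => by
    intro e he
    rw [dge] at he
    rcases List.mem_cons.1 he with rfl | he
    · split_ifs
      · exact Or.inl rfl
      · exact Or.inr rfl
    · exact dge_mem k _ e he

theorem kperm_sound (m ρ : ℕ) : ∀ (k i π : ℕ), kperm m ρ k i π = true →
    (∀ p ∈ dgp k π, p < m) ∧ (dgp k π).map (fun p => ρ / 16 ^ p % 16) = List.range' i k
  | 0, _, _, _ => ⟨fun p hp => absurd hp List.not_mem_nil, rfl⟩
  | k + 1, i, π, h => by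
    obtain ⟨h1, h2⟩ := band_true.1 h
    obtain ⟨h3, h4⟩ := band_true.1 h1
    have h3' : π % 16 + 1 ≤ m := Nat.le_of_ble_eq_true h3
    have h4' : ρ / 16 ^ (π % 16) % 16 = i := Nat.eq_of_beq_eq_true h4
    obtain ⟨h5, h6⟩ := kperm_sound m ρ k (i + 1) (π / 16) h2
    constructor
    · intro p hp
      rw [dgp] at hp
      rcases List.mem_cons.1 hp with rfl | hp
      · omega
      · exact h5 p hp
    · rw [dgp, List.map_cons, h6, h4', List.range'_succ]

theorem rep_digit : ∀ (m g : ℕ) (x : List ℤ), Rep m g x → ∀ k < m,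
    ((g / 4096 ^ k % 4096 : ℕ) : ℤ) = x.getD k 0 + 32
  | 0, _, _, _, k, hk => absurd hk (Nat.not_lt_zero k)
  | m + 1, g, [], h, _, _ => absurd h.1 (by simp)
  | m + 1, g, a :: x, ⟨h1, h2, h3⟩, k, hk => by
    have ha := abs_le.1 (h2 a List.mem_cons_self)
    obtain ⟨K, hK⟩ : ∃ K, K = pkz x + 32 * onz m := ⟨_, rfl⟩
    have h4 : (g : ℤ) = (a + 32) + 4096 * K := by
      rw [h3, hK, pkz, onz]
      ring
    have h5 : ((g / 4096 : ℕ) : ℤ) = K := by omega
    cases k with
    | zero =>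
      rw [pow_zero, Nat.div_one]
      show ((g % 4096 : ℕ) : ℤ) = a + 32
      omega
    | succ k =>
      have h6 : Rep m (g / 4096) x := ⟨by simpa using h1,
        fun z hz => h2 z (List.mem_cons_of_mem _ hz), by rw [h5, hK]⟩
      have h7 := rep_digit m (g / 4096) x h6 k (by omega)
      rw [Nat.div_div_eq_div_mul, ← Nat.pow_succ'] at h7
      exact h7

theorem getD_abs (x : List ℤ) (h : ∀ a ∈ x, |a| ≤ 31) (k : ℕ) : |x.getD k 0| ≤ 31 := by
  by_cases hk : k < x.length
  · rw [List.getD_eq_getElem _ _ hk]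
    exact h _ (List.getElem_mem _)
  · rw [List.getD_eq_default _ _ (by omega)]
    simp

theorem kact_eq (m g : ℕ) (x : List ℤ) (hx : Rep m g x) : ∀ (k π ε : ℕ),
    (∀ p ∈ dgp k π, p < m) →
    ((kact k g π ε : ℕ) : ℤ) = pkz (lact (dgp k π) (dge k ε) x) + 32 * onz k ∧
    (∀ a ∈ lact (dgp k π) (dge k ε) x, |a| ≤ 31) ∧ (lact (dgp k π) (dge k ε) x).length = k
  | 0, _, _, _ => ⟨rfl, fun a ha => absurd ha List.not_mem_nil, rfl⟩
  | k + 1, π, ε, h => by
    have h0 : π % 16 < m := h _ List.mem_cons_self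
    obtain ⟨h1, h2, h3⟩ := kact_eq m g x hx k (π / 16) (ε / 2)
      (fun p hp => h p (List.mem_cons_of_mem _ hp))
    have h4 := rep_digit m g x hx (π % 16) h0
    have h5 := abs_le.1 (getD_abs x hx.2.1 (π % 16))
    have h6 : lact (dgp (k + 1) π) (dge (k + 1) ε) x =
      ((if ε % 2 = 0 then 1 else -1) * x.getD (π % 16) 0) ::
        lact (dgp k (π / 16)) (dge k (ε / 2)) x := rfl
    have h7 : kact (k + 1) g π ε = (@Bool.rec (fun _ => ℕ)
        (64 - g / 4096 ^ (π % 16) % 4096) (g / 4096 ^ (π % 16) % 4096)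
        (Nat.beq (ε % 2) 0)) + 4096 * kact k g (π / 16) (ε / 2) := rfl
    have h8 : ((@Bool.rec (fun _ => ℕ)
        (64 - g / 4096 ^ (π % 16) % 4096) (g / 4096 ^ (π % 16) % 4096)
        (Nat.beq (ε % 2) 0) : ℕ) : ℤ) = (if ε % 2 = 0 then 1 else -1) * x.getD (π % 16) 0 + 32 := by
      by_cases he : ε % 2 = 0
      · rw [he, if_pos rfl, Nat.beq_refl]
        show ((g / 4096 ^ (π % 16) % 4096 : ℕ) : ℤ) = _
        rw [h4]
        ring
      · have he' : Nat.beq (ε % 2) 0 = false := by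
          rw [← Bool.not_eq_true]
          exact fun h9 => he (Nat.eq_of_beq_eq_true h9)
        rw [he', if_neg he]
        show ((64 - g / 4096 ^ (π % 16) % 4096 : ℕ) : ℤ) = _
        omega
    refine ⟨?_, ?_, ?_⟩
    · rw [h7, h6, pkz, onz]
      push_cast
      rw [h8, h1]
      ring
    · rw [h6]
      intro a ha
      rcases List.mem_cons.1 ha with rfl | ha
      · split_ifs
        · rw [one_mul]
          exact abs_le.2 h5
        · rw [neg_one_mul, abs_neg]
          exact abs_le.2 h5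
      · exact h2 a ha
    · rw [h6, List.length_cons, h3]

/-- no lattice contains the vectors represented by these numbers -/
def NNk (m s μ : ℕ) (gs : List ℕ) : Prop :=
  ∀ L : Set (Fin m → ℤ), Lat m s μ L → ∀ xs : List (List ℤ), List.Forall₂ (Rep m) gs xs →
    (∀ x ∈ xs, toV m x ∈ L) → False

theorem pkz_neg : ∀ x : List ℤ, pkz (x.map fun a => -a) = -pkz x
  | [] => by simp [pkz]
  | a :: x => by
    rw [List.map_cons, pkz, pkz, pkz_neg x]
    ring

theorem toV_neg (m : ℕ) (x : List ℤ) : toV m (x.map fun a => -a) = -toV m x := by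
  funext i
  simp only [toV, Pi.neg_apply]
  by_cases hi : i.val < x.length
  · rw [List.getD_eq_getElem _ _ (by rw [List.length_map]; exact hi),
      List.getD_eq_getElem _ _ hi, List.getElem_map]
  · rw [List.getD_eq_default _ _ (by rw [List.length_map]; omega),
      List.getD_eq_default _ _ (by omega), neg_zero]

theorem kfind_sound (O2 g : ℕ) : ∀ im : List ℕ, kfind O2 g im = true →
    ∃ w ∈ im, w = g ∨ w + g = O2
  | [], h => absurd h (by simp [kfind])
  | w :: im, h => by
    have h1 : bor (Nat.beq w g) (bor (Nat.beq (w + g) O2) (kfind O2 g im)) = true := h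
    rcases bor_true.1 h1 with h2 | h2
    · exact ⟨w, List.mem_cons_self, Or.inl (Nat.eq_of_beq_eq_true h2)⟩
    · rcases bor_true.1 h2 with h3 | h3
      · exact ⟨w, List.mem_cons_self, Or.inr (Nat.eq_of_beq_eq_true h3)⟩
      · obtain ⟨w', h4, h5⟩ := kfind_sound O2 g im h3
        exact ⟨w', List.mem_cons_of_mem _ h4, h5⟩

theorem kall_sound (O2 : ℕ) (im : List ℕ) : ∀ gs : List ℕ, kall O2 im gs = true →
    ∀ g ∈ gs, kfind O2 g im = true
  | [], _ => fun g hg => absurd hg List.not_mem_nil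
  | g :: gs, h => by
    obtain ⟨h1, h2⟩ := band_true.1 (show band (kfind O2 g im) (kall O2 im gs) = true from h)
    intro g' hg'
    rcases List.mem_cons.1 hg' with rfl | hg'
    · exact h1
    · exact kall_sound O2 im gs h2 g' hg'

theorem kims_eq (m π ε : ℕ) : ∀ gs : List ℕ, kims m π ε gs = gs.map fun g => kact m g π ε
  | [] => rfl
  | g :: gs => by
    have h1 : kims m π ε (g :: gs) = kact m g π ε :: kims m π ε gs := rfl
    rw [h1, kims_eq m π ε gs]
    rfl

theorem forall2_mem' {α β : Type} {R : α → β → Prop} {gs : List α} {xs : List β}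
    (h : List.Forall₂ R gs xs) : ∀ g ∈ gs, ∃ z ∈ xs, R g z := by
  induction h with
  | nil => exact fun z hz => absurd hz List.not_mem_nil
  | cons h1 h2 ih =>
    intro z hz
    rcases List.mem_cons.1 hz with rfl | hz
    · exact ⟨_, List.mem_cons_self, h1⟩
    · obtain ⟨g, h3, h4⟩ := ih z hz
      exact ⟨g, List.mem_cons_of_mem _ h3, h4⟩

theorem exists_forall2 {α β : Type} {R : α → β → Prop} {P : β → Prop} : ∀ (gs : List α),
    (∀ g ∈ gs, ∃ z, R g z ∧ P z) → ∃ xs, List.Forall₂ R gs xs ∧ ∀ x ∈ xs, P x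
  | [], _ => ⟨[], List.Forall₂.nil, fun x hx => absurd hx List.not_mem_nil⟩
  | g :: gs, h => by
    obtain ⟨z, h1, h2⟩ := h g List.mem_cons_self
    obtain ⟨xs, h3, h4⟩ := exists_forall2 gs (fun g' hg' => h g' (List.mem_cons_of_mem _ hg'))
    refine ⟨z :: xs, List.Forall₂.cons h1 h3, ?_⟩
    intro x hx
    rcases List.mem_cons.1 hx with rfl | hx
    · exact h2
    · exact h4 x hx

theorem kref_sound (gs : List ℕ) (x y π ρ ε : ℕ)
    (hk : kref m (Nat.mul 2 (koff m)) gs x y π ρ ε = true) (hN : NNk m s μ (y :: gs)) :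
    NNk m s μ (x :: gs) := by
  obtain ⟨h1, h2⟩ := band_true.1 hk
  obtain ⟨h3, h4⟩ := kperm_sound m ρ m 0 π h1
  have h5 := kall_sound _ _ _ h2
  rw [kims_eq] at h5
  have hv : lvalid m (dgp m π) (dge m ε) = true := by
    unfold lvalid
    simp only [Bool.and_eq_true, beq_iff_eq, List.all_eq_true, decide_eq_true_eq,
      Bool.or_eq_true]
    refine ⟨⟨⟨⟨dgp_length m π, dge_length m ε⟩, h3⟩, ?_⟩, dge_mem m ε⟩
    apply List.Nodup.of_map (f := fun p => ρ / 16 ^ p % 16)
    rw [h4]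
    exact List.nodup_range'
  obtain ⟨π', ε', hπ, hε, hact⟩ := lact_toV (dgp m π) (dge m ε) hv
  intro L hL xs hxs hxL
  have hL' := lat_act hL π' hπ ε' hε
  obtain ⟨ys, hys, hysL⟩ := exists_forall2 (R := Rep m)
    (P := fun z => toV m z ∈ {v | ∃ u ∈ L, v = act π' ε' u}) (y :: gs) (by
    intro g hg
    obtain ⟨w, hw, hwg⟩ := kfind_sound _ g _ (h5 g hg)
    obtain ⟨h, hh, rfl⟩ := List.mem_map.1 hw
    obtain ⟨z, hz, hrep⟩ := forall2_mem' hxs h hh
    obtain ⟨h6, h7, h8⟩ := kact_eq m h z hrep m π ε h3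
    have hzL : toV m (lact (dgp m π) (dge m ε) z) ∈ {v | ∃ u ∈ L, v = act π' ε' u} :=
      ⟨toV m z, hxL z hz, hact z hrep.1⟩
    rcases hwg with h9 | h9
    · exact ⟨_, ⟨h8, h7, by rw [← h9]; exact h6⟩, hzL⟩
    · refine ⟨(lact (dgp m π) (dge m ε) z).map fun a => -a, ⟨by rw [List.length_map, h8], ?_, ?_⟩,
        ?_⟩
      · intro a ha
        obtain ⟨b, hb, rfl⟩ := List.mem_map.1 ha
        rw [abs_neg]
        exact h7 b hb
      · rw [pkz_neg]
        have h10 : ((kact m h π ε : ℕ) : ℤ) + g = 2 * koff m := by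
          exact_mod_cast h9
        rw [koff_eq, h6] at h10
        linarith
      · rw [toV_neg]
        exact hL'.neg_mem hzL)
  exact hN _ hL' ys hys hysL

/-- the soundness of the fast checker -/
theorem kchk_sound (s1 qn : ℕ) (hs1 : s1 + 1 = s) (hqn : qn + s = μ + 1) (hμ : μ ≤ 31) :
    ∀ (T : KT) (gs dn : List ℕ), (∀ y ∈ dn, NNk m s μ (y :: gs)) →
    kchk m s1 qn μ (koff m) (Nat.mul 2 (koff m)) T gs dn = true →
    ∀ x ∈ kxs T, NNk m s μ (x :: gs)
  | .nil, _, _, _, _ => fun x hx => absurd hx List.not_mem_nil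
  | .leaf x V A B nx, gs, dn, hdn, h => by
    have h' : band (kleaf m μ (koff m) (x :: gs) V A B)
      (kchk m s1 qn μ (koff m) (Nat.mul 2 (koff m)) nx gs (x :: dn)) = true := h
    obtain ⟨h1, h2⟩ := band_true.1 h'
    obtain ⟨h3, h4⟩ := band_true.1 h1
    rw [frc_eq] at h4
    obtain ⟨h5, h6⟩ := band_true.1 h4
    have h5' : 1 ≤ knrm m V := Nat.le_of_ble_eq_true h5
    have h6' : knrm m V + 1 ≤ μ := Nat.le_of_ble_eq_true h6
    rw [knrm_eq] at h5' h6'
    have hN : NNk m s μ (x :: gs) := by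
      intro L hL xs hxs hxL
      have h7 := klin_sound hL (x :: gs) xs V A B hxs hxL h3 (fun a ha => by
        have := abs_le_ln _ a ha
        omega)
      have h8 := nrm_toV m (unpk m V) (unpk_length m V)
      have h9 := hL.min _ h7 (by
        intro h0
        rw [h0, nrm_zero] at h8
        omega)
      omega
    have hrec := kchk_sound s1 qn hs1 hqn hμ nx gs (x :: dn) (by
      intro y hy
      rcases List.mem_cons.1 hy with rfl | hy
      · exact hN
      · exact hdn y hy) h2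
    intro y hy
    have hy' : y ∈ x :: kxs nx := hy
    rcases List.mem_cons.1 hy' with rfl | hy'
    · exact hN
    · exact hrec y hy'
  | .node x Q H sub nx, gs, dn, hdn, h => by
    have h' : band (knode m s1 qn (koff m) (x :: gs) Q H (kxs sub))
      (band (kchk m s1 qn μ (koff m) (Nat.mul 2 (koff m)) sub (x :: gs) [])
        (kchk m s1 qn μ (koff m) (Nat.mul 2 (koff m)) nx gs (x :: dn))) = true := h
    obtain ⟨h1, h2⟩ := band_true.1 h'
    obtain ⟨h3, h4⟩ := band_true.1 h2
    have hN : NNk m s μ (x :: gs) := by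
      intro L hL xs hxs hxL
      obtain ⟨Z, hZ, z, hz, hzL⟩ := knode_sound hL s1 qn hs1 hqn hμ (x :: gs) xs hxs hxL Q H _ h1
      have h5 := kchk_sound s1 qn hs1 hqn hμ sub (x :: gs) []
        (fun y hy => absurd hy List.not_mem_nil) h3 Z hZ
      exact h5 L hL (z :: xs) (List.Forall₂.cons hz hxs) (by
        intro w hw
        rcases List.mem_cons.1 hw with rfl | hw
        · exact hzL
        · exact hxL w hw)
    have hrec := kchk_sound s1 qn hs1 hqn hμ nx gs (x :: dn) (by
      intro y hy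
      rcases List.mem_cons.1 hy with rfl | hy
      · exact hN
      · exact hdn y hy) h4
    intro y hy
    have hy' : y ∈ x :: kxs nx := hy
    rcases List.mem_cons.1 hy' with rfl | hy'
    · exact hN
    · exact hrec y hy'
  | .ref x y π ρ ε nx, gs, dn, hdn, h => by
    have h' : band (kmem y dn) (band (kref m (Nat.mul 2 (koff m)) gs x y π ρ ε)
        (kchk m s1 qn μ (koff m) (Nat.mul 2 (koff m)) nx gs dn)) = true := h
    obtain ⟨h1, h2⟩ := band_true.1 h'
    obtain ⟨h3, h4⟩ := band_true.1 h2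
    have hN : NNk m s μ (x :: gs) := kref_sound gs x y π ρ ε h3 (hdn y (kmem_true h1))
    have hrec := kchk_sound s1 qn hs1 hqn hμ nx gs dn hdn h4
    intro z hz
    have hz' : z ∈ x :: kxs nx := hz
    rcases List.mem_cons.1 hz' with rfl | hz'
    · exact hN
    · exact hrec z hz'

/-- a fact about one vector -/
theorem kfact_sound (s1 qn : ℕ) (hs1 : s1 + 1 = s) (hqn : qn + s = μ + 1) (hμ : μ ≤ 31)
    (T : KT) (h : kchk m s1 qn μ (koff m) (Nat.mul 2 (koff m)) T [] [] = true) :
    ∀ x ∈ kxs T, NNk m s μ [x] :=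
  kchk_sound s1 qn hs1 hqn hμ T [] [] (fun _ hy => absurd hy List.not_mem_nil) h

/-- the root -/
theorem kroot_sound (hL : Lat m s μ L) (s1 qn : ℕ) (hs1 : s1 + 1 = s) (hqn : qn + s = μ + 1)
    (hμ : μ ≤ 31) (fs : List ℕ) (hfs : ∀ x ∈ fs, NNk m s μ [x]) (T : KT) (Q : ℕ)
    (h1 : knode m s1 qn (koff m) [] Q .nil (fs ++ kxs T) = true)
    (h2 : kchk m s1 qn μ (koff m) (Nat.mul 2 (koff m)) T [] fs = true) : False := by
  obtain ⟨Z, hZ, z, hz, hzL⟩ := knode_sound hL s1 qn hs1 hqn hμ [] [] List.Forall₂.nil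
    (fun x hx => absurd hx List.not_mem_nil) Q .nil _ h1
  have h3 : NNk m s μ [Z] := by
    rcases List.mem_append.1 hZ with h4 | h4
    · exact hfs Z h4
    · exact kchk_sound s1 qn hs1 hqn hμ T [] fs hfs h2 Z h4
  exact h3 L hL [z] (List.Forall₂.cons hz List.Forall₂.nil) (by
    intro w hw
    rw [List.mem_singleton.1 hw]
    exact hzL)

end TightIndep
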