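import Pool.Agent.Lib.MP_f31b39_co.Crit2

/-!
# Tight `t`-independent sets: the numerical part
-/

namespace TightIndep

variable {m s μ : ℕ} {L : Set (Fin m → ℤ)}

theorem no_lat_large (hL : Lat m s μ L) (hm : 4 ≤ m) (hs : m + 4 ≤ s) : False := by
  by_cases hA : 3 * (m - 2) ≤ s
  · rcases Nat.eq_or_lt_of_le hm with h4 | h5
    · subst h4
      have h1 := crit hL 2 2 le_rfl le_rfl le_rfl (by omega)
      norm_num at h1
      nlinarith
    · obtain ⟨k, rfl⟩ : ∃ k, m = k + 2 := ⟨m - 2, by omega⟩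
      have h1 := crit hL k 0 (by omega) le_rfl (by omega) (by omega)
      have h2 : 2 * (k + 2) - 2 * k - 0 = 2 ^ 2 := by omega
      rw [h2, ← mul_pow, ← mul_pow] at h1
      have h3 := lt_of_not_ge (fun h : s * k ≤ 2 * (s + k - 1) => by
        obtain ⟨j, hj⟩ : ∃ j, s + k - 1 = j := ⟨_, rfl⟩
        rw [hj] at h
        obtain ⟨i, rfl⟩ : ∃ i, k = i + 3 := ⟨k - 3, by omega⟩
        have h4 : j + 1 = s + (i + 3) := by omega
        have h5 : 3 * (i + 3) ≤ s := by omega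
        nlinarith)
      have h4 := Nat.pow_lt_pow_left h3 (n := 2) (by norm_num)
      omega
  · obtain ⟨k, r, hr, hsk⟩ : ∃ k r, r < 3 ∧ s = 3 * k + r := ⟨s / 3, s % 3, by omega, by omega⟩
    have h1 := crit hL k r (by omega) (by omega) (by omega) (by omega)
    have h2 : 2 * m - 2 * k - r ≤ 4 * k + r - 8 := by omega
    have h3 := h1.trans (Nat.mul_le_mul_right _ h2)
    clear h1 h2
    subst hsk
    obtain ⟨i, rfl⟩ : ∃ i, k = i + 2 := ⟨k - 2, by omega⟩
    interval_cases r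
    · obtain ⟨j, rfl⟩ : ∃ j, i = j + 1 := ⟨i - 1, by omega⟩
      rw [show 4 * (j + 1 + 2) + 0 - 8 = 4 * j + 4 by omega,
        show 3 * (j + 1 + 2) + 0 + (j + 1 + 2) - 1 = 4 * j + 11 by omega] at h3
      have h4 : 4 * ((j : ℤ) + 1) * (4 * j + 11) ^ 2 < (3 * (j + 3)) ^ 2 * (j + 3) ^ 2 := by
        have hj : (0 : ℤ) ≤ j := Int.natCast_nonneg j
        nlinarith [mul_nonneg hj hj, mul_nonneg (mul_nonneg hj hj) hj, sq_nonneg ((j : ℤ) ^ 2 - j)]
      have h5 : ((3 * (j + 1 + 2) + 0) ^ 2 * (j + 1 + 2) ^ 2 : ℤ) ≤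
          (4 * j + 4) * (4 * j + 11) ^ 2 := by exact_mod_cast h3
      nlinarith
    · obtain ⟨j, rfl⟩ : ∃ j, i = j + 1 := ⟨i - 1, by omega⟩
      rw [show 4 * (j + 1 + 2) + 1 - 8 = 4 * j + 5 by omega,
        show 3 * (j + 1 + 2) + 1 + (j + 1 + 2) - 1 = 4 * (j + 3) by omega] at h3
      have h4 : (3 * (j + 1 + 2) + 1) ^ 2 * (j + 3) ^ 2 ≤ (16 * (4 * j + 5)) * (j + 3) ^ 2 := by
        calc (3 * (j + 1 + 2) + 1) ^ 2 * (j + 3) ^ 2 ≤ (4 * j + 5) * (4 * (j + 3)) ^ 2 := h3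
          _ = (16 * (4 * j + 5)) * (j + 3) ^ 2 := by ring
      have h5 := Nat.le_of_mul_le_mul_right h4 (by positivity)
      have h6 : ((3 * (j + 1 + 2) + 1) ^ 2 : ℤ) ≤ 16 * (4 * j + 5) := by exact_mod_cast h5
      nlinarith [sq_nonneg ((j : ℤ) - 0)]
    · rw [show 4 * (i + 2) + 2 - 8 = 4 * i + 2 by omega,
        show 3 * (i + 2) + 2 + (i + 2) - 1 = 4 * i + 9 by omega] at h3
      have h5 : ((3 * (i + 2) + 2) ^ 2 * (i + 2) ^ 2 : ℤ) ≤
          (4 * i + 2) * (4 * i + 9) ^ 2 := by exact_mod_cast h3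
      have hi : (0 : ℤ) ≤ i := Int.natCast_nonneg i
      rcases Nat.lt_or_ge i 2 with h6 | h6
      · interval_cases i <;> norm_num at h5
      · have h6' : (2 : ℤ) ≤ i := by exact_mod_cast h6
        nlinarith [mul_nonneg hi hi, mul_nonneg (mul_nonneg hi hi) hi,
          mul_nonneg (sub_nonneg.2 h6') hi, mul_nonneg (mul_nonneg (sub_nonneg.2 h6') hi) hi,
          mul_nonneg (mul_nonneg (mul_nonneg (sub_nonneg.2 h6') hi) hi) hi]

/-- the second criterion is violated at a point -/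
def FF (v s g : ℤ) : ℤ := 4 * ((v - g) * (s * (g - 1) - 1)) - v * (4 * (v - g) + (s + 1) ^ 2)

theorem FF_pos (v v1 v2 s g : ℤ) (h1 : v1 ≤ v) (h2 : v ≤ v2) (h12 : v1 < v2)
    (hF1 : 0 < FF v1 s g) (hF2 : 0 < FF v2 s g) : 0 < FF v s g := by
  by_contra hcon
  push Not at hcon
  have e1 : (v2 - v1) * FF v s g = (v2 - v) * FF v1 s g + (v - v1) * FF v2 s g +
      4 * (v2 - v1) * ((v - v1) * (v2 - v)) := by
    unfold FF
    ring
  have h3 : (v2 - v) * 1 ≤ (v2 - v) * FF v1 s g :=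
    mul_le_mul_of_nonneg_left (by omega) (by omega)
  have h4 : (v - v1) * 1 ≤ (v - v1) * FF v2 s g :=
    mul_le_mul_of_nonneg_left (by omega) (by omega)
  have h5 : 0 ≤ 4 * (v2 - v1) * ((v - v1) * (v2 - v)) :=
    mul_nonneg (by omega) (mul_nonneg (by omega) (by omega))
  have h6 : (v2 - v1) * FF v s g ≤ 0 := mul_nonpos_of_nonneg_of_nonpos (by omega) hcon
  linarith

/-- the check of one pair -/
def chk (m s : ℕ) : Bool :=
  decide (m < 32) || decide (s * s < 4 * m) || decide (32 * m ≤ s * s) ||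
    decide ((2 * m - 2 * (s / 3) - s % 3) * (s + s / 3 - 1) ^ 2 < s ^ 2 * (s / 3) ^ 2) ||
    (decide (0 < FF (2 * (m : ℤ) + 1 - (s : ℤ)) s s) && decide (0 < FF (2 * (m : ℤ)) s s) &&
      decide (0 < FF (2 * (m : ℤ) + 1 - (s : ℤ)) s ((s : ℤ) + 1)) &&
      decide (0 < FF (2 * (m : ℤ)) s ((s : ℤ) + 1)))

theorem all_chk : ((List.range 128).all fun m => (List.range 64).all fun s => chk m s) = true := by
  decide +kernel

theorem fin_check (m : ℕ) (hm : m < 128) (s : ℕ) (hs : s < 64) (h1 : 32 ≤ m)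
    (h2 : 4 * m ≤ s * s) (h3 : s * s < 32 * m) :
    (2 * m - 2 * (s / 3) - s % 3) * (s + s / 3 - 1) ^ 2 < s ^ 2 * (s / 3) ^ 2 ∨
    (0 < FF (2 * (m : ℤ) + 1 - (s : ℤ)) s s ∧ 0 < FF (2 * (m : ℤ)) s s ∧
      0 < FF (2 * (m : ℤ) + 1 - (s : ℤ)) s ((s : ℤ) + 1) ∧
      0 < FF (2 * (m : ℤ)) s ((s : ℤ) + 1)) := by
  have h4 := List.all_eq_true.1 all_chk m (List.mem_range.2 hm)
  have h5 := List.all_eq_true.1 h4 s (List.mem_range.2 hs)
  unfold chk at h5
  simp only [Bool.or_eq_true, Bool.and_eq_true, decide_eq_true_eq] at h5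
  rcases h5 with (((h5 | h5) | h5) | h5) | h5
  · omega
  · omega
  · omega
  · exact Or.inl h5
  · exact Or.inr ⟨h5.1.1.1, h5.1.1.2, h5.1.2, h5.2⟩

theorem no_lat_sqrt (hL : Lat m s μ L) (hm : 32 ≤ m) (hs : 4 * m ≤ s * s) : False := by
  by_cases h1 : m + 4 ≤ s
  · exact no_lat_large hL (by omega) h1
  push Not at h1
  have hs12 : 12 ≤ s := by
    by_contra hcon
    push Not at hcon
    have : s * s ≤ 11 * 11 := Nat.mul_le_mul (by omega) (by omega)
    omega
  by_cases h2 : 32 * m ≤ s * s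
  · obtain ⟨k, r, hr, hsk⟩ : ∃ k r, r < 3 ∧ s = 3 * k + r :=
      ⟨s / 3, s % 3, by omega, by omega⟩
    have h3 := crit hL k r (by omega) (by omega) (by omega) (by omega)
    have h4 : ((2 * m - 2 * k - r : ℕ) : ℤ) = 2 * (m : ℤ) - 2 * k - r := by
      have : 2 * k + r ≤ 2 * m := by omega
      omega
    have h5 : ((s + k - 1 : ℕ) : ℤ) = (s : ℤ) + k - 1 := by omega
    have h6 : ((s : ℤ)) ^ 2 * (k : ℤ) ^ 2 ≤ (2 * (m : ℤ) - 2 * k - r) * ((s : ℤ) + k - 1) ^ 2 := by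
      rw [← h4, ← h5]
      exact_mod_cast h3
    have h7 : 32 * (m : ℤ) ≤ (s : ℤ) ^ 2 := by
      rw [sq]
      exact_mod_cast h2
    have h8 : 16 * (((s : ℤ)) ^ 2 * (k : ℤ) ^ 2) ≤
        ((s : ℤ) ^ 2 - 32 * k - 16 * r) * ((s : ℤ) + k - 1) ^ 2 := by
      nlinarith [mul_nonneg (sub_nonneg.2 h7) (sq_nonneg ((s : ℤ) + k - 1))]
    have hk : (4 : ℤ) ≤ k := by omega
    clear h6 h7 h3 h4 h5
    subst hsk
    push_cast at h8
    interval_cases r
    · push_cast at h8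
      nlinarith [mul_pos (show (0 : ℤ) < k by omega) (show (0 : ℤ) < k by omega),
        mul_pos (mul_pos (show (0 : ℤ) < k by omega) (show (0 : ℤ) < k by omega))
          (show (0 : ℤ) < k by omega)]
    · push_cast at h8
      nlinarith [mul_pos (show (0 : ℤ) < k by omega) (show (0 : ℤ) < k by omega),
        mul_pos (mul_pos (show (0 : ℤ) < k by omega) (show (0 : ℤ) < k by omega))
          (show (0 : ℤ) < k by omega)]
    · push_cast at h8
      nlinarith [mul_pos (show (0 : ℤ) < k by omega) (show (0 : ℤ) < k by omega),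
        mul_pos (mul_pos (show (0 : ℤ) < k by omega) (show (0 : ℤ) < k by omega))
          (show (0 : ℤ) < k by omega)]
  push Not at h2
  have hsm : s ≤ m := by
    by_contra hcon
    push Not at hcon
    have : (m + 1) * (m + 1) ≤ s * s := Nat.mul_le_mul hcon hcon
    nlinarith
  obtain ⟨v, g, hv1, hv2, hg1, hg2, hgv, hF⟩ := crit2 hL hsm
  -- in the integers
  have hF' : FF (v : ℤ) (s : ℤ) (g : ℤ) ≤ 0 := by
    unfold FF
    have e1 : ((v - g : ℕ) : ℤ) = (v : ℤ) - g := by omega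
    have e2 : ((g - 1 : ℕ) : ℤ) = (g : ℤ) - 1 := by omega
    have h3 : 4 * (((v : ℤ) - g) * ((s : ℤ) * ((g : ℤ) - 1))) ≤
        (v : ℤ) * (4 * ((v : ℤ) - g) + ((s : ℤ) + 1) ^ 2) + 4 * ((v : ℤ) - g) := by
      rw [← e1, ← e2]
      exact_mod_cast hF
    nlinarith
  by_cases h3 : m < 128
  · have hs64 : s < 64 := by
      by_contra hcon
      push Not at hcon
      have : 64 * 64 ≤ s * s := Nat.mul_le_mul hcon hcon
      omega
    rcases fin_check m h3 s hs64 hm hs h2 with h4 | ⟨h4, h5, h6, h7⟩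
    · have h5 := crit hL (s / 3) (s % 3) (by omega) (by omega) (by omega) (by omega)
      omega
    · have hgs : g = s ∨ g = s + 1 := by omega
      rcases hgs with rfl | rfl
      · have := FF_pos (v : ℤ) _ _ _ _ (by omega) (by omega) (by omega) h4 h5
        omega
      · have := FF_pos (v : ℤ) _ _ _ _ (by omega) (by omega) (by omega) h6 h7
        push_cast at hF'
        omega
  · push Not at h3
    have h2s : 2 * s + 1 ≤ m := by
      by_contra hcon
      push Not at hcon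
      have h4 : m * m ≤ (2 * s) * (2 * s) := Nat.mul_le_mul (by omega) (by omega)
      nlinarith
    obtain ⟨A, hA⟩ : ∃ A : ℤ, A = (v : ℤ) - s - 1 := ⟨_, rfl⟩
    obtain ⟨B, hB⟩ : ∃ B : ℤ, B = (s : ℤ) * ((s : ℤ) - 1) - 1 - v := ⟨_, rfl⟩
    have hs' : 4 * (m : ℤ) ≤ (s : ℤ) * s := by exact_mod_cast hs
    have h3A : 2 * (v : ℤ) ≤ 3 * A := by omega
    have h2B : (s : ℤ) * s - 2 * s - 2 ≤ 2 * B := by
      rw [hB]
      nlinarith
    have hs23 : (23 : ℤ) ≤ s := by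
      by_contra hcon
      push Not at hcon
      have : s * s ≤ 22 * 22 := Nat.mul_le_mul (by omega) (by omega)
      omega
    have hB0 : 0 < (s : ℤ) * s - 2 * s - 2 := by nlinarith
    have hv0 : (0 : ℤ) < v := by omega
    -- monotonicity in `g`
    have h4 : 4 * (A * B) ≤ (v : ℤ) * ((s : ℤ) + 1) ^ 2 := by
      have h5 : A * B ≤ ((v : ℤ) - g) * ((s : ℤ) * ((g : ℤ) - 1) - 1 - v) := by
        apply mul_le_mul
        · omega
        · rw [hB]
          have : (s : ℤ) * ((s : ℤ) - 1) ≤ (s : ℤ) * ((g : ℤ) - 1) :=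
            mul_le_mul_of_nonneg_left (by omega) (by omega)
          omega
        · omega
        · omega
      unfold FF at hF'
      nlinarith
    have h5 : 2 * (v : ℤ) * ((s : ℤ) * s - 2 * s - 2) ≤ 3 * A * (2 * B) :=
      mul_le_mul h3A h2B hB0.le (by omega)
    have h6 : (v : ℤ) * (4 * ((s : ℤ) * s - 2 * s - 2)) ≤ (v : ℤ) * (3 * ((s : ℤ) + 1) ^ 2) := by
      nlinarith
    have h7 := le_of_mul_le_mul_left h6 hv0
    nlinarith

end TightIndep
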