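import Pool.Agent.Lib.MP_f31b39_co.Count

/-!
# Tight `t`-independent sets: the lattice of relations
-/

namespace TightIndep

variable {m : ℕ}

/-- the component of `v` in the direction `d` -/
def comp (v : Fin m → ℤ) (d : Fin m × Bool) : ℕ := if d.2 then (v d.1).toNat else (-v d.1).toNat

/-- the overlap of two vectors -/
def ov (v w : Fin m → ℤ) : ℕ := ∑ d, min (comp v d) (comp w d)

theorem nrm_eq (v : Fin m → ℤ) : nrm v = ∑ d, comp v d := by
  rw [Fintype.sum_prod_type]
  refine Finset.sum_congr rfl fun i _ => ?_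
  rw [Fintype.sum_bool]
  simp only [comp, if_true, Bool.false_eq_true, if_false]
  omega

theorem nrm_sub_ov (v w : Fin m → ℤ) : nrm (v - w) + 2 * ov v w = nrm v + nrm w := by
  unfold ov nrm
  rw [Fintype.sum_prod_type, Finset.mul_sum, ← Finset.sum_add_distrib, ← Finset.sum_add_distrib]
  refine Finset.sum_congr rfl fun i _ => ?_
  rw [Fintype.sum_bool]
  simp only [comp, if_true, Bool.false_eq_true, if_false, Pi.sub_apply]
  omega

theorem nrm_neg (v : Fin m → ℤ) : nrm (-v) = nrm v := by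
  unfold nrm
  simp

theorem nrm_sub_comm (v w : Fin m → ℤ) : nrm (v - w) = nrm (w - v) := by
  rw [← nrm_neg, neg_sub]

theorem nrm_add_le (v w : Fin m → ℤ) : nrm (v + w) ≤ nrm v + nrm w := by
  unfold nrm
  rw [← Finset.sum_add_distrib]
  refine Finset.sum_le_sum fun i _ => ?_
  rw [Pi.add_apply]
  omega

theorem nrm_sub_le (v w : Fin m → ℤ) : nrm (v - w) ≤ nrm v + nrm w := by
  have := nrm_sub_ov v w
  omega

theorem nrm_zero : nrm (0 : Fin m → ℤ) = 0 := by simp [nrm]

theorem eq_zero_of_nrm {v : Fin m → ℤ} (h : nrm v = 0) : v = 0 := by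
  funext i
  have := natAbs_le_nrm v i
  rw [Pi.zero_apply]
  omega

theorem comp_ud (d d' : Fin m × Bool) : comp (ud d) d' = if d' = d then 1 else 0 := by
  obtain ⟨i, b⟩ := d
  obtain ⟨j, b'⟩ := d'
  unfold comp ud
  by_cases h : j = i
  · subst h
    cases b <;> cases b' <;> simp
  · simp [Pi.single_apply, h]

theorem nrm_ud (d : Fin m × Bool) : nrm (ud d) = 1 := by
  rw [nrm_eq]
  simp [comp_ud]

theorem ov_comm (v w : Fin m → ℤ) : ov v w = ov w v := by
  unfold ov
  simp only [min_comm]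

theorem ov_ud (v : Fin m → ℤ) (d : Fin m × Bool) : ov v (ud d) = min (comp v d) 1 := by
  unfold ov
  rw [Finset.sum_eq_single d]
  · rw [comp_ud, if_pos rfl]
  · intro d' _ h
    rw [comp_ud, if_neg h, Nat.min_zero]
  · intro h
    exact absurd (Finset.mem_univ _) h

theorem min_le_ov (v w : Fin m → ℤ) (d : Fin m × Bool) : min (comp v d) (comp w d) ≤ ov v w :=
  Finset.single_le_sum (f := fun d => min (comp v d) (comp w d)) (fun _ _ => Nat.zero_le _)
    (Finset.mem_univ d)

/-- the properties of the lattice of relations of a tight set: `s = ⌊t / 2⌋ + 1`, `μ = t + 1` -/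
structure Lat (m s μ : ℕ) (L : Set (Fin m → ℤ)) : Prop where
  hs : 1 ≤ s
  h1 : 2 * s ≤ μ + 1
  h2 : μ ≤ 2 * s
  zero : (0 : Fin m → ℤ) ∈ L
  sub : ∀ x ∈ L, ∀ y ∈ L, x - y ∈ L
  min : ∀ x ∈ L, x ≠ 0 → μ ≤ nrm x
  cov : ∀ (Q : Fin m → ℤ) (d : Fin m × Bool), (μ < 2 * s ∨ ∀ x ∈ L, s ≤ nrm (Q - x)) →
    ∃ x ∈ L, nrm (Q + ud d - x) + 1 ≤ s

/-- the lattice of relations of a family -/
def rel {G : Type} [AddCommGroup G] (a : Fin m → G) : Set (Fin m → ℤ) :=
  {v | ∑ i, v i • a i = 0}

theorem lat_of_family {G : Type} [AddCommGroup G] [Fintype G] (t : ℕ) (ht : 1 ≤ t)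
    (a : Fin m → G) (hm : 1 ≤ m) (h : ∀ v ∈ rel a, v ≠ 0 → t + 1 ≤ nrm v)
    (hG : Fintype.card G = bound m t) : Lat m (t / 2 + 1) (t + 1) (rel a) := by
  classical
  have hsub : ∀ x ∈ rel a, ∀ y ∈ rel a, x - y ∈ rel a := by
    intro x hx y hy
    have hx' : ∑ i, x i • a i = 0 := hx
    have hy' : ∑ i, y i • a i = 0 := hy
    show ∑ i, (x - y) i • a i = 0
    simp only [Pi.sub_apply, sub_smul, Finset.sum_sub_distrib, hx', hy', sub_zero]
  -- surjectivity
  have key : ∀ U : Finset (Fin m → ℤ), (∀ u ∈ U, ∀ u' ∈ U, nrm (u - u') ≤ t) →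
      U.card = bound m t → ∀ Q : Fin m → ℤ, ∃ x ∈ rel a, Q - x ∈ U := by
    intro U hU hc Q
    have hinj : Set.InjOn (fun u : Fin m → ℤ => ∑ i, u i • a i) U := by
      intro u hu u' hu' heq
      by_contra hne
      have h3 : u - u' ∈ rel a := by
        show ∑ i, (u - u') i • a i = 0
        simp only [Pi.sub_apply, sub_smul, Finset.sum_sub_distrib]
        exact sub_eq_zero.2 heq
      have h4 := h _ h3 (sub_ne_zero.2 hne)
      have h5 := hU u hu u' hu'
      omega
    have himg : U.image (fun u : Fin m → ℤ => ∑ i, u i • a i) = Finset.univ := by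
      apply Finset.eq_univ_of_card
      rw [Finset.card_image_of_injOn hinj, hc, hG]
    have h3 : (∑ i, Q i • a i) ∈ U.image (fun u : Fin m → ℤ => ∑ i, u i • a i) := by
      rw [himg]
      exact Finset.mem_univ _
    obtain ⟨u, hu, hu2⟩ := Finset.mem_image.1 h3
    refine ⟨Q - u, ?_, ?_⟩
    · show ∑ i, (Q - u) i • a i = 0
      simp only [Pi.sub_apply, sub_smul, Finset.sum_sub_distrib]
      exact sub_eq_zero.2 hu2.symm
    · rw [sub_sub_cancel]
      exact hu
  refine ⟨by omega, by omega, by omega, ?_, hsub, fun x hx h0 => h x hx h0, ?_⟩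
  · show ∑ i, (0 : Fin m → ℤ) i • a i = 0
    simp
  · intro Q d hQ
    rcases Nat.even_or_odd' t with ⟨e, he | he⟩
    · -- even
      obtain ⟨x, hx, hx2⟩ := key (ball m e) (fun u hu u' hu' => by
        rw [mem_ball] at hu hu'
        have := nrm_sub_le u u'
        omega) (by rw [card_ball, he, bound_even]) (Q + ud d)
      rw [mem_ball] at hx2
      exact ⟨x, hx, by omega⟩
    · -- odd
      obtain ⟨n, rfl⟩ : ∃ n, m = n + 1 := ⟨m - 1, by omega⟩
      obtain ⟨x, hx, hx2⟩ := key (dball (e + 1) d) (fun u hu u' hu' => by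
        rw [mem_dball] at hu hu'
        have h3 := nrm_sub_le u u'
        have h4 := nrm_sub_le (u + ud d) (u' + ud d)
        rw [add_sub_add_right_eq_sub] at h4
        have h5 : nrm (u' + ud d - ud d) ≤ nrm (u' + ud d) + nrm (ud d) := nrm_sub_le _ _
        have h6 : nrm (u + ud d - ud d) ≤ nrm (u + ud d) + nrm (ud d) := nrm_sub_le _ _
        rw [add_sub_cancel_right, nrm_ud] at h5 h6
        omega) (by
          rw [card_dball, he, show 2 * e + 1 = 2 * (e + 1) - 1 by omega,
            bound_odd n (e + 1) (by omega)]) Q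
      rw [mem_dball] at hx2
      refine ⟨x, hx, ?_⟩
      rcases hQ with hQ | hQ
      · omega
      · have h3 := hQ x hx
        rcases hx2 with h4 | h4
        · omega
        · have h5 : Q + ud d - x = Q - x + ud d := by abel
          rw [h5]
          omega

end TightIndep
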