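import Pool.Agent.Lib.MP_f31b39_co.Small
import Pool.Agent.Lib.MP_f31b39_co.Family

/-!
# Tight `t`-independent sets with three to six elements
-/

namespace Pool.Agent.Lib.MP_f31b39_co.SizeAtMostSix

open TightIndep

/-- Let `t ≥ 4` and let `A` be a tight `t`-independent set in a finite abelian group (for instance
in a cyclic group). If `A` has at least three and at most six elements, then it has three elements
and `t = 5` (and so the order of the group is `38`). -/
theorem result (G : Type) [AddCommGroup G] [Fintype G] (t : ℕ) (A : Finset G)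
    (hA : Tight t A) (ht : 4 ≤ t) (hm : 3 ≤ A.card) (hm' : A.card ≤ 6) :
    A.card = 3 ∧ t = 5 ∧ Fintype.card G = 38 := by
  obtain ⟨L, hL⟩ := lat_of_tight t (by omega) A (by omega) hA
  obtain ⟨h1, h2⟩ := no_small A.card t ht hm hm' hL
  refine ⟨h1, h2, ?_⟩
  rw [hA.2, h1, h2]
  decide

end Pool.Agent.Lib.MP_f31b39_co.SizeAtMostSix
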