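import Pool.Agent.Lib.MP_f31b39_co.D3_4
import Pool.Agent.Lib.MP_f31b39_co.D3_6
import Pool.Agent.Lib.MP_f31b39_co.D3_7
import Pool.Agent.Lib.MP_f31b39_co.D3_8
import Pool.Agent.Lib.MP_f31b39_co.D3_9
import Pool.Agent.Lib.MP_f31b39_co.D3_10
import Pool.Agent.Lib.MP_f31b39_co.D3_11
import Pool.Agent.Lib.MP_f31b39_co.D3_12
import Pool.Agent.Lib.MP_f31b39_co.D3_13
import Pool.Agent.Lib.MP_f31b39_co.D3_14
import Pool.Agent.Lib.MP_f31b39_co.D3_15
import Pool.Agent.Lib.MP_f31b39_co.D4_4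
import Pool.Agent.Lib.MP_f31b39_co.D4_5
import Pool.Agent.Lib.MP_f31b39_co.D4_6
import Pool.Agent.Lib.MP_f31b39_co.D4_7
import Pool.Agent.Lib.MP_f31b39_co.D4_8
import Pool.Agent.Lib.MP_f31b39_co.D4_9
import Pool.Agent.Lib.MP_f31b39_co.D4_10
import Pool.Agent.Lib.MP_f31b39_co.D4_11
import Pool.Agent.Lib.MP_f31b39_co.D4_12
import Pool.Agent.Lib.MP_f31b39_co.D4_13
import Pool.Agent.Lib.MP_f31b39_co.D5_4
import Pool.Agent.Lib.MP_f31b39_co.D5_5
import Pool.Agent.Lib.MP_f31b39_co.D5_6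
import Pool.Agent.Lib.MP_f31b39_co.D5_7
import Pool.Agent.Lib.MP_f31b39_co.D5_8
import Pool.Agent.Lib.MP_f31b39_co.D5_9
import Pool.Agent.Lib.MP_f31b39_co.D5_10
import Pool.Agent.Lib.MP_f31b39_co.D5_11
import Pool.Agent.Lib.MP_f31b39_co.D5_12
import Pool.Agent.Lib.MP_f31b39_co.D5_13
import Pool.Agent.Lib.MP_f31b39_co.D5_14
import Pool.Agent.Lib.MP_f31b39_co.D5_15
import Pool.Agent.Lib.MP_f31b39_co.D6_4
import Pool.Agent.Lib.MP_f31b39_co.D6_5
import Pool.Agent.Lib.MP_f31b39_co.D6_6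
import Pool.Agent.Lib.MP_f31b39_co.D6_7
import Pool.Agent.Lib.MP_f31b39_co.D6_8
import Pool.Agent.Lib.MP_f31b39_co.D6_9
import Pool.Agent.Lib.MP_f31b39_co.D6_10
import Pool.Agent.Lib.MP_f31b39_co.D6_11
import Pool.Agent.Lib.MP_f31b39_co.D6_12
import Pool.Agent.Lib.MP_f31b39_co.D6_13
import Pool.Agent.Lib.MP_f31b39_co.D6_14
import Pool.Agent.Lib.MP_f31b39_co.D6_15
import Pool.Agent.Lib.MP_f31b39_co.D6_16
import Pool.Agent.Lib.MP_f31b39_co.D6_17
import Pool.Agent.Lib.MP_f31b39_co.Three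
import Pool.Agent.Lib.MP_f31b39_co.Final

/-!
# Tight `t`-independent sets of size at most six
-/

namespace TightIndep

theorem no_small3 (t : ℕ) (ht : 4 ≤ t) (h5 : t ≠ 5) {L : Set (Fin 3 → ℤ)}
    (hL : Lat 3 (t / 2 + 1) (t + 1) L) : False := by
  by_cases h : 16 ≤ t
  · exact no_lat_three hL (by omega)
  · have h' : t < 16 := by omega
    interval_cases t
    · exact D3_4.no hL
    · exact h5 rfl
    · exact D3_6.no hL
    · exact D3_7.no hL
    · exact D3_8.no hL
    · exact D3_9.no hL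
    · exact D3_10.no hL
    · exact D3_11.no hL
    · exact D3_12.no hL
    · exact D3_13.no hL
    · exact D3_14.no hL
    · exact D3_15.no hL

theorem no_small4 (t : ℕ) (ht : 4 ≤ t) {L : Set (Fin 4 → ℤ)}
    (hL : Lat 4 (t / 2 + 1) (t + 1) L) : False := by
  by_cases h : 14 ≤ t
  · exact no_lat_large hL (by norm_num) (by omega)
  · have h' : t < 14 := by omega
    interval_cases t
    · exact D4_4.no hL
    · exact D4_5.no hL
    · exact D4_6.no hL
    · exact D4_7.no hL
    · exact D4_8.no hL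
    · exact D4_9.no hL
    · exact D4_10.no hL
    · exact D4_11.no hL
    · exact D4_12.no hL
    · exact D4_13.no hL

theorem no_small5 (t : ℕ) (ht : 4 ≤ t) {L : Set (Fin 5 → ℤ)}
    (hL : Lat 5 (t / 2 + 1) (t + 1) L) : False := by
  by_cases h : 16 ≤ t
  · exact no_lat_large hL (by norm_num) (by omega)
  · have h' : t < 16 := by omega
    interval_cases t
    · exact D5_4.no hL
    · exact D5_5.no hL
    · exact D5_6.no hL
    · exact D5_7.no hL
    · exact D5_8.no hL
    · exact D5_9.no hL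
    · exact D5_10.no hL
    · exact D5_11.no hL
    · exact D5_12.no hL
    · exact D5_13.no hL
    · exact D5_14.no hL
    · exact D5_15.no hL

theorem no_small6 (t : ℕ) (ht : 4 ≤ t) {L : Set (Fin 6 → ℤ)}
    (hL : Lat 6 (t / 2 + 1) (t + 1) L) : False := by
  by_cases h : 18 ≤ t
  · exact no_lat_large hL (by norm_num) (by omega)
  · have h' : t < 18 := by omega
    interval_cases t
    · exact D6_4.no hL
    · exact D6_5.no hL
    · exact D6_6.no hL
    · exact D6_7.no hL
    · exact D6_8.no hL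
    · exact D6_9.no hL
    · exact D6_10.no hL
    · exact D6_11.no hL
    · exact D6_12.no hL
    · exact D6_13.no hL
    · exact D6_14.no hL
    · exact D6_15.no hL
    · exact D6_16.no hL
    · exact D6_17.no hL

/-- there are no lattices of tight sets of size between three and six, except for `m = 3`,
`t = 5` -/
theorem no_small (m t : ℕ) (ht : 4 ≤ t) (hm : 3 ≤ m) (hm' : m ≤ 6) {L : Set (Fin m → ℤ)}
    (hL : Lat m (t / 2 + 1) (t + 1) L) : m = 3 ∧ t = 5 := by
  by_contra hcon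
  interval_cases m
  · exact no_small3 t ht (fun h => hcon ⟨rfl, h⟩) hL
  · exact no_small4 t ht hL
  · exact no_small5 t ht hL
  · exact no_small6 t ht hL

end TightIndep
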